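import Pool.Agent.H39.Lions.Shear
import Pool.Agent.H42.Two.Flag

/-!
# Blow-up below the exponent `5 / 4`
-/

open MeasureTheory Set Filter Topology
open scoped ContDiff ENNReal

namespace Pool.Agent.H39.Lions

open H459R3.NS (V K3 Per cube SP pd lap ee fr S N)
open Pool.Agent.H39.PDE
open Pool.Agent.H39.Dy (gain IsSol Rapid)
open Pool.Agent.K1H11.NS (Ev.SF)
open Pool.Agent.H42.Flag (Fast BlowsUpAt)

variable {θ s ν T : ℝ} {lam : ℕ} {B α β : ℝ}

/-! ### series of modes -/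

theorem ha_psi_eigen (n : ℕ) (i : Fin 3) (k : K3) :
    (fq k - (2 * Real.pi * lam ^ n) ^ 2) * ha (fun x => psi lam n x i) k = 0 := by
  have hsp := sp_psi (lam := lam) n i
  have h1 : ∀ j, ha (pd j (pd j fun x => psi lam n x i)) k = -(2 * Real.pi * k j) ^ 2 * ha (fun x => psi lam n x i) k := by
    intro j
    rw [ha_pd (hsp.pd j), ha_pd hsp, neg_neg]
    simp only [Pi.neg_apply, Int.cast_neg]
    ring
  have h2 : ha (fun x => ∑ j, pd j (pd j fun x => psi lam n x i) x) k = -fq k * ha (fun x => psi lam n x i) k := by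
    rw [ha_sum _ fun j _ => (hsp.pd j).pd j]
    simp only [h1]
    rw [← Finset.sum_mul]
    congr 1
    unfold Pool.Agent.H39.PDE.fq
    simp only [Fin.sum_univ_three]
    ring
  have h3 : (fun x => ∑ j, pd j (pd j fun x => psi lam n x i) x) = fun x => -(2 * Real.pi * lam ^ n) ^ 2 * psi lam n x i :=
    funext fun x => lap_psi n i x
  rw [h3, ha_smul] at h2
  linarith

theorem ha_psi_rpow (n : ℕ) (i : Fin 3) (k : K3) (s : ℝ) :
    fq k ^ s * ha (fun x => psi lam n x i) k =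
      (2 * Real.pi) ^ (2 * s) * ((lam : ℝ) ^ (2 * s)) ^ n * ha (fun x => psi lam n x i) k := by
  rcases mul_eq_zero.1 (ha_psi_eigen (lam := lam) n i k) with h | h
  · rw [show fq k = (2 * Real.pi * lam ^ n) ^ 2 by linarith, mul_sq_rpow]
  · rw [h, mul_zero, mul_zero]

/-- coefficients of a series of modes -/
theorem ha_fld (hlam : 2 ≤ lam) {a : ℕ → ℝ} (ha' : RS a) (i : Fin 3) (k : K3) :
    HasSum (fun n => a n * ha (fun x => psi lam n x i) k) (ha (fun x => fld lam a x i) k) := by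
  classical
  set w : V → V := fun x l => if l = i then cas k x else 0 with hw
  have hcas : SP (cas k) := ⟨cas_contDiff k, cas_per k⟩
  have hwsp : ∀ l, SP fun x => w x l := by
    intro l
    simp only [hw]
    split_ifs
    · exact hcas
    · exact sp_const 0
  have h1 := ip_fld (lam := lam) ha'.summable_abs hwsp
  have e1 : ∀ n, co lam w n = ha (fun x => psi lam n x i) k := by
    intro n
    rw [ha_int (sp_psi n i).cont]
    unfold co
    congr 1; funext x
    simp only [hw, ite_mul, zero_mul, Finset.sum_ite_eq', Finset.mem_univ, if_true]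
    ring
  have e2 : ip (fld lam a) w = ha (fun x => fld lam a x i) k := by
    rw [ha_int (fld_sp hlam ha' i).cont]
    unfold ip
    congr 1; funext x
    simp only [hw, mul_ite, mul_zero, Finset.sum_ite_eq', Finset.mem_univ, if_true]
  rw [e2] at h1
  simp_rw [e1] at h1
  exact h1

theorem kap_ne (hlam : 2 ≤ lam) (n : ℕ) : kap lam n ≠ 0 := by
  intro h
  have := congrFun h 0
  simp [kap] at this
  omega

/-- the modes have mean zero -/
theorem ha_psi_zero (hlam : 2 ≤ lam) (n : ℕ) (i : Fin 3) : ha (fun x => psi lam n x i) 0 = 0 := by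
  have h := ha_psi_eigen (lam := lam) n i 0
  have h0 : fq 0 = 0 := by simp [Pool.Agent.H39.PDE.fq]
  rw [h0, zero_sub] at h
  have hl : (0 : ℝ) < lam := by
    have : 0 < lam := by omega
    exact_mod_cast this
  have hpi := Real.pi_pos
  have h1 : -(2 * Real.pi * (lam : ℝ) ^ n) ^ 2 ≠ 0 := by
    have : 0 < (2 * Real.pi * (lam : ℝ) ^ n) ^ 2 := by positivity
    linarith
  exact (mul_eq_zero.1 h).resolve_left h1

theorem field_fld (hlam : 2 ≤ lam) {a : ℕ → ℝ} (ha' : RS a) : Field (fld lam a) := by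
  refine ⟨fld_sp hlam ha', fld_div (by omega) ha', fun i => mean_of_ha ?_⟩
  have h := ha_fld hlam ha' i 0
  simp_rw [ha_psi_zero hlam, mul_zero] at h
  exact h.unique hasSum_zero

theorem RS.dis {a : ℕ → ℝ} (ha' : RS a) (hlam : 2 ≤ lam) (s : ℝ) :
    RS fun n => (2 * Real.pi) ^ (2 * s) * ((lam : ℝ) ^ (2 * s)) ^ n * a n := by
  have hl : (0 : ℝ) < lam := by
    have : 0 < lam := by omega
    exact_mod_cast this
  have h : (0 : ℝ) < (lam : ℝ) ^ (2 * s) := Real.rpow_pos_of_pos hl _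
  exact ((ha'.pow_mul h).const_mul ((2 * Real.pi) ^ (2 * s))).congr fun n => by ring

/-- the dissipation of a series of modes -/
theorem flap_fld (hlam : 2 ≤ lam) {a : ℕ → ℝ} (ha' : RS a) (s : ℝ) (i : Fin 3) :
    flap s (fun y => fld lam a y i) = fun x => fld lam (fun n => (2 * Real.pi) ^ (2 * s) * ((lam : ℝ) ^ (2 * s)) ^ n * a n) x i := by
  refine ext_ha (sp_flap (fld_sp hlam ha' i) s) (fld_sp hlam (RS.dis ha' hlam s) i) fun k => ?_
  rw [ha_flap (fld_sp hlam ha' i)]
  have h1 := (ha_fld hlam ha' i k).mul_left (fq k ^ s)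
  have h2 := ha_fld hlam (RS.dis ha' hlam s) i k
  refine h1.unique ?_
  have e : (fun n => fq k ^ s * (a n * ha (fun x => psi lam n x i) k)) = fun n =>
      (2 * Real.pi) ^ (2 * s) * ((lam : ℝ) ^ (2 * s)) ^ n * a n * ha (fun x => psi lam n x i) k := by
    funext n
    have := ha_psi_rpow (lam := lam) n i k s
    linear_combination a n * this
  rw [e]
  exact h2

/-! ### the cascade operator is of Euler type -/

theorem euler_casc (hlam : 2 ≤ lam) (α β : ℝ) : EulerType (casc lam ((lam : ℝ) ^ (5 / 2 : ℝ)) α β) := by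
  have hl : (0 : ℝ) < lam := by
    have : 0 < lam := by omega
    exact_mod_cast this
  have hB : (0 : ℝ) < (lam : ℝ) ^ (5 / 2 : ℝ) := Real.rpow_pos_of_pos hl _
  have hA := admissible hlam α β
  have hfield : ∀ v w, Field v → Field w → Field (casc lam ((lam : ℝ) ^ (5 / 2 : ℝ)) α β v w) := fun v w hv hw => by
    rw [casc_eq]
    exact field_fld hlam ((co_RS hlam hv.sp).sh hB (co_RS hlam hw.sp))
  refine ⟨hfield, fun v w hv hw => hA.symm v w hv.sp hw.sp,
    fun v v' w hv hv' hw => hA.add v v' w hv.sp hv'.sp hw.sp, fun r v w hv hw => hA.smul r v w hv.sp hw.sp,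
    fun v hv => hA.energy v hv.sp, fun j => ⟨6 * (|α| + |β|) * (lam : ℝ) ^ (|(5 / 4 : ℝ)| + |(j + 5 / 4 : ℝ)| + |(-j : ℝ)|),
    fun v w hv hw => ?_⟩⟩
  set c := casc lam ((lam : ℝ) ^ (5 / 2 : ℝ)) α β v w with hc
  have hcF := hfield v w hv hw
  rw [← hc] at hcF
  set z : V → V := fun x i => flap j (fun y => c y i) x with hz
  have hzsp : ∀ i, SP fun x => z x i := fun i => sp_flap (hcF.sp i) j
  have hcz : ∀ p : K3 × Fin 3, cf z p = fq p.1 ^ (j : ℝ) * cf c p := fun p => ha_flap (hcF.sp p.2) j p.1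
  have hzm : ∀ i, ∫ x in cube, z x i = 0 := fun i => mean_of_ha (by
    rw [show ha (fun x => z x i) 0 = cf z (0, i) from rfl, hcz]
    have : cf c ((0 : K3), i) = 0 := ha_zero_of_mean (hcF.mean i)
    rw [this, mul_zero])
  have hmu : ∀ (a : ℝ) (p : K3 × Fin 3), mu p ^ (2 * a) * cf c p = fq p.1 ^ a * cf c p := by
    intro a p
    by_cases hk : p.1 = 0
    · have : cf c p = 0 := by
        have : cf c ((0 : K3), p.2) = 0 := ha_zero_of_mean (hcF.mean p.2)
        rw [show p = (p.1, p.2) from rfl, hk, this]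
      rw [this, mul_zero, mul_zero]
    · show mk p.1 ^ (2 * a) * _ = _
      rw [mk_rpow hk]
  have e1 : ip c z = sob j c ^ 2 := by
    rw [ip_eq hcF.sp hzsp, hcF.sob_eq, nrm_sq wt_mu]
    unfold nsq
    refine tsum_congr fun p => ?_
    rw [hcz]
    have := hmu j p
    linear_combination -(cf c p) * this
  have e2 : sob (-j) z = sob j c := by
    rw [Lions.sob_eq hzsp hzm, hcF.sob_eq]
    unfold nrm nsq
    congr 1
    refine tsum_congr fun p => ?_
    rw [hcz]
    by_cases hk : p.1 = 0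
    · have : cf c p = 0 := by
        have : cf c ((0 : K3), p.2) = 0 := ha_zero_of_mean (hcF.mean p.2)
        rw [show p = (p.1, p.2) from rfl, hk, this]
      rw [this]; ring
    · have h1 : mu p ^ (2 * -(j : ℝ)) = (fq p.1 ^ (j : ℝ))⁻¹ := by
        show mk p.1 ^ (2 * -(j : ℝ)) = _
        rw [mk_rpow hk, Real.rpow_neg (fq_nonneg _)]
      have h2 : mu p ^ (2 * (j : ℝ)) = fq p.1 ^ (j : ℝ) := mk_rpow hk j
      have h3 : fq p.1 ^ (j : ℝ) ≠ 0 := (Real.rpow_pos_of_pos (lt_of_lt_of_le one_pos (one_le_fq hk)) _).ne'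
      rw [h1, h2]
      field_simp
  have h1 := casc_tri hlam α β (a := 5 / 4) (b := j + 5 / 4) (c := -j) (by ring) hv.sp hw.sp hzsp
  rw [← hc, e1, e2] at h1
  set K := 6 * (|α| + |β|) * (lam : ℝ) ^ (|(5 / 4 : ℝ)| + |(j + 5 / 4 : ℝ)| + |(-j : ℝ)|) with hK
  have hK0 : 0 ≤ K := by positivity
  set P := sob (5 / 4) v * sob (j + 5 / 4) w with hP
  have hP0 : 0 ≤ P := mul_nonneg (Real.sqrt_nonneg _) (Real.sqrt_nonneg _)
  have hS0 : 0 ≤ sob j c := Real.sqrt_nonneg _
  have h2 : sob j c ^ 2 ≤ K * (P * sob j c) := (le_abs_self _).trans h1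
  have h3 : sob j c ≤ K * P := by
    rcases hS0.eq_or_lt with h | h
    · rw [← h]; positivity
    · nlinarith
  refine h3.trans (mul_le_mul_of_nonneg_left (le_add_of_nonneg_right ?_) hK0)
  exact mul_nonneg (Real.sqrt_nonneg _) (Real.sqrt_nonneg _)

/-! ### dyadic solutions give solutions -/

theorem up (hlam : 2 ≤ lam) (hB : 0 < B) {X : ℕ → ℝ → ℝ} {T₀ : ℝ}
    (h : ∀ T, 0 ≤ T → T < T₀ → IsSol α β B ((lam : ℝ) ^ (2 * s)) ((2 * Real.pi) ^ (2 * s) * ν) T X ∧ Rapid T X) (θ : ℝ) :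
    Lions.Sol θ s ν (casc lam B α β) T₀ (fun t => fld lam fun n => X n t) (fun _ _ => 0) := by
  have hl1 : 1 ≤ lam := by omega
  have hl : (0 : ℝ) < lam := by exact_mod_cast hl1
  have hD : (0 : ℝ) < (lam : ℝ) ^ (2 * s) := Real.rpow_pos_of_pos hl _
  have hrs : ∀ t ∈ Ico 0 T₀, RS fun n => X n t := by
    intro t ht s hs
    obtain ⟨C, hC⟩ := (h t ht.1 ht.2).2 s hs
    exact ⟨C, fun n => hC n t ⟨ht.1, le_rfl⟩⟩
  refine ⟨?_, contDiffOn_const, fun t ht => field_fld hlam (hrs t ht), fun t _ i x => rfl, fun t ht x i => ?_⟩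
  · -- smoothness
    rintro ⟨t, x⟩ ⟨ht, -⟩
    obtain ⟨T1, h1, h2⟩ := exists_between ht.2
    obtain ⟨T2, h3, h4⟩ := exists_between h2
    have hT1 : 0 < T1 := ht.1.trans_lt h1
    have hT2 : 0 ≤ T2 := (hT1.trans h3).le
    obtain ⟨s1, s2⟩ := h T2 hT2 h4
    have hsm := smooth_clamp hlam (TDl_clamp hB hD hT2 s1 s2) hT1 h3
    have hsm' : ContDiffOn ℝ ∞ (fun z : ℝ × V => fld lam (fun n => X n z.1) z.2) (Icc 0 T1 ×ˢ univ) := by
      refine hsm.congr fun z hz => ?_
      funext i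
      unfold fld
      refine tsum_congr fun n => ?_
      rw [clamp_eq hT2 X n ⟨hz.1.1, hz.1.2.trans h3.le⟩]
    refine (hsm' (t, x) ⟨⟨ht.1, h1.le⟩, mem_univ _⟩).mono_of_mem_nhdsWithin ?_
    have h5 : Ico 0 T₀ ×ˢ (univ : Set V) ∩ (Iio T1 ×ˢ univ) ⊆ Icc 0 T1 ×ˢ univ := by
      rintro z ⟨⟨hz1, -⟩, hz2, -⟩
      exact ⟨⟨hz1.1, hz2.le⟩, mem_univ _⟩
    refine Filter.mem_of_superset ?_ h5
    exact Filter.inter_mem self_mem_nhdsWithin (nhdsWithin_le_nhds
      ((isOpen_Iio.prod isOpen_univ).mem_nhds ⟨h1, mem_univ _⟩))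
  · -- the equation
    have hI : t ∈ Ico 0 T₀ := ⟨ht.1.le, ht.2⟩
    obtain ⟨T1, h1, h2⟩ := exists_between ht.2
    have hT1 : 0 < T1 := ht.1.trans h1
    obtain ⟨s1, s2⟩ := h T1 hT1.le h2
    set f : ℕ → ℝ → ℝ := fun n t => gain α β B (fun k => X k t) n -
      (2 * Real.pi) ^ (2 * s) * ν * ((lam : ℝ) ^ (2 * s)) ^ n * X n t -
      B ^ n * X (n + 1) t * (α * X n t + β * X (n + 1) t) with hf
    have hTD := TDl_clamp hB hD hT1.le s1 s2
    have hfr : RDD fun n t => f n (projIcc 0 T1 hT1.le t) :=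
      (((hTD 0).rhs (α := α) (β := β) (ν := (2 * Real.pi) ^ (2 * s) * ν) hB hD)).rd
    obtain ⟨C, hC0, hC⟩ := hfr.nonneg (s := 2) two_pos
    have hfb : ∀ n, ∀ s ∈ Ioo 0 T1, |f n s| ≤ C * (1 / 2) ^ n := by
      intro n s hs
      have : 2 ^ n * |f n (projIcc 0 T1 hT1.le s)| ≤ C := hC n s
      rw [projIcc_of_mem hT1.le ⟨hs.1.le, hs.2.le⟩] at this
      rw [one_div, inv_pow, ← div_eq_mul_inv, le_div_iff₀ (by positivity)]
      linarith
    have hd : HasDerivAt (fun s => fld lam (fun n => X n s) x i) (∑' n, f n t * psi lam n x i) t := by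
      refine hasDerivAt_tsum_of_isPreconnected (t := Ioo 0 T1) (u := fun n => C * (1 / 2) ^ n)
        (g := fun n s => X n s * psi lam n x i) (g' := fun n s => f n s * psi lam n x i)
        ((summable_geometric_of_lt_one (by norm_num) (by norm_num)).mul_left _) isOpen_Ioo isPreconnected_Ioo
        (fun n s hs => ?_) (fun n s hs => ?_) (y₀ := t) ⟨ht.1, h1⟩
        (fld_summable (hrs t hI).summable_abs x i) ⟨ht.1, h1⟩
      · exact ((s1 n s ⟨hs.1.le, hs.2.le⟩).hasDerivAt (Icc_mem_nhds hs.1 hs.2)).mul_const _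
      · rw [Real.norm_eq_abs, abs_mul]
        exact (mul_le_of_le_one_right (abs_nonneg _) (abs_psi_le n x i)).trans (hfb n s hs)
    have hX := hrs t hI
    have e1 : ∑ j, fld lam (fun n => X n t) x j * pd j (fun y => fld lam (fun n => X n t) y i) x = 0 := by
      have a1 : ∀ j : Fin 3, j ≠ 0 → pd j (fun y => fld lam (fun n => X n t) y i) x = 0 := fun j hj =>
        pd_series hl1 hX hj i x
      have a0 : fld lam (fun n => X n t) x 0 = 0 := by
        unfold fld
        simp [psi_zero]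
      rw [Fin.sum_univ_three, a0, a1 1 (by decide), a1 2 (by decide)]
      ring
    have e2 : flap s (fun y => fld lam (fun n => X n t) y i) x =
        ∑' n, ((2 * Real.pi) ^ (2 * s) * ((lam : ℝ) ^ (2 * s)) ^ n * X n t) * psi lam n x i :=
      congrFun (flap_fld hlam hX s i) x
    have e3 : casc lam B α β (fld lam fun n => X n t) (fld lam fun n => X n t) x i =
        ∑' n, sh α β B (fun n => X n t) (fun n => X n t) n * psi lam n x i := by
      rw [casc_eq, co_fld hlam hX.summable_abs]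
      rfl
    have e4 : pd i (fun _ : V => (0 : ℝ)) x = 0 := by rw [pd_const0]
    rw [hd.deriv, e1, e2, e3, e4, mul_zero, add_zero, add_zero, ← tsum_mul_left]
    have hs1 : Summable fun n => -ν * (((2 * Real.pi) ^ (2 * s) * ((lam : ℝ) ^ (2 * s)) ^ n * X n t) * psi lam n x i) :=
      (fld_summable (RS.dis hX hlam s).summable_abs x i).mul_left (-ν)
    have hs2 : Summable fun n => sh α β B (fun n => X n t) (fun n => X n t) n * psi lam n x i :=
      fld_summable (hX.sh hB hX).summable_abs x i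
    rw [← hs1.tsum_add hs2]
    refine tsum_congr fun n => ?_
    rw [sh_self]
    simp only [hf]
    ring

theorem Sol.mono {C : (V → V) → (V → V) → V → V} {u : ℝ → V → V} {p : ℝ → V → ℝ} (h : Lions.Sol θ s ν C T u p)
    {T' : ℝ} (hT : T' ≤ T) : Lions.Sol θ s ν C T' u p :=
  ⟨h.smooth_u.mono (prod_mono (Ico_subset_Ico_right hT) subset_rfl),
    h.smooth_p.mono (prod_mono (Ico_subset_Ico_right hT) subset_rfl),
    fun t ht => h.field t ⟨ht.1, ht.2.trans_le hT⟩, fun t ht => h.per_p t ⟨ht.1, ht.2.trans_le hT⟩,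
    fun t ht => h.momentum t ⟨ht.1, ht.2.trans_le hT⟩⟩

/-- There is a unique smooth solution with datum `u₀` on `[0, T₀)`, its Sobolev norm of order `5 / 2` is unbounded,
and every smooth solution with this datum, on an interval `[0, T')`, coincides with it and has `T' ≤ T₀`. -/
def BlowsUp (θ s ν : ℝ) (C : (V → V) → (V → V) → V → V) (u₀ : V → V) (T₀ : ℝ) : Prop :=
  0 < T₀ ∧ ∃ (u : ℝ → V → V) (p : ℝ → V → ℝ), Sol θ s ν C T₀ u p ∧ u 0 = u₀ ∧
    (∀ K : ℝ, ∃ t ∈ Ico 0 T₀, K < sob (5 / 2) (u t)) ∧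
    ∀ (T' : ℝ) (v : ℝ → V → V) (q : ℝ → V → ℝ), Sol θ s ν C T' v q → v 0 = u₀ →
      T' ≤ T₀ ∧ ∀ t ∈ Ico 0 T', v t = u t

theorem blowsUp (hlam : 2 ≤ lam) (hν : 0 ≤ ν) {x : ℕ → ℝ} (hx : Fast x) {T₀ : ℝ}
    (hbl : BlowsUpAt α β ((lam : ℝ) ^ (5 / 2 : ℝ)) ((lam : ℝ) ^ (2 * s)) ((2 * Real.pi) ^ (2 * s) * ν) x T₀) (θ : ℝ) :
    BlowsUp θ s ν (casc lam ((lam : ℝ) ^ (5 / 2 : ℝ)) α β) (fld lam x) T₀ := by
  have hl : (0 : ℝ) < lam := by
    have : 0 < lam := by omega
    exact_mod_cast this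
  have hB : (0 : ℝ) < (lam : ℝ) ^ (5 / 2 : ℝ) := Real.rpow_pos_of_pos hl _
  set B : ℝ := (lam : ℝ) ^ (5 / 2 : ℝ) with hBd
  obtain ⟨hT₀, X, hX, hs, hunb⟩ := hbl
  have hup := up hlam hB (fun T h0 h1 => ⟨(hs T h0 h1).1, (hs T h0 h1).2.1⟩) θ
  have hX0 : (fun n => X n 0) = x := funext hX
  refine ⟨hT₀, _, _, hup, ?_, fun K => ?_, fun T' v q hv h0 => ?_⟩
  · show fld lam (fun n => X n 0) = fld lam x
    rw [hX0]
  · obtain ⟨n, t, ht, hlt⟩ := hunb (2 * K)
    refine ⟨t, ht, ?_⟩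
    have h1 := co_le_sob hlam (hup.field t ht).sp n
    have hrs : RS fun n => X n t := by
      intro s hs'
      obtain ⟨C, hC⟩ := (hs t ht.1 ht.2).2.1 s hs'
      exact ⟨C, fun n => hC n t ⟨ht.1, le_rfl⟩⟩
    rw [co_fld hlam hrs.summable_abs] at h1
    linarith
  · have hinv : ∀ j : Fin 3, j ≠ 0 → ∀ (r : ℝ) x', v 0 (x' + Pi.single j r) = v 0 x' := fun j hj r y => by
      rw [h0]
      funext i
      unfold fld
      refine tsum_congr fun n => ?_
      rw [psi_shift n y hj r]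
    have hsh := Sol.shear hν hv hinv
    have hdy := fun {b : ℝ} (hb : b < T') => dyadic hlam hB hv hsh hb
    have hi : ∀ n, co lam (v 0) n = x n := fun n => by
      rw [h0, co_fld hlam (Fast.RS hx).summable_abs]
    have hrap := fun {b : ℝ} (hb : b < T') => co_rapid hlam (fun i => hv.SF i) hb B hB
    -- the coefficients agree
    have hco : ∀ t, 0 ≤ t → t < T' → t < T₀ → ∀ n, co lam (v t) n = X n t := by
      intro t ht1 ht2 ht3 n
      obtain ⟨K, hK⟩ := hrap ht2
      exact (hs t ht1 ht3).2.2.2 (fun n s => co lam (v s) n) (hdy ht2) ⟨K, fun n s hs' => hK n s hs'⟩ hi n t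
        ⟨ht1, le_rfl⟩
    have hT' : T' ≤ T₀ := by
      by_contra hcon
      push Not at hcon
      obtain ⟨K, hK⟩ := hrap hcon
      obtain ⟨n, t, ht, hlt⟩ := hunb K
      rw [← hco t ht.1 (ht.2.trans hcon) ht.2 n] at hlt
      exact absurd (hK n t ⟨ht.1, ht.2.le⟩) (not_le.mpr hlt)
    refine ⟨hT', fun t ht => ?_⟩
    have hup' := Sol.mono hup hT'
    have hcasc : ∀ t ∈ Ico 0 T', casc lam B α β (v t) (v t) =
        casc lam B α β (fld lam fun n => X n t) (fld lam fun n => X n t) := by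
      intro t ht
      have hrs : RS fun n => X n t := by
        intro s hs'
        obtain ⟨C, hC⟩ := (hs t ht.1 (ht.2.trans_le hT')).2.1 s hs'
        exact ⟨C, fun n => hC n t ⟨ht.1, le_rfl⟩⟩
      rw [casc_eq, casc_eq, co_fld hlam hrs.summable_abs,
        show co lam (v t) = fun n => X n t from funext (hco t ht.1 ht.2 (ht.2.trans_le hT'))]
    have s1 : FSol θ s ν T' (fun t => casc lam B α β (v t) (v t)) v q :=
      ⟨hv.smooth_u, hv.smooth_p, fun t ht i x => funext fun l => ((hv.field t ht).sp l).per i x, hv.per_p,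
        fun t ht => (hv.field t ht).div, fun t ht x i => by
        have := hv.momentum t ht x i
        linarith⟩
    have s2 : FSol θ s ν T' (fun t => casc lam B α β (v t) (v t)) (fun t => fld lam fun n => X n t) (fun _ _ => 0) :=
      ⟨hup'.smooth_u, hup'.smooth_p, fun t ht i x => funext fun l => ((hup'.field t ht).sp l).per i x, hup'.per_p,
        fun t ht => (hup'.field t ht).div, fun t ht x i => by
        have := hup'.momentum t ht x i
        rw [← hcasc t ⟨ht.1.le, ht.2⟩] at this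
        linarith⟩
    exact FSol.unique hν s1 s2 (by rw [h0]; show _ = fld lam fun n => X n 0; rw [hX0]) ht

end Pool.Agent.H39.Lions
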