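import Pool.Agent.H39.Lions.Tame

/-!
# Operators of Euler type
-/

open MeasureTheory Set Filter Topology
open scoped ContDiff ENNReal

namespace Pool.Agent.H39.Lions

open H459R3.NS (V K3 Per cube SP pd lap ee fr S N)
open Pool.Agent.H39.PDE (fq sob ip)

/-- Operators of Euler type: symmetric bilinear operators on divergence-free fields which conserve the energy and
obey the Sobolev estimates of the Euler nonlinearity: for every `j ≥ 0`,
`‖C(v, w)‖_j ≤ K (‖v‖_(5/4) ‖w‖_(j + 5/4) + ‖v‖_(j + 5/4) ‖w‖_(5/4))`. -/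
structure EulerType (C : (V → V) → (V → V) → V → V) : Prop where
  field : ∀ v w, Field v → Field w → Field (C v w)
  symm : ∀ v w, Field v → Field w → C v w = C w v
  add : ∀ v v' w, Field v → Field v' → Field w →
    C (fun x i => v x i + v' x i) w = fun x i => C v w x i + C v' w x i
  smul : ∀ (r : ℝ) v w, Field v → Field w → C (fun x i => r * v x i) w = fun x i => r * C v w x i
  energy : ∀ v, Field v → ip (C v v) v = 0
  tame : ∀ j : ℕ, ∃ K : ℝ, ∀ v w, Field v → Field w →
    sob j (C v w) ≤ K * (sob (5 / 4) v * sob (j + 5 / 4) w + sob (j + 5 / 4) v * sob (5 / 4) w)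

theorem cf_add {v w : V → V} (hv : ∀ i, SP fun x => v x i) (hw : ∀ i, SP fun x => w x i) :
    cf (fun x i => v x i + w x i) = fun p => cf v p + cf w p := by
  funext p
  exact ha_add (hv p.2) (hw p.2) p.1

theorem cf_smul (r : ℝ) (v : V → V) : cf (fun x i => r * v x i) = fun p => r * cf v p := by
  funext p
  exact ha_smul r p.1

theorem fd_add {x y : K3 × Fin 3 → ℝ} (hx : RD mu x) (hy : RD mu y) :
    fd (fun p => x p + y p) = fun z i => fd x z i + fd y z i := by
  funext z i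
  unfold fd syn
  rw [← (summable_cas ((rd_comp hx i).summable_abs wt_mk) z).tsum_add
    (summable_cas ((rd_comp hy i).summable_abs wt_mk) z)]
  exact tsum_congr fun k => by ring

theorem fd_smul (r : ℝ) (x : K3 × Fin 3 → ℝ) : fd (fun p => r * x p) = fun z i => r * fd x z i := by
  funext z i
  unfold fd syn
  rw [← tsum_mul_left]
  exact tsum_congr fun k => by ring

theorem Field.sob_eq {v : V → V} (hv : Field v) (a : ℝ) : sob a v = nrm mu a (cf v) := Lions.sob_eq hv.sp hv.mean a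

theorem Field.fd {v : V → V} (hv : Field v) : Lions.fd (cf v) = v := fd_cf hv.sp

/-! ### combinations -/

theorem Bil.comb {ι : Type*} {μ : ι → ℝ} (hμ : Wt μ) {C G : (ι → ℝ) → (ι → ℝ) → ι → ℝ} (hC : Bil μ C) (hG : Bil μ G)
    (r : ℝ) : Bil μ fun x y i => C x y i + r * G x y i := by
  refine ⟨fun x y hx hy => RD.add hμ (hC.rd x y hx hy) ((hG.rd x y hx hy).smul r), fun x x' y hx hx' hy => ?_,
    fun c x y hx hy => ?_, fun x y y' hx hy hy' => ?_, fun c x y hx hy => ?_, fun j => ?_⟩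
  · funext i; rw [hC.add_left x x' y hx hx' hy, hG.add_left x x' y hx hx' hy]; ring
  · funext i; rw [hC.smul_left c x y hx hy, hG.smul_left c x y hx hy]; ring
  · funext i; rw [hC.add_right x y y' hx hy hy', hG.add_right x y y' hx hy hy']; ring
  · funext i; rw [hC.smul_right c x y hx hy, hG.smul_right c x y hx hy]; ring
  · obtain ⟨K, hK0, hK⟩ := hC.tame' j
    obtain ⟨L, hL0, hL⟩ := hG.tame' j
    refine ⟨2 * (K + |r| * L), fun x y hx hy => ?_⟩
    refine (nrm_add hμ (hC.rd x y hx hy) ((hG.rd x y hx hy).smul r) j).trans ?_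
    rw [nrm_smul]
    have h1 := hK x y hx hy
    have h2 := mul_le_mul_of_nonneg_left (hL x y hx hy) (abs_nonneg r)
    calc 2 * (nrm μ j (C x y) + |r| * nrm μ j (G x y)) ≤
        2 * (K * (nrm μ (5 / 4) x * nrm μ (j + 5 / 4) y + nrm μ (j + 5 / 4) x * nrm μ (5 / 4) y) +
        |r| * (L * (nrm μ (5 / 4) x * nrm μ (j + 5 / 4) y + nrm μ (j + 5 / 4) x * nrm μ (5 / 4) y))) := by linarith
      _ = _ := by ring

theorem Bil.pr {G : (K3 × Fin 3 → ℝ) → (K3 × Fin 3 → ℝ) → K3 × Fin 3 → ℝ} (hG : Bil mu G) :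
    Bil mu fun x y => Lions.pr (G x y) := by
  refine ⟨fun x y hx hy => rd_pr (hG.rd x y hx hy), fun x x' y hx hx' hy => ?_,
    fun c x y hx hy => ?_, fun x y y' hx hy hy' => ?_, fun c x y hx hy => ?_, fun j => ?_⟩
  · rw [hG.add_left x x' y hx hx' hy, pr_add]
  · rw [hG.smul_left c x y hx hy, pr_smul]
  · rw [hG.add_right x y y' hx hy hy', pr_add]
  · rw [hG.smul_right c x y hx hy, pr_smul]
  · obtain ⟨K, hK⟩ := hG.tame j
    exact ⟨K, fun x y hx hy => (nrm_pr (hG.rd x y hx hy) j).trans (hK x y hx hy)⟩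

theorem tame_mono {x y x' y' : K3 × Fin 3 → ℝ} {K : ℝ} (hK : 0 ≤ K) {a b : ℝ}
    (h1 : nrm mu a x' ≤ nrm mu a x) (h2 : nrm mu b x' ≤ nrm mu b x)
    (h3 : nrm mu a y' ≤ nrm mu a y) (h4 : nrm mu b y' ≤ nrm mu b y) :
    K * (nrm mu a x' * nrm mu b y' + nrm mu b x' * nrm mu a y') ≤
    K * (nrm mu a x * nrm mu b y + nrm mu b x * nrm mu a y) := by
  refine mul_le_mul_of_nonneg_left (add_le_add ?_ ?_) hK
  · exact mul_le_mul h1 h4 (nrm_nonneg _ _) (nrm_nonneg _ _)
  · exact mul_le_mul h2 h3 (nrm_nonneg _ _) (nrm_nonneg _ _)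

/-- the operator `C` in coordinates -/
noncomputable def opC (C : (V → V) → (V → V) → V → V) (x y : K3 × Fin 3 → ℝ) : K3 × Fin 3 → ℝ :=
  cf (C (fd (pr x)) (fd (pr y)))

theorem opC_bil {C : (V → V) → (V → V) → V → V} (hC : EulerType C) : Bil mu (opC C) := by
  have hsymm : ∀ x y, RD mu x → RD mu y → opC C x y = opC C y x := fun x y hx hy => by
    unfold opC
    rw [hC.symm _ _ (field_fd hx) (field_fd hy)]
  have hadd : ∀ x x' y, RD mu x → RD mu x' → RD mu y →
      opC C (fun p => x p + x' p) y = fun p => opC C x y p + opC C x' y p := by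
    intro x x' y hx hx' hy
    unfold opC
    rw [pr_add, fd_add (rd_pr hx) (rd_pr hx'), hC.add _ _ _ (field_fd hx) (field_fd hx') (field_fd hy),
      cf_add (hC.field _ _ (field_fd hx) (field_fd hy)).sp (hC.field _ _ (field_fd hx') (field_fd hy)).sp]
  have hsmul : ∀ (r : ℝ) x y, RD mu x → RD mu y → opC C (fun p => r * x p) y = fun p => r * opC C x y p := by
    intro r x y hx hy
    unfold opC
    rw [pr_smul, fd_smul, hC.smul _ _ _ (field_fd hx) (field_fd hy), cf_smul]
  refine ⟨fun x y hx hy => rd_cf (hC.field _ _ (field_fd hx) (field_fd hy)).sp, hadd, hsmul,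
    fun x y y' hx hy hy' => ?_, fun c x y hx hy => ?_, fun j => ?_⟩
  · rw [hsymm x _ hx (RD.add wt_mu hy hy'), hadd y y' x hy hy' hx, hsymm y x hy hx, hsymm y' x hy' hx]
  · rw [hsymm x _ hx (hy.smul c), hsmul c y x hy hx, hsymm y x hy hx]
  · obtain ⟨K, hK⟩ := hC.tame j
    refine ⟨|K|, fun x y hx hy => ?_⟩
    have hX := field_fd hx
    have hY := field_fd hy
    have h1 := hK _ _ hX hY
    rw [(hC.field _ _ hX hY).sob_eq, hX.sob_eq, hX.sob_eq, hY.sob_eq, hY.sob_eq, cf_fd (rd_pr hx), cf_fd (rd_pr hy)] at h1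
    refine h1.trans ((mul_le_mul_of_nonneg_right (le_abs_self K) ?_).trans
      (tame_mono (abs_nonneg K) (nrm_pr hx _) (nrm_pr hx _) (nrm_pr hy _) (nrm_pr hy _)))
    exact add_nonneg (mul_nonneg (nrm_nonneg _ _) (nrm_nonneg _ _)) (mul_nonneg (nrm_nonneg _ _) (nrm_nonneg _ _))

theorem cv_add_left (v v' w : V → V) : cv (fun x i => v x i + v' x i) w = fun x i => cv v w x i + cv v' w x i := by
  funext x i
  unfold cv
  rw [← Finset.sum_add_distrib]
  exact Finset.sum_congr rfl fun l _ => by ring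

theorem cv_smul_left (r : ℝ) (v w : V → V) : cv (fun x i => r * v x i) w = fun x i => r * cv v w x i := by
  funext x i
  unfold cv
  rw [Finset.mul_sum]
  exact Finset.sum_congr rfl fun l _ => by ring

theorem pd_add {f g : V → ℝ} (hf : SP f) (hg : SP g) (l : Fin 3) (x : V) :
    pd l (fun y => f y + g y) x = pd l f x + pd l g x := by
  unfold H459R3.NS.pd
  rw [fderiv_fun_add (hf.diff x) (hg.diff x)]
  rfl

theorem pd_smul {f : V → ℝ} (hf : SP f) (r : ℝ) (l : Fin 3) (x : V) :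
    pd l (fun y => r * f y) x = r * pd l f x := by
  unfold H459R3.NS.pd
  rw [fderiv_const_mul (hf.diff x)]
  rfl

theorem cv_add_right (v : V → V) {w w' : V → V} (hw : ∀ i, SP fun x => w x i) (hw' : ∀ i, SP fun x => w' x i) :
    cv v (fun x i => w x i + w' x i) = fun x i => cv v w x i + cv v w' x i := by
  funext x i
  unfold cv
  rw [← Finset.sum_add_distrib]
  refine Finset.sum_congr rfl fun l _ => ?_
  rw [pd_add (hw i) (hw' i)]; ring

theorem cv_smul_right (v : V → V) {w : V → V} (hw : ∀ i, SP fun x => w x i) (r : ℝ) :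
    cv v (fun x i => r * w x i) = fun x i => r * cv v w x i := by
  funext x i
  unfold cv
  rw [Finset.mul_sum]
  refine Finset.sum_congr rfl fun l _ => ?_
  rw [pd_smul (hw i)]; ring

/-- the convection term in coordinates -/
noncomputable def opG (x y : K3 × Fin 3 → ℝ) : K3 × Fin 3 → ℝ := cf (cv (fd (pr x)) (fd (pr y)))

theorem opG_bil : Bil mu opG := by
  have hs : ∀ x, RD mu x → ∀ i, SP fun y => fd (pr x) y i := fun x hx => sp_fd (rd_pr hx)
  refine ⟨fun x y hx hy => rd_cf (sp_cv (hs x hx) (hs y hy)), fun x x' y hx hx' hy => ?_, fun c x y hx hy => ?_,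
    fun x y y' hx hy hy' => ?_, fun c x y hx hy => ?_, fun j => ?_⟩
  · unfold opG
    rw [pr_add, fd_add (rd_pr hx) (rd_pr hx'), cv_add_left, cf_add (sp_cv (hs x hx) (hs y hy)) (sp_cv (hs x' hx') (hs y hy))]
  · unfold opG
    rw [pr_smul, fd_smul, cv_smul_left, cf_smul]
  · unfold opG
    rw [pr_add, fd_add (rd_pr hy) (rd_pr hy'), cv_add_right _ (hs y hy) (hs y' hy'),
      cf_add (sp_cv (hs x hx) (hs y hy)) (sp_cv (hs x hx) (hs y' hy'))]
  · unfold opG
    rw [pr_smul, fd_smul, cv_smul_right _ (hs y hy), cf_smul]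
  · obtain ⟨K, hK0, hK⟩ := cv_tame j
    refine ⟨K, fun x y hx hy => ?_⟩
    have h1 := hK _ _ (hs x hx) (hs y hy)
    rw [cf_fd (rd_pr hx), cf_fd (rd_pr hy)] at h1
    exact h1.trans (tame_mono hK0 (nrm_pr hx _) (nrm_pr hx _) (nrm_pr hy _) (nrm_pr hy _))

/-- the full nonlinearity in coordinates -/
noncomputable def opA (θ : ℝ) (C : (V → V) → (V → V) → V → V) (x y : K3 × Fin 3 → ℝ) : K3 × Fin 3 → ℝ :=
  fun p => opC C x y p + (-θ) * pr (opG x y) p

theorem opA_bil (θ : ℝ) {C : (V → V) → (V → V) → V → V} (hC : EulerType C) : Bil mu (opA θ C) :=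
  Bil.comb wt_mu (opC_bil hC) opG_bil.pr (-θ)

theorem cv_energy {v : V → V} (hv : Field v) : ip v (cv v v) = 0 := by
  have h := H459R3.NS.int_conv (v := fun i x => v x i) hv.sp hv.div
  unfold Pool.Agent.H39.PDE.ip
  rw [integral_finsetSum _ fun i _ => ((hv.sp i).mul (sp_cv hv.sp hv.sp i)).int]
  exact h

/-- energy conservation in coordinates -/
theorem opA_energy (θ : ℝ) {C : (V → V) → (V → V) → V → V} (hC : EulerType C) (x : K3 × Fin 3 → ℝ) (hx : RD mu x) :
    ∑' p, opA θ C x x p * x p = 0 := by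
  have hX := field_fd hx
  have hpx := rd_pr hx
  have hCX := hC.field _ _ hX hX
  have hG := sp_cv hX.sp hX.sp
  have h1 : ∑' p, opC C x x p * x p = 0 := by
    unfold opC
    rw [← hCX.pr_cf, tsum_orth (rd_cf hCX.sp) hx, hCX.pr_cf]
    have h2 := ip_eq hCX.sp hX.sp
    rw [hC.energy _ hX, cf_fd hpx] at h2
    exact h2.symm
  have h2 : ∑' p, pr (opG x x) p * x p = 0 := by
    have hr : RD mu (opG x x) := opG_bil.rd x x hx hx
    rw [tsum_orth hr hx]
    have h3 := tsum_orth hx hr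
    have h4 := ip_eq hX.sp hG
    rw [cv_energy hX, cf_fd hpx] at h4
    have h5 : ∑' p, pr x p * opG x x p = 0 := h4.symm
    rw [h5] at h3
    rw [← tsum_congr fun p => mul_comm (pr x p) (pr (opG x x) p)]
    exact h3.symm
  have s1 := summable_mul ((opC_bil hC).rd x x hx hx) hx
  have s2 := summable_mul (rd_pr (opG_bil.rd x x hx hx)) hx
  have e : ∀ p, opA θ C x x p * x p = opC C x x p * x p + (-θ) * (pr (opG x x) p * x p) := fun p => by
    unfold opA; ring
  simp_rw [e]
  rw [s1.tsum_add (s2.mul_left _), tsum_mul_left, h1, h2]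
  ring

end Pool.Agent.H39.Lions
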