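import Pool.Agent.H39.Lions.Cls

/-!
# Smooth solutions of the partial differential equation
-/

open MeasureTheory Set Filter Topology
open scoped ContDiff ENNReal

namespace Pool.Agent.H39.Lions

open H459R3.NS (V K3 Per cube SP pd lap ee fr S N)
open Pool.Agent.H39.PDE (fq sob ip)

/-- `(u, p)` is a smooth `1`-periodic solution on the time interval `[0, T)` of
`∂ₜ u + θ (u · ∇) u + ∇ p = -ν (-Δ)^s u + C(u, u)`, `div u = 0`, with vanishing mean: `u` and `p` are `C^∞` on
`[0, T) × ℝ³`. -/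
structure Sol (θ s ν : ℝ) (C : (V → V) → (V → V) → V → V) (T : ℝ) (u : ℝ → V → V) (p : ℝ → V → ℝ) : Prop where
  smooth_u : ContDiffOn ℝ ∞ (fun z : ℝ × V => u z.1 z.2) (Ico 0 T ×ˢ univ)
  smooth_p : ContDiffOn ℝ ∞ (fun z : ℝ × V => p z.1 z.2) (Ico 0 T ×ˢ univ)
  field : ∀ t ∈ Ico 0 T, Field (u t)
  per_p : ∀ t ∈ Ico 0 T, Per (p t)
  momentum : ∀ t ∈ Ioo 0 T, ∀ x i,
    deriv (fun τ => u τ x i) t + θ * ∑ j, u t x j * pd j (fun y => u t y i) x + pd i (p t) x
      = -ν * flap s (fun y => u t y i) x + C (u t) (u t) x i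

theorem Tn.comp {n : ℕ} : ∀ {X : ℝ → K3 × Fin 3 → ℝ}, Tn mu n X → ∀ i, Tn mk n fun t k => X t (k, i) := by
  have hr : ∀ {X : ℝ → K3 × Fin 3 → ℝ}, RDt mu X → ∀ i, RDt mk fun t k => X t (k, i) := fun h i m => by
    obtain ⟨B, hB⟩ := h m
    exact ⟨B, fun t k => hB t (k, i)⟩
  induction n with
  | zero => intro X h i; exact ⟨hr h.1 i, fun k => h.2 (k, i)⟩
  | succ n ih =>
    intro X h i
    obtain ⟨h1, h2, X', h3, h4⟩ := h
    exact ⟨hr h1 i, fun k => h2 (k, i), fun t k => X' t (k, i), fun k t ht => h3 (k, i) t ht, ih h4 i⟩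

theorem Tn.neg {n : ℕ} : ∀ {h : ℝ → K3 → ℝ}, Tn mk n h → Tn mk n fun t k => h t (-k) := by
  have hr : ∀ {h : ℝ → K3 → ℝ}, RDt mk h → RDt mk fun t k => h t (-k) := fun h m => by
    obtain ⟨B, hB⟩ := h m
    exact ⟨B, fun t k => by have := hB t (-k); rwa [mk_neg] at this⟩
  induction n with
  | zero => intro h hh; exact ⟨hr hh.1, fun k => hh.2 (-k)⟩
  | succ n ih =>
    intro h hh
    obtain ⟨h1, h2, h', h3, h4⟩ := hh
    exact ⟨hr h1, fun k => h2 (-k), fun t k => h' t (-k), fun k t ht => h3 (-k) t ht, ih h4⟩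

/-- the factor of the pressure -/
noncomputable def pf (j : Fin 3) (k : K3) : ℝ := k j / (2 * Real.pi * ∑ l, (k l : ℝ) ^ 2)

theorem abs_pf_le (j : Fin 3) (k : K3) : |pf j k| ≤ 1 * mk k ^ 0 := by
  rw [pow_zero, mul_one]
  unfold pf
  by_cases hk : k = 0
  · subst hk; simp
  · have h := one_le_sum hk
    have hpi := Real.pi_gt_three
    have h2 : (k j : ℝ) ^ 2 ≤ ∑ l, (k l : ℝ) ^ 2 :=
      Finset.single_le_sum (f := fun l => (k l : ℝ) ^ 2) (fun l _ => sq_nonneg _) (Finset.mem_univ j)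
    have h3 : |(k j : ℝ)| ≤ ∑ l, (k l : ℝ) ^ 2 := by
      have h4 : |(k j : ℝ)| ≤ (k j : ℝ) ^ 2 := by
        have h5 : |k j| ≤ (k j) ^ 2 := by
          rcases eq_or_ne (k j) 0 with h0 | h0
          · rw [h0]; simp
          · have := Int.one_le_abs h0
            nlinarith [sq_abs (k j)]
        have h6 : ((|k j| : ℤ) : ℝ) ≤ (((k j) ^ 2 : ℤ) : ℝ) := by exact_mod_cast h5
        push_cast at h6
        exact h6
      exact h4.trans h2
    have hpos : 0 < 2 * Real.pi * ∑ l, (k l : ℝ) ^ 2 := by positivity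
    rw [abs_div, abs_of_pos hpos, div_le_one hpos]
    nlinarith

/-- the coefficients of the pressure of the convection term -/
noncomputable def pq (g : K3 × Fin 3 → ℝ) (k : K3) : ℝ := pf 0 k * g (-k, 0) + pf 1 k * g (-k, 1) + pf 2 k * g (-k, 2)

theorem pq_Tn {n : ℕ} {g : ℝ → K3 × Fin 3 → ℝ} (hg : Tn mu n g) : Tn mk n fun t => pq (g t) :=
  Tn.add wt_mk (Tn.add wt_mk (Tn.fac wt_mk (abs_pf_le 0) (hg.comp 0).neg)
    (Tn.fac wt_mk (abs_pf_le 1) (hg.comp 1).neg)) (Tn.fac wt_mk (abs_pf_le 2) (hg.comp 2).neg)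

/-- the gradient part -/
theorem grad_pq (g : K3 × Fin 3 → ℝ) (h0 : ∀ i, g (0, i) = 0) (k : K3) (i : Fin 3) :
    g (k, i) - pr g (k, i) = 2 * Real.pi * k i * (-pq g (-k)) := by
  by_cases hk : k = 0
  · subst hk
    rw [pr_zero, h0]
    simp
  · have h := sum_sq_pos hk
    rw [pr_ne g hk]
    unfold pq pf
    simp only [neg_neg, Pi.neg_apply, Int.cast_neg, neg_sq]
    simp only [Fin.sum_univ_three] at h ⊢
    have hpi := Real.pi_pos
    field_simp
    ring

theorem mean_cv {v w : V → V} (hv : Field v) (hw : ∀ i, SP fun x => w x i) (i : Fin 3) :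
    ∫ x in cube, cv v w x i = 0 := by
  unfold cv
  rw [integral_finsetSum _ fun l _ => ((hv.sp l).mul ((hw i).pd l)).int]
  have h1 : ∀ l, ∫ x in cube, v x l * pd l (fun y => w y i) x = -∫ x in cube, pd l (fun y => v y l) x * w x i := by
    intro l
    have := H459R3.NS.ibp (hv.sp l) (hw i) l
    linarith
  simp_rw [h1]
  rw [Finset.sum_neg_distrib, ← integral_finsetSum _ fun l _ => (((hv.sp l).pd l).mul (hw i)).int]
  have h2 : ∀ x, ∑ l, pd l (fun y => v y l) x * w x i = 0 := fun x => by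
    rw [← Finset.sum_mul, hv.div, zero_mul]
  simp_rw [h2]
  simp

theorem const_of_deriv {f : ℝ → ℝ} {T : ℝ} (hT : 0 ≤ T) (hc : ContinuousOn f (Icc 0 T))
    (hd : ∀ t ∈ Ioo 0 T, HasDerivAt f 0 t) : f T = f 0 := by
  rcases hT.eq_or_lt with h | h
  · rw [← h]
  · obtain ⟨c, -, hc'⟩ := exists_hasDerivAt_eq_slope f (fun _ => 0) h hc hd
    rw [eq_comm, div_eq_zero_iff] at hc'
    rcases hc' with h1 | h1
    · linarith
    · linarith

theorem pr_deriv {X : ℝ → K3 × Fin 3 → ℝ} {X' : K3 × Fin 3 → ℝ} {t : ℝ}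
    (h : ∀ p, HasDerivAt (fun t => X t p) (X' p) t) (p : K3 × Fin 3) :
    HasDerivAt (fun t => pr (X t) p) (pr X' p) t := by
  obtain ⟨k, i⟩ := p
  by_cases hk : k = 0
  · subst hk
    simp only [pr_zero]
    exact hasDerivAt_const _ _
  · simp only [pr_ne _ hk]
    exact (h (k, i)).sub (((HasDerivAt.fun_sum fun j _ => (h (k, j)).const_mul (k j : ℝ)).div_const _).const_mul _)

theorem pr_cont {X : ℝ → K3 × Fin 3 → ℝ} (h : ∀ p, Continuous fun t => X t p) (p : K3 × Fin 3) :
    Continuous fun t => pr (X t) p := by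
  obtain ⟨k, i⟩ := p
  by_cases hk : k = 0
  · subst hk
    simp only [pr_zero]
    exact continuous_const
  · simp only [pr_ne _ hk]
    exact (h (k, i)).sub (continuous_const.mul ((continuous_finsetSum _ fun j _ =>
      continuous_const.mul (h (k, j))).div_const _))

theorem pr_mult (m : K3 → ℝ) (x : K3 × Fin 3 → ℝ) : pr (fun p => m p.1 * x p) = fun p => m p.1 * pr x p := by
  funext p
  obtain ⟨k, i⟩ := p
  by_cases hk : k = 0
  · subst hk
    simp [pr_zero]
  · simp only [pr_ne _ hk, Fin.sum_univ_three]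
    ring

theorem pr_opA (θ : ℝ) {C : (V → V) → (V → V) → V → V} (hC : EulerType C) {x : K3 × Fin 3 → ℝ} (hx : RD mu x) :
    pr (opA θ C x x) = opA θ C x x := by
  have h1 : pr (opC C x x) = opC C x x := (hC.field _ _ (field_fd hx) (field_fd hx)).pr_cf
  have h2 := pr_add (opC C x x) (fun p => (-θ) * pr (opG x x) p)
  have h3 := pr_smul (-θ) (pr (opG x x))
  unfold opA
  rw [h2, h1, h3, pr_pr]

/-- **Global smooth solutions for `s ≥ 5 / 4`.** -/
theorem exists_sol (θ : ℝ) {C : (V → V) → (V → V) → V → V} (hC : EulerType C) {s ν : ℝ} (hs : 5 / 4 ≤ s) (hν : 0 < ν)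
    {u₀ : V → V} (h0 : Field u₀) : ∃ (u : ℝ → V → V) (p : ℝ → V → ℝ), u 0 = u₀ ∧ ∀ T, Sol θ s ν C T u p := by
  obtain ⟨X, hX0, hXT, hXd⟩ := exists_smooth wt_mu (opA_bil θ hC) (opA_energy θ hC) hν hs (rd_cf h0.sp)
  have hXr : ∀ t, RD mu (X t) := fun t => (hXT 0).1.at t
  -- the solution stays in the range of the projection
  have hpr : ∀ t, 0 ≤ t → pr (X t) = X t := by
    intro t ht
    funext p
    set m : ℝ := ν * mu p ^ (2 * s) with hm
    set f : ℝ → ℝ := fun τ => Real.exp (m * τ) * (X τ p - pr (X τ) p) with hf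
    have hc : Continuous f := (by fun_prop : Continuous fun τ => Real.exp (m * τ)).mul
      (((hXT 0).2 p).sub (pr_cont (hXT 0).2 p))
    have hd : ∀ τ ∈ Ioo 0 t, HasDerivAt f 0 τ := by
      intro τ hτ
      have h1 : ∀ p, HasDerivAt (fun s => X s p) (-(ν * mu p ^ (2 * s)) * X τ p + opA θ C (X τ) (X τ) p) τ :=
        hXd τ hτ.1
      have h2 := pr_deriv h1 p
      have e1 : pr (fun p => -(ν * mu p ^ (2 * s)) * X τ p + opA θ C (X τ) (X τ) p) p =
          -m * pr (X τ) p + opA θ C (X τ) (X τ) p := by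
        have h3 := pr_add (fun p => -(ν * mk p.1 ^ (2 * s)) * X τ p) (opA θ C (X τ) (X τ))
        have h4 := pr_mult (fun k => -(ν * mk k ^ (2 * s))) (X τ)
        rw [h4, pr_opA θ hC (hXr τ)] at h3
        exact congrFun h3 p
      rw [e1] at h2
      have h5 : HasDerivAt (fun τ => Real.exp (m * τ)) (Real.exp (m * τ) * m) τ := by
        have := ((hasDerivAt_id τ).const_mul m).exp
        simpa using this
      have h9 : HasDerivAt (fun s => X s p - pr (X s) p) (-(ν * mu p ^ (2 * s)) * X τ p +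
        opA θ C (X τ) (X τ) p - (-m * pr (X τ) p + opA θ C (X τ) (X τ) p)) τ := (h1 p).sub h2
      refine (h5.mul h9).congr_deriv ?_
      simp only [hm]
      ring
    have h6 := const_of_deriv ht hc.continuousOn hd
    have h7 : f 0 = 0 := by
      simp only [hf, hX0, h0.pr_cf, sub_self, mul_zero]
    rw [h7] at h6
    have h8 := (mul_eq_zero.1 h6).resolve_left (Real.exp_pos _).ne'
    linarith
  set g : ℝ → K3 × Fin 3 → ℝ := fun t => opG (X t) (X t) with hg
  have hgT : ∀ n, Tn mu n g := fun n => (hXT n).bil wt_mu opG_bil (hXT n)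
  set π : ℝ → K3 → ℝ := fun t k => (-θ) * pq (g t) k with hπ
  have hπT : ∀ n, Tn mk n π := fun n => Tn.fac wt_mk (p := fun _ => -θ) (A := |θ|) (r := 0)
    (fun k => by rw [pow_zero, mul_one, abs_neg]) (pq_Tn (hgT n))
  refine ⟨fun t => fd (X t), fun t => syn (π t), ?_, fun T => ⟨?_, ?_, ?_, fun t _ => syn_per _, ?_⟩⟩
  · show fd (X 0) = u₀
    rw [hX0, h0.fd]
  · rw [contDiffOn_pi]
    intro i
    exact (smooth_syn fun n => (hXT n).comp i).mono (prod_mono (fun t ht => ht.1) subset_rfl)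
  · exact (smooth_syn hπT).mono (prod_mono (fun t ht => ht.1) subset_rfl)
  · intro t ht
    exact field_of_pr (hXr t) (hpr t ht.1)
  · intro t ht x i
    have hF : Field (fd (X t)) := field_of_pr (hXr t) (hpr t ht.1.le)
    obtain ⟨h1, h2, X', h3, h4⟩ := hXT 1
    have hX'r : ∀ t, RD mu (X' t) := fun t => h4.1.at t
    have hdt : deriv (fun τ => fd (X τ) x i) t = fd (X' t) x i :=
      (syn_deriv (h := fun t k => X t (k, i)) (h' := fun t k => X' t (k, i)) ((hXT 0).comp i).1 (Tn.comp h4 i).1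
        (fun k t ht => h3 (k, i) t ht) ht.1 x).deriv
    have hX' : ∀ p, X' t p = -(ν * mu p ^ (2 * s)) * X t p + opA θ C (X t) (X t) p := fun p =>
      (h3 p t ht.1).unique (hXd t ht.1 p)
    rw [hdt]
    -- compare the coefficients
    have hsp := hF.sp
    have hcv := sp_cv hF.sp hF.sp
    have hCu := hC.field _ _ hF hF
    have hps : SP (syn (π t)) := sp_syn ((hπT 0).1.at t)
    have key : (fun x => fd (X' t) x i + θ * cv (fd (X t)) (fd (X t)) x i + pd i (syn (π t)) x) =
        fun x => -ν * flap s (fun y => fd (X t) y i) x + C (fd (X t)) (fd (X t)) x i := by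
      have q1 := sp_fd (hX'r t) i
      have q2 := SP.smul (hcv i) θ
      have q3 := hps.pd i
      have q4 := SP.smul (sp_flap (hsp i) s) (-ν)
      refine ext_ha ((q1.add q2).add q3) (q4.add (hCu.sp i)) fun k => ?_
      rw [ha_add (q1.add q2) q3, ha_add q1 q2, ha_add q4 (hCu.sp i), ha_smul, ha_smul, ha_pd hps, ha_flap (hsp i)]
      have a1 : ha (fun x => fd (X' t) x i) k = X' t (k, i) := congrFun (cf_fd (hX'r t)) (k, i)
      have a2 : ha (fun x => fd (X t) x i) k = X t (k, i) := congrFun (cf_fd (hXr t)) (k, i)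
      have a3 : ha (fun x => cv (fd (X t)) (fd (X t)) x i) k = g t (k, i) := by
        simp only [hg, opG]
        rw [hpr t ht.1.le]
        rfl
      have a4 : ha (fun x => C (fd (X t)) (fd (X t)) x i) k = opC C (X t) (X t) (k, i) := by
        unfold opC
        rw [hpr t ht.1.le]
        rfl
      have a5 : ha (syn (π t)) (-k) = π t (-k) := ha_syn (((hπT 0).1.at t).summable_abs wt_mk) (-k)
      have a6 : ∀ i, g t (0, i) = 0 := by
        intro i
        simp only [hg, opG]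
        rw [hpr t ht.1.le]
        exact ha_zero_of_mean (mean_cv hF hF.sp i)
      have a7 := grad_pq (g t) a6 k i
      rw [a1, a2, a3, a4, a5, hX']
      have a8 : mu (k, i) ^ (2 * s) * X t (k, i) = fq k ^ s * X t (k, i) := by
        by_cases hk : k = 0
        · subst hk
          have : X t (0, i) = 0 := by rw [← hpr t ht.1.le, pr_zero]
          rw [this, mul_zero, mul_zero]
        · show mk k ^ (2 * s) * _ = _
          rw [mk_rpow hk]
      simp only [opA, hπ]
      linear_combination (-ν) * a8 + θ * a7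
    have := congrFun key x
    show fd (X' t) x i + θ * cv (fd (X t)) (fd (X t)) x i + pd i (syn (π t)) x = _
    exact this

end Pool.Agent.H39.Lions
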