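import Pool.Agent.H39.Lions.Blow

/-!
# The threshold
-/

open MeasureTheory Set Filter Topology
open scoped ContDiff ENNReal

namespace Pool.Agent.H39.Lions

open H459R3.NS (V K3 Per cube SP pd lap ee fr S N)
open Pool.Agent.H39.PDE
open Pool.Agent.H42.Flag (Fast BlowsUpAt)
open Pool.Agent.H42.Flag2 (data data_fast LargeMultiplesBlowUp)

variable {θ s ν T : ℝ} {lam : ℕ} {α β : ℝ}

theorem fld_mul (A : ℝ) (a : ℕ → ℝ) : fld lam (fun n => A * a n) = fun x i => A * fld lam a x i := by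
  funext x i
  unfold fld
  rw [← tsum_mul_left]
  exact tsum_congr fun n => by ring

theorem large (hlam : 2 ≤ lam) (hν : 0 ≤ ν) {a b c : ℝ}
    (h : LargeMultiplesBlowUp lam s ((2 * Real.pi) ^ (2 * s) * ν) α β (data a b c)) (hT : 0 < T) :
    ∃ A₀ : ℝ, ∀ A, A₀ ≤ A → ∀ θ : ℝ, ∃ T₀, T₀ ≤ T ∧
      BlowsUp θ s ν (casc lam ((lam : ℝ) ^ (5 / 2 : ℝ)) α β) (fun x i => A * fld lam (data a b c) x i) T₀ := by
  obtain ⟨A₀, hA₀⟩ := h T hT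
  refine ⟨A₀, fun A hA θ => ?_⟩
  obtain ⟨-, T₀, hT₀, hbl⟩ := hA₀ A hA
  refine ⟨T₀, hT₀, ?_⟩
  rw [← fld_mul]
  exact blowsUp hlam hν (data_fast A a b c) hbl θ

theorem small {ε : ℝ} (hε : 0 < ε) (hlam : 2 ≤ lam) (h : 6 * (|α| + |β|) ≤ ε) {a b c : ℝ} (habc : a + b + c = 5 / 2)
    {v w z : V → V} (hv : Field v) (hw : Field w) (hz : Field z) :
    |ip (casc lam ((lam : ℝ) ^ (5 / 2 : ℝ)) α β v w) z| ≤
      ε * (lam : ℝ) ^ (|a| + |b| + |c|) * (sob a v * sob b w * sob c z) := by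
  refine (casc_tri hlam α β habc hv.sp hw.sp hz.sp).trans ?_
  have h1 : (0 : ℝ) ≤ (lam : ℝ) ^ (|a| + |b| + |c|) := Real.rpow_nonneg (Nat.cast_nonneg _) _
  have h2 : 0 ≤ sob a v * sob b w * sob c z :=
    mul_nonneg (mul_nonneg (Real.sqrt_nonneg _) (Real.sqrt_nonneg _)) (Real.sqrt_nonneg _)
  exact mul_le_mul_of_nonneg_right (mul_le_mul_of_nonneg_right h h1) h2

theorem data_field (hlam : 2 ≤ lam) (a b c : ℝ) : Field (fld lam (data a b c)) := by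
  have h := data_fast 1 a b c
  simp only [one_mul] at h
  exact field_fld hlam (Fast.RS h)

theorem threshold (s : ℝ) (hs0 : 0 ≤ s) (hs : s < 5 / 4) : ∃ L : ℕ, 2 ≤ L ∧ (s ≤ 26 / 25 → L = 2) ∧
    ∀ ε : ℝ, 0 < ε → ∃ C : (V → V) → (V → V) → V → V, EulerType C ∧
      (∀ a b c : ℝ, a + b + c = 5 / 2 → ∀ v w z, Field v → Field w → Field z →
        |ip (C v w) z| ≤ ε * (L : ℝ) ^ (|a| + |b| + |c|) * (sob a v * sob b w * sob c z)) ∧
      ∃ u₁ : V → V, Field u₁ ∧ ∀ ν : ℝ, 0 ≤ ν → ∀ T : ℝ, 0 < T → ∃ A₀ : ℝ, ∀ A, A₀ ≤ A → ∀ θ : ℝ, ∃ T₀, T₀ ≤ T ∧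
        BlowsUp θ s ν C (fun x i => A * u₁ x i) T₀ := by
  have hν' : ∀ ν : ℝ, 0 ≤ ν → 0 ≤ (2 * Real.pi) ^ (2 * s) * ν := fun ν hν =>
    mul_nonneg (Real.rpow_nonneg (by positivity) _) hν
  by_cases h : s ≤ 26 / 25
  · refine ⟨2, le_rfl, fun _ => rfl, fun ε hε => ?_⟩
    have hβ : 0 < ε / 12 := by positivity
    have hα : 0 < ε / 12 / 2150 := by positivity
    refine ⟨casc 2 (((2 : ℕ) : ℝ) ^ (5 / 2 : ℝ)) (ε / 12 / 2150) (ε / 12), euler_casc le_rfl _ _,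
      fun a b c habc v w z hv hw hz => small hε le_rfl ?_ habc hv hw hz,
      _, data_field le_rfl 0 1 (2 ^ (-(5 / 2) : ℝ)), fun ν hν T hT => large le_rfl hν ?_ hT⟩
    · rw [abs_of_pos hα, abs_of_pos hβ]
      linarith
    · have := Pool.Agent.H42.Flag2.ratioTwo (s := s) (ν := (2 * Real.pi) ^ (2 * s) * ν) (α := ε / 12 / 2150)
        hs0 h (hν' ν hν) hβ (by linarith) (by linarith)
      rwa [Nat.cast_ofNat]
  · obtain ⟨l₀, hl₀⟩ := Pool.Agent.H42.Flag.subLions hs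
    obtain ⟨L, hL⟩ := exists_nat_ge l₀
    obtain ⟨h16, h7⟩ := hl₀ L hL
    have hL2 : 2 ≤ L := by
      have : (2 : ℝ) ≤ L := by linarith
      exact_mod_cast this
    refine ⟨L, hL2, fun h' => absurd h' h, fun ε hε => ?_⟩
    set e : ℝ := Real.exp (-((L : ℝ) ^ (5 / 2 : ℝ))) with he
    have he0 : 0 < e := Real.exp_pos _
    have hB0 : 0 ≤ (L : ℝ) ^ (5 / 2 : ℝ) := Real.rpow_nonneg (Nat.cast_nonneg _) _
    have he1 : e ≤ 1 := Real.exp_le_one_iff.2 (by linarith)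
    have hβ : 0 < ε / 12 := by positivity
    have hα : 0 < e * (ε / 12) := by positivity
    refine ⟨casc L ((L : ℝ) ^ (5 / 2 : ℝ)) (e * (ε / 12)) (ε / 12), euler_casc hL2 _ _,
      fun a b c habc v w z hv hw hz => small hε hL2 ?_ habc hv hw hz,
      _, data_field hL2 1 ((L : ℝ) ^ (-5 : ℝ)) 0, fun ν hν T hT => large hL2 hν ?_ hT⟩
    · rw [abs_of_pos hα, abs_of_pos hβ]
      nlinarith
    · refine Pool.Agent.H42.Flag2.ratioLarge h16 h7 (hν' ν hν) hβ ?_ le_rfl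
      exact mul_le_mul_of_nonneg_right (Real.exp_le_exp.2 (by linarith)) hβ.le

theorem global {C : (V → V) → (V → V) → V → V} (hC : EulerType C) (θ : ℝ) (hs : 5 / 4 ≤ s) (hν : 0 < ν)
    {u₀ : V → V} (h0 : Field u₀) : ∃ (u : ℝ → V → V) (p : ℝ → V → ℝ), u 0 = u₀ ∧ (∀ T, Sol θ s ν C T u p) ∧
      ∀ (T : ℝ) (v : ℝ → V → V) (q : ℝ → V → ℝ), Sol θ s ν C T v q → v 0 = u₀ → ∀ t ∈ Ico 0 T, v t = u t := by
  obtain ⟨u, p, h1, h2⟩ := exists_sol θ hC hs hν h0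
  refine ⟨u, p, h1, h2, fun T v q hv hv0 t ht => ?_⟩
  exact Sol.unique hC hν hs hv (h2 T) (by rw [hv0, h1]) ht.1 ht.2 ht.2

end Pool.Agent.H39.Lions
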