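import Pool.Agent.H39.Lions.Hart

/-!
# Vector fields, the Leray projection, fractional powers of the Laplacian
-/

open MeasureTheory Set Filter Topology
open scoped ContDiff

namespace Pool.Agent.H39.Lions

open H459R3.NS (V K3 Per cube SP pd lap ee fr S N)
open Pool.Agent.H39.PDE (fq sob ip)

/-- smooth periodic vector fields on `ℝ³` with vanishing divergence and vanishing mean -/
structure Field (v : V → V) : Prop where
  sp : ∀ i, SP fun x => v x i
  div : ∀ x, ∑ i, pd i (fun y => v y i) x = 0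
  mean : ∀ i, ∫ x in cube, v x i = 0

/-- the fractional power `(-Δ)^s`, with Fourier multiplier `|2 π k| ^ (2 s)` -/
noncomputable def flap (s : ℝ) (f : V → ℝ) (x : V) : ℝ :=
  (∑' k : K3, ((fq k ^ s : ℝ) : ℂ) * fr f k * ee k x).re

/-- Hartley coefficients of vector fields -/
noncomputable def cf (v : V → V) (p : K3 × Fin 3) : ℝ := ha (fun y => v y p.2) p.1

/-- the vector field with given Hartley coefficients -/
noncomputable def fd (x : K3 × Fin 3 → ℝ) (y : V) : V := fun i => syn (fun k => x (k, i)) y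

/-- the Leray projection -/
noncomputable def pr (x : K3 × Fin 3 → ℝ) (p : K3 × Fin 3) : ℝ :=
  if p.1 = 0 then 0 else x p - p.1 p.2 * ((∑ j, (p.1 j : ℝ) * x (p.1, j)) / ∑ j, (p.1 j : ℝ) ^ 2)

theorem rd_comp {x : K3 × Fin 3 → ℝ} (hx : RD mu x) (i : Fin 3) : RD mk fun k => x (k, i) := fun m => by
  obtain ⟨B, hB⟩ := hx m
  exact ⟨B, fun k => hB (k, i)⟩

theorem rd_of_comp {x : K3 × Fin 3 → ℝ} (hx : ∀ i, RD mk fun k => x (k, i)) : RD mu x := fun m => by
  choose B hB using fun i => hx i m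
  refine ⟨∑ i, |B i|, fun p => (hB p.2 p.1).trans ((le_abs_self _).trans ?_)⟩
  exact Finset.single_le_sum (f := fun i => |B i|) (fun i _ => abs_nonneg _) (Finset.mem_univ p.2)

theorem rd_cf {v : V → V} (hv : ∀ i, SP fun x => v x i) : RD mu (cf v) := rd_of_comp fun i => rd_ha (hv i)

theorem fd_cf {v : V → V} (hv : ∀ i, SP fun x => v x i) : fd (cf v) = v := by
  funext x i
  exact syn_ha (hv i) x

theorem cf_fd {x : K3 × Fin 3 → ℝ} (hx : RD mu x) : cf (fd x) = x := by
  funext p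
  exact ha_syn ((rd_comp hx p.2).summable_abs wt_mk) p.1

theorem sp_fd {x : K3 × Fin 3 → ℝ} (hx : RD mu x) (i : Fin 3) : SP fun y => fd x y i := sp_syn (rd_comp hx i)

/-! ### the projection -/

theorem sum_sq_pos {k : K3} (hk : k ≠ 0) : 0 < ∑ j, (k j : ℝ) ^ 2 := lt_of_lt_of_le one_pos (one_le_sum hk)

theorem pr_zero (x : K3 × Fin 3 → ℝ) (i : Fin 3) : pr x (0, i) = 0 := if_pos rfl

theorem pr_ne (x : K3 × Fin 3 → ℝ) {k : K3} (hk : k ≠ 0) (i : Fin 3) :
    pr x (k, i) = x (k, i) - k i * ((∑ j, (k j : ℝ) * x (k, j)) / ∑ j, (k j : ℝ) ^ 2) := if_neg hk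

theorem pr_div (x : K3 × Fin 3 → ℝ) (k : K3) : ∑ i, (k i : ℝ) * pr x (k, i) = 0 := by
  by_cases hk : k = 0
  · subst hk
    simp [pr_zero]
  · simp only [pr_ne x hk]
    have h := sum_sq_pos hk
    simp only [Fin.sum_univ_three] at h ⊢
    field_simp
    ring

/-- characterization of the range -/
theorem pr_eq {x : K3 × Fin 3 → ℝ} (h0 : ∀ i, x (0, i) = 0) (h : ∀ k, ∑ i, (k i : ℝ) * x (k, i) = 0) : pr x = x := by
  funext p
  obtain ⟨k, i⟩ := p
  by_cases hk : k = 0
  · subst hk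
    rw [pr_zero, h0]
  · rw [pr_ne x hk, h k]
    simp

theorem pr_pr (x : K3 × Fin 3 → ℝ) : pr (pr x) = pr x := pr_eq (pr_zero x) (pr_div x)

theorem pr_add (x y : K3 × Fin 3 → ℝ) : pr (fun p => x p + y p) = fun p => pr x p + pr y p := by
  funext p
  obtain ⟨k, i⟩ := p
  by_cases hk : k = 0
  · subst hk
    simp [pr_zero]
  · simp only [pr_ne _ hk, Fin.sum_univ_three]
    ring

theorem pr_smul (r : ℝ) (x : K3 × Fin 3 → ℝ) : pr (fun p => r * x p) = fun p => r * pr x p := by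
  funext p
  obtain ⟨k, i⟩ := p
  by_cases hk : k = 0
  · subst hk
    simp [pr_zero]
  · simp only [pr_ne _ hk, Fin.sum_univ_three]
    ring

theorem pr_gr (c : K3 → ℝ) : pr (fun p => p.1 p.2 * c p.1) = fun _ => 0 := by
  funext p
  obtain ⟨k, i⟩ := p
  by_cases hk : k = 0
  · subst hk
    simp [pr_zero]
  · have h := sum_sq_pos hk
    simp only [pr_ne _ hk]
    simp only [Fin.sum_univ_three] at h ⊢
    field_simp
    ring

theorem pr_sum_sq (x : K3 × Fin 3 → ℝ) (k : K3) : ∑ i, pr x (k, i) ^ 2 ≤ ∑ i, x (k, i) ^ 2 := by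
  by_cases hk : k = 0
  · subst hk
    simp only [pr_zero]
    exact Finset.sum_le_sum fun i _ => by simp; positivity
  · have h := sum_sq_pos hk
    have e : ∑ i, x (k, i) ^ 2 - ∑ i, pr x (k, i) ^ 2 = (∑ j, (k j : ℝ) * x (k, j)) ^ 2 / ∑ j, (k j : ℝ) ^ 2 := by
      simp only [pr_ne x hk]
      simp only [Fin.sum_univ_three] at h ⊢
      field_simp
      ring
    have : 0 ≤ (∑ j, (k j : ℝ) * x (k, j)) ^ 2 / ∑ j, (k j : ℝ) ^ 2 := by positivity
    linarith

theorem pr_orth (x y : K3 × Fin 3 → ℝ) (k : K3) : ∑ i, pr x (k, i) * y (k, i) = ∑ i, pr x (k, i) * pr y (k, i) := by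
  by_cases hk : k = 0
  · subst hk
    simp [pr_zero]
  · have h := pr_div x k
    simp only [pr_ne y hk]
    generalize (∑ j, (k j : ℝ) * y (k, j)) / ∑ j, (k j : ℝ) ^ 2 = c
    simp only [Fin.sum_univ_three] at h ⊢
    linear_combination c * h

theorem rd_pr {x : K3 × Fin 3 → ℝ} (hx : RD mu x) : RD mu (pr x) := by
  intro m
  obtain ⟨B, hB⟩ := hx m
  refine ⟨2 * |B|, fun p => ?_⟩
  obtain ⟨k, i⟩ := p
  have hm : 0 < mk k ^ m := pow_pos (mk_pos k) m
  have h1 : pr x (k, i) ^ 2 ≤ ∑ i, x (k, i) ^ 2 :=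
    (Finset.single_le_sum (f := fun i => pr x (k, i) ^ 2) (fun i _ => sq_nonneg _) (Finset.mem_univ i)).trans
      (pr_sum_sq x k)
  have h2 : ∀ j, |x (k, j)| ≤ |B| / mk k ^ m := fun j => by
    rw [le_div_iff₀ hm, mul_comm]
    exact (hB (k, j)).trans (le_abs_self _)
  have h3 : ∑ i, x (k, i) ^ 2 ≤ (2 * (|B| / mk k ^ m)) ^ 2 := by
    have h4 : ∀ i ∈ (Finset.univ : Finset (Fin 3)), x (k, i) ^ 2 ≤ (|B| / mk k ^ m) ^ 2 := fun i _ => by
      rw [← sq_abs]
      exact pow_le_pow_left₀ (abs_nonneg _) (h2 i) 2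
    refine (Finset.sum_le_sum h4).trans ?_
    simp
    nlinarith [sq_nonneg (|B| / mk k ^ m)]
  have h5 : |pr x (k, i)| ≤ 2 * (|B| / mk k ^ m) := abs_le_of_sq_le_sq (h1.trans h3) (by positivity)
  show mk k ^ m * |pr x (k, i)| ≤ 2 * |B|
  calc mk k ^ m * |pr x (k, i)| ≤ mk k ^ m * (2 * (|B| / mk k ^ m)) := mul_le_mul_of_nonneg_left h5 hm.le
    _ = 2 * |B| := by field_simp

/-! ### sums -/

theorem tsum_pair {f : K3 × Fin 3 → ℝ} (hf : Summable f) : ∑' p, f p = ∑' k, ∑ i, f (k, i) := by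
  rw [hf.tsum_prod]
  exact tsum_congr fun k => tsum_fintype _

theorem summable_pair {f : K3 × Fin 3 → ℝ} (hf : Summable f) : Summable fun k => ∑ i, f (k, i) :=
  summable_sum fun _ _ => hf.comp_injective fun _ _ h => (Prod.ext_iff.1 h).1

theorem nsq_pair {x : K3 × Fin 3 → ℝ} (hx : RD mu x) (a : ℝ) :
    nsq mu a x = ∑' k, mk k ^ (2 * a) * ∑ i, x (k, i) ^ 2 := by
  unfold nsq
  rw [tsum_pair (hx.summable wt_mu a)]
  refine tsum_congr fun k => ?_
  rw [Finset.mul_sum]
  rfl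

theorem summable_pair' {x : K3 × Fin 3 → ℝ} (hx : RD mu x) (a : ℝ) :
    Summable fun k => mk k ^ (2 * a) * ∑ i, x (k, i) ^ 2 := by
  refine (summable_pair (hx.summable wt_mu a)).congr fun k => ?_
  rw [Finset.mul_sum]
  rfl

theorem nrm_pr {x : K3 × Fin 3 → ℝ} (hx : RD mu x) (a : ℝ) : nrm mu a (pr x) ≤ nrm mu a x := by
  apply Real.sqrt_le_sqrt
  rw [nsq_pair hx, nsq_pair (rd_pr hx)]
  refine (summable_pair' (rd_pr hx) a).tsum_le_tsum (fun k => ?_) (summable_pair' hx a)
  exact mul_le_mul_of_nonneg_left (pr_sum_sq x k) (Real.rpow_nonneg (mk_pos k).le _)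

theorem summable_mul {x y : K3 × Fin 3 → ℝ} (hx : RD mu x) (hy : RD mu y) : Summable fun p => x p * y p := by
  obtain ⟨B, hB⟩ := hy 0
  refine Summable.of_norm_bounded ((hx.summable_abs wt_mu).mul_left |B|) fun p => ?_
  rw [Real.norm_eq_abs, abs_mul, mul_comm]
  have h := hB p
  rw [pow_zero, one_mul] at h
  exact mul_le_mul_of_nonneg_right (h.trans (le_abs_self B)) (abs_nonneg _)

theorem tsum_orth {x y : K3 × Fin 3 → ℝ} (hx : RD mu x) (hy : RD mu y) :
    ∑' p, pr x p * y p = ∑' p, pr x p * pr y p := by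
  rw [tsum_pair (summable_mul (rd_pr hx) hy), tsum_pair (summable_mul (rd_pr hx) (rd_pr hy))]
  exact tsum_congr fun k => pr_orth x y k

/-! ### fields -/

theorem ha_zero_of_mean {f : V → ℝ} (h : ∫ x in cube, f x = 0) : ha f 0 = 0 := by
  have e : fr f 0 = ((∫ x in cube, f x : ℝ) : ℂ) := by
    unfold H459R3.NS.fr H459R3.NS.fc
    refine Eq.trans ?_ (integral_ofReal (𝕜 := ℂ) (μ := volume.restrict cube) (f := fun x => f x))
    congr 1; funext x
    rw [neg_zero, H459R3.NS.ee_zero, one_mul]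
    rfl
  unfold ha
  rw [e, h]
  simp

theorem mean_of_ha {f : V → ℝ} (h : ha f 0 = 0) : ∫ x in cube, f x = 0 := by
  have e : fr f 0 = ((∫ x in cube, f x : ℝ) : ℂ) := by
    unfold H459R3.NS.fr H459R3.NS.fc
    refine Eq.trans ?_ (integral_ofReal (𝕜 := ℂ) (μ := volume.restrict cube) (f := fun x => f x))
    congr 1; funext x
    rw [neg_zero, H459R3.NS.ee_zero, one_mul]
    rfl
  unfold ha at h
  rw [e] at h
  simpa using h

theorem ha_add {f g : V → ℝ} (hf : SP f) (hg : SP g) (k : K3) : ha (fun x => f x + g x) k = ha f k + ha g k := by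
  have e : (fun x => f x + g x) = syn fun k => ha f k + ha g k := by
    funext x
    have s1 := summable_cas ((rd_ha hf).summable_abs wt_mk) x
    have s2 := summable_cas ((rd_ha hg).summable_abs wt_mk) x
    rw [← syn_ha hf x, ← syn_ha hg x]
    unfold syn
    rw [← s1.tsum_add s2]
    exact tsum_congr fun k => by ring
  rw [e, ha_syn ((RD.add wt_mk (rd_ha hf) (rd_ha hg)).summable_abs wt_mk)]

theorem ha_smul {f : V → ℝ} (r : ℝ) (k : K3) : ha (fun x => r * f x) k = r * ha f k := by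
  have e : fr (fun x => r * f x) k = (r : ℂ) * fr f k := by
    unfold H459R3.NS.fr H459R3.NS.fc
    rw [← integral_const_mul]
    congr 1; funext x
    push_cast; ring
  unfold ha
  rw [e, Complex.re_ofReal_mul, Complex.im_ofReal_mul]
  ring

theorem ha_zero_fun (k : K3) : ha (fun _ => (0 : ℝ)) k = 0 := by
  have := ha_smul (f := fun _ => (0 : ℝ)) 0 k
  simpa using this

theorem sp_const (c : ℝ) : SP fun _ : V => c := ⟨contDiff_const, fun _ _ => rfl⟩

theorem SP.smul {f : V → ℝ} (hf : SP f) (r : ℝ) : SP fun x => r * f x := (sp_const r).mul hf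

theorem ha_sum {κ : Type*} (s : Finset κ) {f : κ → V → ℝ} (hf : ∀ a ∈ s, SP (f a)) (k : K3) :
    ha (fun x => ∑ a ∈ s, f a x) k = ∑ a ∈ s, ha (f a) k := by
  classical
  induction s using Finset.induction_on with
  | empty => simpa using ha_zero_fun k
  | insert a s ha' ih =>
    simp only [Finset.sum_insert ha']
    rw [ha_add (hf a (Finset.mem_insert_self _ _)) (SP.sum fun b hb => hf b (Finset.mem_insert_of_mem hb)),
      ih fun b hb => hf b (Finset.mem_insert_of_mem hb)]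

/-- coefficients of divergence-free fields with vanishing mean -/
theorem Field.pr_cf {v : V → V} (hv : Field v) : pr (cf v) = cf v := by
  refine pr_eq (fun i => ha_zero_of_mean (hv.mean i)) fun k => ?_
  have h1 : ha (fun x => ∑ i, pd i (fun y => v y i) x) (-k) = 0 := by
    have : (fun x => ∑ i, pd i (fun y => v y i) x) = fun _ => (0 : ℝ) := funext hv.div
    rw [this]
    exact ha_zero_fun _
  rw [ha_sum _ fun i _ => (hv.sp i).pd i] at h1
  simp only [ha_pd (hv.sp _), neg_neg] at h1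
  have hpi := Real.pi_pos
  have h2 : ∑ i, -(2 * Real.pi * (((-k : K3) i : ℤ) : ℝ)) * ha (fun y => v y i) k =
      2 * Real.pi * ∑ i, (k i : ℝ) * cf v (k, i) := by
    rw [Finset.mul_sum]
    refine Finset.sum_congr rfl fun i _ => ?_
    simp only [cf, Pi.neg_apply, Int.cast_neg]
    ring
  rw [h2] at h1
  have h3 : 2 * Real.pi ≠ 0 := by positivity
  exact (mul_eq_zero.1 h1).resolve_left h3

theorem field_fd {x : K3 × Fin 3 → ℝ} (hx : RD mu x) : Field (fd (pr x)) := by
  have hp := rd_pr hx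
  have hsp := fun i => sp_fd hp i
  have hc : ∀ k i, ha (fun y => fd (pr x) y i) k = pr x (k, i) := fun k i => congrFun (cf_fd hp) (k, i)
  refine ⟨hsp, fun y => ?_, fun i => mean_of_ha ?_⟩
  · have h1 : (fun x' => ∑ i, pd i (fun y => fd (pr x) y i) x') = fun _ => (0 : ℝ) := by
      refine ext_ha (SP.sum fun i _ => (hsp i).pd i) (sp_const 0) fun k => ?_
      rw [ha_sum _ fun i _ => (hsp i).pd i, ha_zero_fun]
      simp only [ha_pd (hsp _), hc]
      have h2 := pr_div x (-k)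
      have h3 : ∑ i, -(2 * Real.pi * ((k i : ℤ) : ℝ)) * pr x (-k, i) =
          2 * Real.pi * ∑ i, (((-k : K3) i : ℤ) : ℝ) * pr x (-k, i) := by
        rw [Finset.mul_sum]
        refine Finset.sum_congr rfl fun i _ => ?_
        simp only [Pi.neg_apply, Int.cast_neg]
        ring
      rw [h3, h2, mul_zero]
    exact congrFun h1 y
  · rw [hc, pr_zero]

theorem field_of_pr {x : K3 × Fin 3 → ℝ} (hx : RD mu x) (h : pr x = x) : Field (fd x) := by
  have := field_fd hx
  rwa [h] at this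

/-- `⟨v, w⟩` in coefficients -/
theorem ip_eq {v w : V → V} (hv : ∀ i, SP fun x => v x i) (hw : ∀ i, SP fun x => w x i) :
    ip v w = ∑' p, cf v p * cf w p := by
  unfold Pool.Agent.H39.PDE.ip
  rw [integral_finsetSum _ fun i _ => ((hv i).mul (hw i)).int, tsum_pair (summable_mul (rd_cf hv) (rd_cf hw)),
    Summable.tsum_finsetSum fun i _ => ?_]
  · exact Finset.sum_congr rfl fun i _ => int_mul (hv i) (hw i)
  · exact (summable_mul (rd_cf hv) (rd_cf hw)).comp_injective fun a b h => (Prod.ext_iff.1 h).1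

theorem mk_rpow {k : K3} (hk : k ≠ 0) (a : ℝ) : mk k ^ (2 * a) = fq k ^ a := by
  rw [← mk_sq hk, ← Real.rpow_natCast, ← Real.rpow_mul (mk_pos k).le]
  norm_num

/-- Sobolev norms in coefficients -/
theorem sob_eq {v : V → V} (hv : ∀ i, SP fun x => v x i) (hm : ∀ i, ∫ x in cube, v x i = 0) (a : ℝ) :
    sob a v = nrm mu a (cf v) := by
  unfold Pool.Agent.H39.PDE.sob nrm
  congr 1
  rw [nsq_pair (rd_cf hv)]
  have hr := summable_pair' (rd_cf hv) a
  have hs := Pool.Agent.H39.PDE.sob_summable a hv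
  have hodd : ∑' k : K3, ((if k = 0 then 0 else fq k ^ a * ∑ i, ‖fr (fun x => v x i) k‖ ^ 2) -
      mk k ^ (2 * a) * ∑ i, cf v (k, i) ^ 2) = 0 := by
    apply tsum_odd
    intro k
    by_cases hk : k = 0
    · subst hk
      simp only [neg_zero, if_true]
      have : ∀ i, cf v (0, i) = 0 := fun i => ha_zero_of_mean (hm i)
      simp [this]
    · have hk' : -k ≠ 0 := neg_ne_zero.2 hk
      rw [if_neg hk, if_neg hk', mk_rpow hk, mk_rpow hk', fq_neg, ← mul_sub, ← mul_sub, ← mul_neg]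
      congr 1
      simp only [cf, ha, fr_neg', Fin.sum_univ_three, Complex.star_def, Complex.conj_re, Complex.conj_im,
        Complex.sq_norm, Complex.normSq_apply]
      ring
  have h := hs.tsum_sub hr
  rw [h] at hodd
  linarith

/-! ### fractional powers of the Laplacian -/

theorem fq_rpow_le (s : ℝ) : ∃ r : ℕ, ∀ k, |fq k ^ s| ≤ 1 * mk k ^ r := by
  obtain ⟨r, hr⟩ := exists_nat_ge |2 * s|
  refine ⟨r, fun k => ?_⟩
  rw [abs_of_nonneg (Real.rpow_nonneg (fq_nonneg k) _), one_mul]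
  by_cases hk : k = 0
  · subst hk
    have h0 : fq 0 = 0 := by simp [Pool.Agent.H39.PDE.fq]
    rw [h0, mk_zero, one_pow]
    by_cases hs : s = 0
    · rw [hs, Real.rpow_zero]
    · rw [Real.zero_rpow hs]; exact zero_le_one
  · rw [← mk_rpow hk, ← Real.rpow_natCast]
    exact Real.rpow_le_rpow_of_exponent_le (one_le_mk k) ((le_abs_self _).trans hr)

theorem RD.fac {ι : Type*} {μ : ι → ℝ} (hμ : Wt μ) {x : ι → ℝ} (hx : RD μ x) {p : ι → ℝ} {A : ℝ} {r : ℕ}
    (hp : ∀ i, |p i| ≤ A * μ i ^ r) : RD μ fun i => p i * x i := by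
  have hr : RDt μ fun _ => x := fun m => by
    obtain ⟨B, hB⟩ := hx m
    exact ⟨B, fun _ i => hB i⟩
  exact (hr.fac hμ hp).at 0

theorem rd_flap {h : K3 → ℝ} (hh : RD mk h) (s : ℝ) : RD mk fun k => fq k ^ s * h k := by
  obtain ⟨r, hr⟩ := fq_rpow_le s
  exact hh.fac wt_mk hr

theorem flap_eq {f : V → ℝ} (hf : SP f) (s : ℝ) : flap s f = syn fun k => fq k ^ s * ha f k := by
  have hsum : Summable fun k => ((fq k ^ s : ℝ) : ℂ) * fr f k := by
    have h1 : Summable fun k => |fq k ^ s * ha f k| + |fq (-k) ^ s * ha f (-k)| :=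
      ((rd_flap (rd_ha hf) s).summable_abs wt_mk).add
        (((Equiv.neg K3).summable_iff (f := fun k => |fq k ^ s * ha f k|)).2 ((rd_flap (rd_ha hf) s).summable_abs wt_mk))
    refine Summable.of_norm_bounded (h1.mul_left 2) fun k => ?_
    rw [norm_mul, Complex.norm_real, Real.norm_eq_abs, fq_neg, abs_mul, abs_mul, ← mul_add, ← mul_assoc,
      mul_comm 2, mul_assoc]
    refine mul_le_mul_of_nonneg_left ?_ (abs_nonneg _)
    refine (Complex.norm_le_abs_re_add_abs_im _).trans ?_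
    have e1 : (fr f k).re = (ha f k + ha f (-k)) / 2 := by
      unfold ha; rw [fr_neg']; simp only [Complex.star_def, Complex.conj_re, Complex.conj_im]; ring
    have e2 : (fr f k).im = (ha f (-k) - ha f k) / 2 := by
      unfold ha; rw [fr_neg']; simp only [Complex.star_def, Complex.conj_re, Complex.conj_im]; ring
    rw [e1, e2, abs_div, abs_div, abs_two]
    have a1 := abs_add_le (ha f k) (ha f (-k))
    have a2 : |ha f (-k) - ha f k| ≤ |ha f (-k)| + |ha f k| := abs_sub _ _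
    have a3 := abs_nonneg (ha f k)
    have a4 := abs_nonneg (ha f (-k))
    linarith
  funext x
  have h2 := re_S hsum (fun k => by
    rw [fq_neg, fr_neg', star_mul', Complex.star_def, Complex.conj_ofReal]) x
  unfold flap
  unfold H459R3.NS.S at h2
  rw [h2]
  refine tsum_congr fun k => ?_
  rw [Complex.re_ofReal_mul, Complex.im_ofReal_mul]
  unfold ha
  ring

theorem sp_flap {f : V → ℝ} (hf : SP f) (s : ℝ) : SP (flap s f) := by
  rw [flap_eq hf]
  exact sp_syn (rd_flap (rd_ha hf) s)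

theorem ha_flap {f : V → ℝ} (hf : SP f) (s : ℝ) (k : K3) : ha (flap s f) k = fq k ^ s * ha f k := by
  rw [flap_eq hf, ha_syn ((rd_flap (rd_ha hf) s).summable_abs wt_mk)]

theorem cx_ha (f : V → ℝ) (k : K3) : cx (ha f) k = fr f k := by
  apply Complex.ext
  · simp only [cx, ha, fr_neg', Complex.star_def, Complex.conj_re, Complex.conj_im]; ring
  · simp only [cx, ha, fr_neg', Complex.star_def, Complex.conj_re, Complex.conj_im]; ring

theorem fr_flap {f : V → ℝ} (hf : SP f) (s : ℝ) (k : K3) : fr (flap s f) k = ((fq k ^ s : ℝ) : ℂ) * fr f k := by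
  rw [flap_eq hf, fr_syn ((rd_flap (rd_ha hf) s).summable_abs wt_mk), ← cx_ha f k]
  apply Complex.ext
  · rw [Complex.re_ofReal_mul]; simp only [cx, fq_neg]; ring
  · rw [Complex.im_ofReal_mul]; simp only [cx, fq_neg]; ring

/-- the dissipation is nonnegative -/
theorem flap_nonneg {f : V → ℝ} (hf : SP f) (s : ℝ) : 0 ≤ ∫ x in cube, flap s f x * f x := by
  rw [int_mul (sp_flap hf s) hf]
  refine tsum_nonneg fun k => ?_
  rw [ha_flap hf, mul_assoc]
  exact mul_nonneg (Real.rpow_nonneg (fq_nonneg k) _) (mul_self_nonneg _)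

end Pool.Agent.H39.Lions
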