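import Pool.Agent.H39.Lions.Seq

/-!
# Finite dimensional quadratic systems with decreasing energy
-/

open Set Filter Topology Metric
open scoped ContDiff NNReal

namespace Pool.Agent.H39.Lions

/-- a smooth vector field with compact support has solutions on every time interval -/
theorem flow_compact {E : Type*} [NormedAddCommGroup E] [NormedSpace ℝ E] [CompleteSpace E] {f : E → E}
    (hf : ContDiff ℝ 1 f) (hs : HasCompactSupport f) (x0 : E) {T : ℝ} (hT : 0 ≤ T) :
    ∃ α : ℝ → E, α 0 = x0 ∧ ∀ t ∈ Icc 0 T, HasDerivWithinAt α (f (α t)) (Icc 0 T) t := by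
  obtain ⟨K, hK⟩ := ContDiff.lipschitzWith_of_hasCompactSupport hs hf one_ne_zero
  obtain ⟨L, hL⟩ := hs.exists_bound_of_continuous hf.continuous
  set L' : ℝ≥0 := L.toNNReal
  have h : IsPicardLindelof (fun _ => f) (⟨0, le_rfl, hT⟩ : Icc 0 T) x0 (L' * T.toNNReal) 0 L' K := by
    refine IsPicardLindelof.of_time_independent (fun x _ => (hL x).trans (Real.le_coe_toNNReal L))
      hK.lipschitzOnWith ?_
    simp only [sub_zero, sub_self, NNReal.coe_mul, NNReal.coe_zero]
    rw [max_eq_left hT, Real.coe_toNNReal T hT]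
  exact h.exists_eq_forall_mem_Icc_hasDerivWithinAt₀

variable {ι : Type*} [DecidableEq ι]

/-- extension by zero -/
def ext0 (F : Finset ι) (y : F → ℝ) : ι → ℝ := fun i => if h : i ∈ F then y ⟨i, h⟩ else 0

theorem ext0_coe (F : Finset ι) (y : F → ℝ) (i : F) : ext0 F y i = y i := by simp [ext0]

theorem ext0_not (F : Finset ι) (y : F → ℝ) {i : ι} (h : i ∉ F) : ext0 F y i = 0 := by simp [ext0, h]

/-- **The Galerkin systems are solvable.** -/
theorem gal (F : Finset ι) (d : ι → ℝ) (c : ι → ι → ι → ℝ)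
    (hE : ∀ y : ι → ℝ, (∀ i, i ∉ F → y i = 0) →
      ∑ i ∈ F, y i * (-(d i) * y i + ∑ j ∈ F, ∑ k ∈ F, c i j k * (y j * y k)) ≤ 0)
    (y0 : ι → ℝ) (h0 : ∀ i, i ∉ F → y0 i = 0) {T : ℝ} (hT : 0 ≤ T) :
    ∃ x : ℝ → ι → ℝ, x 0 = y0 ∧ (∀ t i, i ∉ F → x t i = 0) ∧ ∀ t ∈ Icc 0 T, ∀ i ∈ F,
      HasDerivWithinAt (fun s => x s i)
        (-(d i) * x t i + ∑ j ∈ F, ∑ k ∈ F, c i j k * (x t j * x t k)) (Icc 0 T) t := by
  classical
  set f : (F → ℝ) → F → ℝ := fun y i => -(d i) * y i + ∑ j : F, ∑ k : F, c i j k * (y j * y k) with hf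
  have hfs : ContDiff ℝ ∞ f := by
    rw [contDiff_pi]
    intro i
    simp only [hf]
    fun_prop
  have hfe : ∀ (y : F → ℝ) (i : F), f y i =
      -(d i) * ext0 F y i + ∑ j ∈ F, ∑ k ∈ F, c i j k * (ext0 F y j * ext0 F y k) := by
    intro y i
    simp only [hf, ext0_coe]
    congr 1
    rw [← Finset.sum_coe_sort F]
    refine Finset.sum_congr rfl fun j _ => ?_
    rw [← Finset.sum_coe_sort F]
    refine Finset.sum_congr rfl fun k _ => ?_
    rw [ext0_coe, ext0_coe]
  set e : (F → ℝ) → ℝ := fun y => ∑ i : F, y i ^ 2 with he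
  have hen : ∀ y, ‖y‖ ≤ Real.sqrt (e y) := by
    intro y
    rw [pi_norm_le_iff_of_nonneg (Real.sqrt_nonneg _)]
    intro i
    rw [Real.norm_eq_abs]
    apply Real.le_sqrt_of_sq_le
    rw [sq_abs]
    exact Finset.single_le_sum (f := fun i => y i ^ 2) (fun i _ => sq_nonneg _) (Finset.mem_univ i)
  set y1 : F → ℝ := fun i => y0 i with hy1
  set R : ℝ := Real.sqrt (e y1) + 1 with hR
  have hR0 : 0 < R := by
    have := Real.sqrt_nonneg (e y1)
    linarith
  let χ : ContDiffBump (0 : F → ℝ) := ⟨R, R + 1, hR0, by linarith⟩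
  have hg : ContDiff ℝ 1 fun y => χ y • f y := χ.contDiff.smul (hfs.of_le (by norm_cast))
  have hgs : HasCompactSupport fun y => χ y • f y := χ.hasCompactSupport.smul_right
  obtain ⟨α, hα0, hα⟩ := flow_compact hg hgs y1 hT
  -- the energy decreases
  have hcont : ContinuousOn α (Icc 0 T) := fun t ht => (hα t ht).continuousWithinAt
  have hcoord : ∀ t ∈ Icc 0 T, ∀ i : F, HasDerivWithinAt (fun s => α s i) (χ (α t) * f (α t) i) (Icc 0 T) t := by
    intro t ht i
    exact hasDerivWithinAt_pi.1 (hα t ht) i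
  have hed : ∀ t ∈ Icc 0 T, HasDerivWithinAt (fun s => e (α s))
      (2 * χ (α t) * ∑ i : F, α t i * f (α t) i) (Icc 0 T) t := by
    intro t ht
    have h1 : HasDerivWithinAt (fun s => ∑ i : F, α s i ^ 2)
        (∑ i : F, ((2 : ℕ) : ℝ) * α t i ^ (2 - 1) * (χ (α t) * f (α t) i)) (Icc 0 T) t :=
      HasDerivWithinAt.fun_sum fun i _ => (hcoord t ht i).pow 2
    refine h1.congr_deriv ?_
    rw [Finset.mul_sum]
    refine Finset.sum_congr rfl fun i _ => ?_
    simp only [Nat.cast_ofNat, Nat.add_one_sub_one, pow_one]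
    ring
  have hle : ∀ y : F → ℝ, ∑ i : F, y i * f y i ≤ 0 := by
    intro y
    have h1 := hE (ext0 F y) fun i hi => ext0_not F y hi
    rw [← Finset.sum_coe_sort F] at h1
    refine le_trans (le_of_eq ?_) h1
    refine Finset.sum_congr rfl fun i _ => ?_
    rw [hfe, ext0_coe]
  have hanti : AntitoneOn (fun s => e (α s)) (Icc 0 T) := by
    refine antitoneOn_of_deriv_nonpos (convex_Icc 0 T) (fun t ht => (hed t ht).continuousWithinAt) ?_ ?_
    · rw [interior_Icc]
      exact fun t ht => ((hed t ⟨ht.1.le, ht.2.le⟩).hasDerivAt (Icc_mem_nhds ht.1 ht.2)).differentiableAt.differentiableWithinAt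
    · rw [interior_Icc]
      intro t ht
      rw [((hed t ⟨ht.1.le, ht.2.le⟩).hasDerivAt (Icc_mem_nhds ht.1 ht.2)).deriv]
      exact mul_nonpos_of_nonneg_of_nonpos (mul_nonneg zero_le_two χ.nonneg) (hle _)
  have hone : ∀ t ∈ Icc 0 T, χ (α t) = 1 := by
    intro t ht
    apply χ.one_of_mem_closedBall
    rw [mem_closedBall_zero_iff]
    refine (hen _).trans ?_
    have h1 := hanti (⟨le_rfl, hT⟩ : (0 : ℝ) ∈ Icc 0 T) ht ht.1
    simp only [hα0] at h1
    have h2 := Real.sqrt_le_sqrt h1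
    show _ ≤ R
    linarith
  refine ⟨fun t => ext0 F (α t), ?_, fun t i hi => ext0_not F _ hi, fun t ht i hi => ?_⟩
  · funext i
    show ext0 F (α 0) i = y0 i
    by_cases hi : i ∈ F
    · rw [show i = ((⟨i, hi⟩ : F) : ι) from rfl, ext0_coe, hα0]
    · rw [ext0_not F _ hi, h0 i hi]
  · have h1 := hcoord t ht ⟨i, hi⟩
    rw [hone t ht, one_mul, hfe] at h1
    have h2 : (fun s => ext0 F (α s) i) = fun s => α s ⟨i, hi⟩ := by
      funext s
      exact ext0_coe F (α s) ⟨i, hi⟩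
    show HasDerivWithinAt (fun s => ext0 F (α s) i) _ _ _
    rw [h2]
    exact h1

end Pool.Agent.H39.Lions
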