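import Pool.Agent.H39.Lions.Ladder
import Pool.Agent.H39.PDE.Props

/-!
# Hartley coefficients of smooth periodic functions
-/

open MeasureTheory Set Filter Topology
open scoped ContDiff

namespace Pool.Agent.H39.Lions

open H459R3.NS (V K3 Per cube SP pd lap ee fr S N)
open Pool.Agent.H39.PDE (fq)
open Pool.Agent.K1H11.NS (SFam TT GS ex pw Ev.SF)

/-- the size `|2 π k|` of a frequency (`1` for `k = 0`) -/
noncomputable def mk (k : K3) : ℝ := if k = 0 then 1 else Real.sqrt (fq k)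

/-- the weights for vector fields -/
noncomputable def mu (p : K3 × Fin 3) : ℝ := mk p.1

theorem fq_nonneg (k : K3) : 0 ≤ fq k := by unfold fq; positivity

theorem one_le_sum {k : K3} (hk : k ≠ 0) : 1 ≤ ∑ j, (k j : ℝ) ^ 2 := by
  obtain ⟨j, hj'⟩ : ∃ j, k j ≠ 0 := by
    by_contra h
    push Not at h
    exact hk (funext h)
  have h4 : (1 : ℝ) ≤ (k j : ℝ) ^ 2 := by
    have h5 : 1 ≤ |k j| := Int.one_le_abs hj'
    have h6 : (1 : ℝ) ≤ |(k j : ℝ)| := by exact_mod_cast h5
    rw [← sq_abs]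
    nlinarith
  exact h4.trans (Finset.single_le_sum (f := fun j => (k j : ℝ) ^ 2) (fun j _ => sq_nonneg _)
    (Finset.mem_univ j))

theorem mk_zero : mk 0 = 1 := if_pos rfl

theorem mk_sq {k : K3} (hk : k ≠ 0) : mk k ^ 2 = fq k := by
  unfold mk
  rw [if_neg hk, Real.sq_sqrt (fq_nonneg k)]

theorem one_le_fq {k : K3} (hk : k ≠ 0) : 1 ≤ fq k := by
  have := one_le_sum hk
  have := Real.pi_gt_three
  unfold fq
  nlinarith

theorem one_le_mk (k : K3) : 1 ≤ mk k := by
  unfold mk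
  split_ifs with hk
  · exact le_rfl
  · exact Real.one_le_sqrt.2 (one_le_fq hk)

theorem mk_pos (k : K3) : 0 < mk k := lt_of_lt_of_le one_pos (one_le_mk k)

theorem fq_neg (k : K3) : fq (-k) = fq k := by
  unfold fq
  simp

theorem mk_neg (k : K3) : mk (-k) = mk k := by
  unfold mk
  rw [fq_neg]
  simp only [neg_eq_zero]

theorem one_add_sq_le_mk (k : K3) (j : Fin 3) : 1 + (k j : ℝ) ^ 2 ≤ mk k ^ 2 := by
  by_cases hk : k = 0
  · subst hk; simp [mk_zero]
  · rw [mk_sq hk]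
    have h1 := one_le_sum hk
    have h2 : (k j : ℝ) ^ 2 ≤ ∑ j, (k j : ℝ) ^ 2 :=
      Finset.single_le_sum (f := fun j => (k j : ℝ) ^ 2) (fun j _ => sq_nonneg _) (Finset.mem_univ j)
    have := Real.pi_gt_three
    have h3 : (2 : ℝ) ≤ 4 * Real.pi ^ 2 := by nlinarith
    have h4 := mul_le_mul_of_nonneg_right h3 (zero_le_one.trans h1)
    unfold fq
    linarith

theorem abs_le_mk (k : K3) (j : Fin 3) : 2 * Real.pi * |(k j : ℝ)| ≤ mk k := by
  by_cases hk : k = 0
  · subst hk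
    simp [mk_zero]
  · apply abs_le_of_sq_le_sq' _ (mk_pos k).le |>.2
    rw [mk_sq hk, mul_pow, sq_abs]
    have h2 : (k j : ℝ) ^ 2 ≤ ∑ j, (k j : ℝ) ^ 2 :=
      Finset.single_le_sum (f := fun j => (k j : ℝ) ^ 2) (fun j _ => sq_nonneg _) (Finset.mem_univ j)
    unfold fq
    nlinarith [sq_nonneg Real.pi]

theorem mk_le (k : K3) : mk k ≤ 12 * (N k : ℝ) + 1 := by
  by_cases hk : k = 0
  · subst hk
    rw [mk_zero]
    have : (0 : ℝ) ≤ N (0 : K3) := by positivity
    linarith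
  · have hj : ∀ j, |(k j : ℝ)| ≤ N k := by
      intro j
      have := (H459R3.NS.N_le_iff k (N k)).1 le_rfl j
      have h3 : |(k j : ℝ)| = ((|k j| : ℤ) : ℝ) := by push_cast; rfl
      rw [h3]
      exact_mod_cast this
    have hsum2 : ∑ j, (k j : ℝ) ^ 2 ≤ 3 * (N k : ℝ) ^ 2 := by
      have : ∀ j ∈ (Finset.univ : Finset (Fin 3)), (k j : ℝ) ^ 2 ≤ (N k : ℝ) ^ 2 := by
        intro j _
        rw [← sq_abs]
        exact pow_le_pow_left₀ (abs_nonneg _) (hj j) 2
      refine (Finset.sum_le_sum this).trans ?_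
      simp
    have h0 : (0 : ℝ) ≤ N k := by positivity
    have h1 : mk k ≤ 12 * (N k : ℝ) := by
      apply abs_le_of_sq_le_sq' _ (by positivity) |>.2
      rw [mk_sq hk]
      unfold fq
      have h3 := Real.pi_lt_d2
      have h4 := Real.pi_pos
      have h5 : Real.pi ^ 2 ≤ 12 := by nlinarith
      have h6 : 0 ≤ ∑ j, (k j : ℝ) ^ 2 := Finset.sum_nonneg fun j _ => sq_nonneg _
      nlinarith [sq_nonneg (N k : ℝ)]
    linarith

theorem N_le_mk (k : K3) : (N k : ℝ) ≤ mk k := by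
  have h : ∀ j, |(k j : ℝ)| ≤ mk k := fun j => by
    have h1 := abs_le_mk k j
    have h2 := Real.pi_gt_three
    have h3 := abs_nonneg (k j : ℝ)
    nlinarith
  have h2 : N k ≤ ⌊mk k⌋₊ := by
    rw [H459R3.NS.N_le_iff]
    intro j
    have h3 : ((|k j| : ℤ) : ℝ) ≤ mk k := by
      have := h j
      push_cast
      exact this
    have h4 : ((|k j|).toNat : ℝ) ≤ mk k := by
      have h5 : (((|k j|).toNat : ℤ) : ℝ) = ((|k j| : ℤ) : ℝ) := by rw [Int.toNat_of_nonneg (abs_nonneg _)]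
      have h6 : (((|k j|).toNat : ℤ) : ℝ) = ((|k j|).toNat : ℝ) := by push_cast; rfl
      rw [← h6, h5]; exact h3
    have h7 := Nat.le_floor h4
    omega
  exact (Nat.cast_le.2 h2).trans (Nat.floor_le (mk_pos k).le)

theorem wt_mk : Wt mk := by
  refine ⟨one_le_mk, 6, ?_⟩
  refine Summable.of_nonneg_of_le (fun k => by have := mk_pos k; positivity) (fun k => ?_) H459R3.NS.summable_K3
  have h0 := one_add_sq_le_mk k 0
  have h1 := one_add_sq_le_mk k 1
  have h2 := one_add_sq_le_mk k 2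
  have hm := mk_pos k
  have e : (1 / (1 + (k 0 : ℝ) ^ 2)) * ((1 / (1 + (k 1 : ℝ) ^ 2)) * (1 / (1 + (k 2 : ℝ) ^ 2))) =
      ((1 + (k 0 : ℝ) ^ 2) * ((1 + (k 1 : ℝ) ^ 2) * (1 + (k 2 : ℝ) ^ 2)))⁻¹ := by
    field_simp
  rw [e]
  apply inv_anti₀ (by positivity)
  calc (1 + (k 0 : ℝ) ^ 2) * ((1 + (k 1 : ℝ) ^ 2) * (1 + (k 2 : ℝ) ^ 2)) ≤
      mk k ^ 2 * (mk k ^ 2 * mk k ^ 2) := by gcongr
    _ = mk k ^ 6 := by ring

theorem wt_mu : Wt mu := by
  obtain ⟨r, hr⟩ := wt_mk.summ
  refine ⟨fun p => one_le_mk p.1, r, ?_⟩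
  have h1 : Summable fun _ : Fin 3 => (1 : ℝ) := (hasSum_fintype _).summable
  have h2 := hr.mul_of_nonneg h1 (fun k => by have := mk_pos k; positivity) fun _ => zero_le_one
  refine h2.congr fun p => ?_
  rw [mul_one]; rfl

/-- Hartley coefficients -/
noncomputable def ha (f : V → ℝ) (k : K3) : ℝ := (fr f k).re - (fr f k).im

/-- `cos (2 π k · x) + sin (2 π k · x)` -/
noncomputable def cas (k : K3) (x : V) : ℝ := (ee k x).re + (ee k x).im

/-- the Hartley series -/
noncomputable def syn (h : K3 → ℝ) (x : V) : ℝ := ∑' k, h k * cas k x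

theorem fr_neg' (f : V → ℝ) (k : K3) : fr f (-k) = star (fr f k) := Pool.Agent.K1H11.NS.fr_neg f k

theorem abs_cas_le (k : K3) (x : V) : |cas k x| ≤ 2 := by
  unfold cas
  have h1 := Complex.abs_re_le_norm (ee k x)
  have h2 := Complex.abs_im_le_norm (ee k x)
  rw [H459R3.NS.norm_ee] at h1 h2
  have := abs_add_le (ee k x).re (ee k x).im
  linarith

theorem abs_ha_le (f : V → ℝ) (k : K3) : |ha f k| ≤ 2 * ‖fr f k‖ := by
  unfold ha
  have h1 := Complex.abs_re_le_norm (fr f k)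
  have h2 := Complex.abs_im_le_norm (fr f k)
  have h3 : |(fr f k).re - (fr f k).im| ≤ |(fr f k).re| + |(fr f k).im| := abs_sub _ _
  linarith

theorem tsum_odd {g : K3 → ℝ} (h : ∀ k, g (-k) = -g k) : ∑' k, g k = 0 := by
  have h1 := (Equiv.neg K3).tsum_eq g
  have h2 : ∑' k, g ((Equiv.neg K3) k) = ∑' k, -g k := tsum_congr fun k => h k
  rw [h2, tsum_neg] at h1
  linarith

theorem summable_cas {h : K3 → ℝ} (hh : Summable fun k => |h k|) (x : V) : Summable fun k => h k * cas k x := by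
  refine Summable.of_norm_bounded (hh.mul_left 2) fun k => ?_
  rw [Real.norm_eq_abs, abs_mul, mul_comm]
  exact mul_le_mul_of_nonneg_right (abs_cas_le k x) (abs_nonneg _)

/-- real parts of Fourier series with real sum -/
theorem re_S {c : K3 → ℂ} (hc : Summable c) (hs : ∀ k, c (-k) = star (c k)) (x : V) :
    (S c x).re = ∑' k, ((c k).re - (c k).im) * cas k x := by
  have h1 := H459R3.NS.summable_term hc x
  have hn := hc.norm
  have h2 : Summable fun k => ((c k).re - (c k).im) * cas k x := by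
    refine summable_cas (Summable.of_nonneg_of_le (fun k => abs_nonneg _) (fun k => ?_) (hn.mul_left 2)) x
    have h1 := Complex.abs_re_le_norm (c k)
    have h2 := Complex.abs_im_le_norm (c k)
    have h3 : |(c k).re - (c k).im| ≤ |(c k).re| + |(c k).im| := abs_sub _ _
    linarith
  have h3 : Summable fun k => (c k * star (ee k x)).im := by
    refine Summable.of_norm_bounded hn fun k => ?_
    refine (Complex.abs_im_le_norm _).trans ?_
    rw [norm_mul, norm_star, H459R3.NS.norm_ee, mul_one]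
  have e : ∀ k, (c k * ee k x).re = ((c k).re - (c k).im) * cas k x + (c k * star (ee k x)).im := by
    intro k
    unfold cas
    simp only [Complex.mul_re, Complex.mul_im, Complex.star_def, Complex.conj_re, Complex.conj_im]
    ring
  unfold H459R3.NS.S
  rw [← Complex.reCLM_apply, Complex.reCLM.map_tsum h1]
  simp only [Complex.reCLM_apply, e]
  rw [h2.tsum_add h3, tsum_odd (g := fun k => (c k * star (ee k x)).im), add_zero]
  intro k
  rw [hs, H459R3.NS.ee_neg]
  simp only [Complex.mul_im, Complex.star_def, Complex.conj_re, Complex.conj_im]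
  ring

theorem im_S {c : K3 → ℂ} (hc : Summable c) (hs : ∀ k, c (-k) = star (c k)) (x : V) : (S c x).im = 0 := by
  have h1 := H459R3.NS.summable_term hc x
  unfold H459R3.NS.S
  rw [← Complex.imCLM_apply, Complex.imCLM.map_tsum h1]
  simp only [Complex.imCLM_apply]
  apply tsum_odd
  intro k
  rw [hs, H459R3.NS.ee_neg]
  simp only [Complex.mul_im, Complex.star_def, Complex.conj_re, Complex.conj_im]
  ring

/-- **Inversion.** -/
theorem syn_ha {f : V → ℝ} (hf : SP f) (x : V) : syn (ha f) x = f x := by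
  have h1 := re_S (H459R3.NS.rap_fr hf).summable (fr_neg' f) x
  rw [H459R3.NS.S_fr hf] at h1
  exact h1.symm

theorem ext_ha {f g : V → ℝ} (hf : SP f) (hg : SP g) (h : ∀ k, ha f k = ha g k) : f = g := by
  funext x
  rw [← syn_ha hf, ← syn_ha hg]
  exact tsum_congr fun k => by rw [h k]

/-- the Fourier coefficients of a Hartley series -/
noncomputable def cx (h : K3 → ℝ) (k : K3) : ℂ := ⟨(h k + h (-k)) / 2, (h (-k) - h k) / 2⟩

theorem cx_summable {h : K3 → ℝ} (hh : Summable fun k => |h k|) : Summable (cx h) := by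
  have h2 : Summable fun k => |h (-k)| := ((Equiv.neg K3).summable_iff (f := fun k => |h k|)).2 hh
  refine Summable.of_norm_bounded ((hh.add h2).mul_left 2) fun k => ?_
  refine (Complex.norm_le_abs_re_add_abs_im _).trans ?_
  unfold cx
  simp only
  rw [abs_div, abs_div, abs_two]
  have a1 := abs_add_le (h k) (h (-k))
  have a2 : |h (-k) - h k| ≤ |h (-k)| + |h k| := abs_sub _ _
  have a3 := abs_nonneg (h k)
  have a4 := abs_nonneg (h (-k))
  linarith

theorem cx_neg (h : K3 → ℝ) (k : K3) : cx h (-k) = star (cx h k) := by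
  apply Complex.ext
  · simp only [cx, neg_neg, Complex.star_def, Complex.conj_re]; ring
  · simp only [cx, neg_neg, Complex.star_def, Complex.conj_im]; ring

theorem cx_sub (h : K3 → ℝ) (k : K3) : (cx h k).re - (cx h k).im = h k := by
  simp only [cx]; ring

theorem S_cx {h : K3 → ℝ} (hh : Summable fun k => |h k|) (x : V) : S (cx h) x = ((syn h x : ℝ) : ℂ) := by
  apply Complex.ext
  · rw [re_S (cx_summable hh) (cx_neg h)]
    simp only [cx_sub, Complex.ofReal_re]
    rfl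
  · rw [im_S (cx_summable hh) (cx_neg h), Complex.ofReal_im]

theorem fr_syn {h : K3 → ℝ} (hh : Summable fun k => |h k|) (k : K3) : fr (syn h) k = cx h k := by
  have h1 := H459R3.NS.integral_ee_S (-k) (cx_summable hh)
  rw [neg_neg] at h1
  unfold H459R3.NS.fr H459R3.NS.fc
  rw [← h1]
  congr 1
  funext x
  rw [S_cx hh]

theorem ha_syn {h : K3 → ℝ} (hh : Summable fun k => |h k|) (k : K3) : ha (syn h) k = h k := by
  unfold ha
  rw [fr_syn hh, cx_sub]

theorem RD.summable_abs {ι : Type*} {μ : ι → ℝ} (hμ : Wt μ) {h : ι → ℝ} (hh : RD μ h) : Summable fun k => |h k| := by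
  obtain ⟨r, hr⟩ := hμ.summ
  obtain ⟨B, hB⟩ := hh r
  refine Summable.of_nonneg_of_le (fun k => abs_nonneg _) (fun k => ?_) (hr.mul_left B)
  have h1 := hB k
  have h2 : 0 < μ k ^ r := pow_pos (hμ.pos k) r
  rw [← div_eq_mul_inv, le_div_iff₀ h2]
  linarith

/-- coefficients of derivatives -/
theorem ha_pd {f : V → ℝ} (hf : SP f) (j : Fin 3) (k : K3) : ha (pd j f) k = -(2 * Real.pi * k j) * ha f (-k) := by
  unfold ha
  rw [H459R3.NS.fr_pd hf, fr_neg']
  unfold H459R3.NS.D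
  simp only [Complex.mul_re, Complex.mul_im, Complex.star_def, Complex.conj_re, Complex.conj_im,
    Complex.ofReal_re, Complex.ofReal_im, Complex.I_re, Complex.I_im, Complex.intCast_re, Complex.intCast_im,
    Complex.re_ofNat, Complex.im_ofNat]
  ring

/-- **Parseval.** -/
theorem int_mul {f g : V → ℝ} (hf : SP f) (hg : SP g) :
    ∫ x in cube, f x * g x = ∑' k, ha f k * ha g k := by
  have hgc : Continuous fun x => ((g x : ℝ) : ℂ) := Complex.continuous_ofReal.comp hg.cont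
  have h1 := H459R3.NS.integral_S_mul (H459R3.NS.rap_fr hf).summable hgc
  have e1 : ∀ k, (∫ x in cube, ee k x * ((g x : ℝ) : ℂ)) = star (fr g k) := by
    intro k
    rw [← fr_neg']
    unfold H459R3.NS.fr H459R3.NS.fc
    rw [neg_neg]
  simp_rw [e1, H459R3.NS.S_fr hf] at h1
  have h2 : (∫ x in cube, ((f x : ℝ) : ℂ) * ((g x : ℝ) : ℂ)) = ((∫ x in cube, f x * g x : ℝ) : ℂ) := by
    refine Eq.trans ?_ (integral_ofReal (𝕜 := ℂ) (μ := volume.restrict cube) (f := fun x => f x * g x))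
    congr 1; funext x; push_cast; rfl
  rw [h2] at h1
  have h3 := Complex.hasSum_re h1
  rw [Complex.ofReal_re] at h3
  have hF : Summable fun k => ‖fr f k‖ := (H459R3.NS.rap_fr hf).summable.norm
  obtain ⟨Cg, hCg⟩ := H459R3.NS.norm_fr_le hg
  have hodd : Summable fun k => (fr f k).re * (fr g k).im + (fr f k).im * (fr g k).re := by
    refine Summable.of_norm_bounded (hF.mul_left (2 * Cg)) fun k => ?_
    rw [Real.norm_eq_abs]
    refine (abs_add_le _ _).trans ?_
    rw [abs_mul, abs_mul]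
    have a1 := Complex.abs_re_le_norm (fr f k)
    have a2 := Complex.abs_im_le_norm (fr f k)
    have a3 := (Complex.abs_re_le_norm (fr g k)).trans (hCg k)
    have a4 := (Complex.abs_im_le_norm (fr g k)).trans (hCg k)
    have b1 := mul_le_mul a1 a4 (abs_nonneg _) (norm_nonneg _)
    have b2 := mul_le_mul a2 a3 (abs_nonneg _) (norm_nonneg _)
    linarith
  rw [← h3.tsum_eq, ← add_zero (∑' k, (fr f k * star (fr g k)).re), ← neg_zero,
    ← tsum_odd (g := fun k => (fr f k).re * (fr g k).im + (fr f k).im * (fr g k).re), ← sub_eq_add_neg,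
    ← h3.summable.tsum_sub hodd]
  · refine tsum_congr fun k => ?_
    unfold ha
    simp only [Complex.mul_re, Complex.star_def, Complex.conj_re, Complex.conj_im]
    ring
  · intro k
    rw [fr_neg', fr_neg']
    simp only [Complex.star_def, Complex.conj_re, Complex.conj_im]
    ring

/-! ### decay and smoothness -/

theorem ha_unif {T : ℝ} {u : ℝ → V → ℝ} (hu : Ev.SF T u) {b : ℝ} (hb : b < T) (m : ℕ) :
    ∃ B : ℝ, ∀ t ∈ Icc 0 b, ∀ k, mk k ^ m * |ha (u t) k| ≤ B := by
  obtain ⟨C0, hC0, h0⟩ := hu.fr_bound hb 0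
  obtain ⟨C1, hC1, h1⟩ := hu.fr_bound hb m
  refine ⟨2 * (2 ^ m * (12 ^ m * C1 + C0)), fun t ht k => ?_⟩
  have a0 := h0 t ht k
  have a1 := h1 t ht k
  rw [pow_zero, one_mul] at a0
  have hN : (0 : ℝ) ≤ N k := by positivity
  have h2 : mk k ^ m ≤ 2 ^ m * (12 ^ m * (N k : ℝ) ^ m + 1) := by
    refine (pow_le_pow_left₀ (mk_pos k).le (mk_le k) m).trans ?_
    rcases le_total (12 * (N k : ℝ)) 1 with h | h
    · have h3 : (12 * (N k : ℝ) + 1) ^ m ≤ 2 ^ m := pow_le_pow_left₀ (by positivity) (by linarith) m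
      have h4 : (0 : ℝ) ≤ 2 ^ m * (12 ^ m * (N k : ℝ) ^ m) := by positivity
      nlinarith
    · have h3 : (12 * (N k : ℝ) + 1) ^ m ≤ (2 * (12 * (N k : ℝ))) ^ m :=
        pow_le_pow_left₀ (by positivity) (by linarith) m
      rw [mul_pow, mul_pow] at h3
      have h4 : (0 : ℝ) ≤ 2 ^ m := by positivity
      nlinarith
  have h3 := abs_ha_le (u t) k
  calc mk k ^ m * |ha (u t) k| ≤ (2 ^ m * (12 ^ m * (N k : ℝ) ^ m + 1)) * (2 * ‖fr (u t) k‖) :=
        mul_le_mul h2 h3 (abs_nonneg _) (by positivity)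
    _ = 2 * (2 ^ m * (12 ^ m * ((N k : ℝ) ^ m * ‖fr (u t) k‖) + ‖fr (u t) k‖)) := by ring
    _ ≤ _ := by gcongr

theorem rd_ha {f : V → ℝ} (hf : SP f) : RD mk (ha f) := by
  have hu : Ev.SF 2 fun (_ : ℝ) x => f x := ⟨(hf.smooth.comp contDiff_snd).contDiffOn, fun _ _ => hf.per⟩
  intro m
  obtain ⟨B, hB⟩ := ha_unif hu (b := 1) (by norm_num) m
  exact ⟨B, fun k => hB 0 ⟨le_rfl, zero_le_one⟩ k⟩

theorem pw_le (k : K3) : pw k ≤ 4 * mk k := by
  unfold Pool.Agent.K1H11.NS.pw Pool.Agent.K1H11.NS.l1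
  have h1 := one_le_mk k
  have h : ∀ j, |(k j : ℝ)| ≤ mk k := fun j => by
    have h1 := abs_le_mk k j
    have h2 := Real.pi_gt_three
    have h3 := abs_nonneg (k j : ℝ)
    nlinarith
  rw [Fin.sum_univ_three]
  linarith [h 0, h 1, h 2]

theorem ex_eq (k : K3) (x : V) : ex k x = ee k x := by
  unfold Pool.Agent.K1H11.NS.ex H459R3.NS.ee H459R3.NS.ph
  push_cast
  rfl

/-- the complex family of a real family -/
noncomputable def fam (h : ℝ → K3 → ℝ) : SFam := fun k t => (1 - Complex.I) * ((h t k : ℝ) : ℂ)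

theorem norm_oneI : ‖(1 - Complex.I : ℂ)‖ ≤ 2 := by
  refine (norm_sub_le _ _).trans ?_
  rw [norm_one, Complex.norm_I]; norm_num

theorem fam_RD {h : ℝ → K3 → ℝ} (hh : RDt mk h) : Pool.Agent.K1H11.NS.RD (fam h) := by
  intro m
  obtain ⟨r, hr⟩ := wt_mk.summ
  obtain ⟨B, hB⟩ := hh (m + r)
  refine ⟨fun k => 4 ^ m * 2 * B * (mk k ^ r)⁻¹, hr.mul_left _, fun k t => ?_⟩
  unfold fam
  rw [norm_mul, Complex.norm_real, Real.norm_eq_abs]
  have h1 : pw k ^ m ≤ 4 ^ m * mk k ^ m := by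
    rw [← mul_pow]
    refine pow_le_pow_left₀ ?_ (pw_le k) m
    exact (Pool.Agent.K1H11.NS.pw_pos k).le
  have h2 := hB t k
  have h3 : 0 < mk k ^ r := pow_pos (mk_pos k) r
  have h4 : mk k ^ m * |h t k| ≤ B * (mk k ^ r)⁻¹ := by
    rw [← div_eq_mul_inv, le_div_iff₀ h3]
    calc mk k ^ m * |h t k| * mk k ^ r = mk k ^ (m + r) * |h t k| := by rw [pow_add]; ring
      _ ≤ B := h2
  have h5 := mk_pos k
  calc pw k ^ m * (‖(1 - Complex.I : ℂ)‖ * |h t k|) ≤ (4 ^ m * mk k ^ m) * (2 * |h t k|) := by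
        have := norm_oneI
        gcongr
    _ = 4 ^ m * 2 * (mk k ^ m * |h t k|) := by ring
    _ ≤ 4 ^ m * 2 * (B * (mk k ^ r)⁻¹) := by gcongr
    _ = _ := by ring

theorem fam_TT {n : ℕ} : ∀ {h : ℝ → K3 → ℝ}, Tn mk n h → TT n (fam h) := by
  induction n with
  | zero =>
    intro h hh
    exact ⟨fam_RD hh.1, fun k => continuous_const.mul (Complex.continuous_ofReal.comp (hh.2 k))⟩
  | succ n ih =>
    intro h hh
    obtain ⟨h1, h2, h', h3, h4⟩ := hh
    exact ⟨fam_RD h1, fun k => continuous_const.mul (Complex.continuous_ofReal.comp (h2 k)), fam h',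
      fun k t ht => ((h3 k t ht).ofReal_comp).const_mul _, ih h4⟩

theorem GS_fam {h : ℝ → K3 → ℝ} (hh : RDt mk h) (t : ℝ) (x : V) : (GS 0 (fam h) t x).re = syn (h t) x := by
  have e1 : GS 0 (fam h) t x = ∑' k, fam h k t * ex k x := by
    unfold Pool.Agent.K1H11.NS.GS Pool.Agent.K1H11.NS.SF
    simp only [smul_zero, sub_zero]
  have hs : Summable fun k => fam h k t * ex k x := by
    obtain ⟨b, hb, hb'⟩ := (fam_RD hh).summ
    refine Summable.of_norm_bounded hb fun k => ?_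
    rw [norm_mul, Pool.Agent.K1H11.NS.norm_ex, mul_one]
    exact hb' k t
  rw [e1, ← Complex.reCLM_apply, Complex.reCLM.map_tsum hs]
  refine tsum_congr fun k => ?_
  rw [Complex.reCLM_apply, ex_eq]
  unfold fam cas
  simp only [Complex.mul_re, Complex.mul_im, Complex.sub_re, Complex.sub_im, Complex.one_re, Complex.one_im,
    Complex.I_re, Complex.I_im, Complex.ofReal_re, Complex.ofReal_im]
  ring

/-- **Joint smoothness of the series.** -/
theorem smooth_syn {h : ℝ → K3 → ℝ} (hh : ∀ n, Tn mk n h) :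
    ContDiffOn ℝ ∞ (fun z : ℝ × V => syn (h z.1) z.2) (Ici 0 ×ˢ univ) := by
  refine (Pool.Agent.K1H11.NS.GS_smooth_re 0 fun n => fam_TT (hh n)).congr fun z _ => ?_
  exact (GS_fam (hh 0).1 z.1 z.2).symm

theorem const_Tn {ι : Type*} {μ : ι → ℝ} {h : ι → ℝ} (hh : RD μ h) (n : ℕ) : Tn μ n fun _ => h := by
  have h0 : ∀ n, Tn μ n (fun (_ : ℝ) (_ : ι) => (0 : ℝ)) := by
    have hz : RDt μ fun (_ : ℝ) (_ : ι) => (0 : ℝ) := fun m => ⟨0, fun t i => by simp⟩
    intro n
    induction n with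
    | zero => exact ⟨hz, fun i => continuous_const⟩
    | succ n ih => exact ⟨hz, fun i => continuous_const, _, fun i t _ => hasDerivAt_const _ _, ih⟩
  have hr : RDt μ fun (_ : ℝ) => h := fun m => by
    obtain ⟨B, hB⟩ := hh m
    exact ⟨B, fun _ i => hB i⟩
  cases n with
  | zero => exact ⟨hr, fun i => continuous_const⟩
  | succ n => exact ⟨hr, fun i => continuous_const, _, fun i t _ => hasDerivAt_const _ _, h0 n⟩

theorem cas_per (k : K3) : Per (cas k) := by
  intro i x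
  unfold cas
  rw [H459R3.NS.ee_per k i x]

theorem syn_per (h : K3 → ℝ) : Per (syn h) := by
  intro i x
  unfold syn
  exact tsum_congr fun k => by rw [cas_per k i x]

theorem sp_syn {h : K3 → ℝ} (hh : RD mk h) : SP (syn h) := by
  refine ⟨?_, syn_per h⟩
  have h1 := smooth_syn (fun n => const_Tn hh n)
  rw [← contDiffOn_univ]
  exact h1.comp (f := fun x : V => ((1, x) : ℝ × V)) (by fun_prop) fun x _ =>
    ⟨mem_Ici.2 (zero_le_one (α := ℝ)), mem_univ _⟩

/-- differentiation in time -/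
theorem syn_deriv {h h' : ℝ → K3 → ℝ} (hh : RDt mk h) (hh' : RDt mk h')
    (hd : ∀ k t, 0 < t → HasDerivAt (fun t => h t k) (h' t k) t) {t : ℝ} (ht : 0 < t) (x : V) :
    HasDerivAt (fun t => syn (h t) x) (syn (h' t) x) t := by
  obtain ⟨r, hr⟩ := wt_mk.summ
  obtain ⟨B, hB⟩ := hh' r
  refine hasDerivAt_tsum_of_isPreconnected (t := Ioi (0 : ℝ)) (u := fun k => 2 * B * (mk k ^ r)⁻¹)
    (g := fun k s => h s k * cas k x) (g' := fun k s => h' s k * cas k x)
    (hr.mul_left _) isOpen_Ioi isPreconnected_Ioi (fun k s hs => (hd k s hs).mul_const _)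
    (fun k s hs => ?_) (y₀ := t) ht (summable_cas ((hh.at t).summable_abs wt_mk) x) ht
  rw [Real.norm_eq_abs, abs_mul]
  have h3 : 0 < mk k ^ r := pow_pos (mk_pos k) r
  have h4 : |h' s k| ≤ B * (mk k ^ r)⁻¹ := by
    rw [← div_eq_mul_inv, le_div_iff₀ h3, mul_comm]
    exact hB s k
  calc |h' s k| * |cas k x| ≤ (B * (mk k ^ r)⁻¹) * 2 :=
        mul_le_mul h4 (abs_cas_le k x) (abs_nonneg _) ((abs_nonneg _).trans h4)
    _ = _ := by ring

end Pool.Agent.H39.Lions
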