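import Pool.Agent.H39.Lions.Glob

/-!
# Regularity in time
-/

open Set Filter Topology Metric
open scoped ContDiff NNReal

namespace Pool.Agent.H39.Lions

variable {ι : Type*} {μ : ι → ℝ} {C : (ι → ℝ) → (ι → ℝ) → ι → ℝ}

/-- rapidly decreasing, uniformly in time -/
def RDt (μ : ι → ℝ) (a : ℝ → ι → ℝ) : Prop := ∀ m : ℕ, ∃ B : ℝ, ∀ t i, μ i ^ m * |a t i| ≤ B

/-- `n` times differentiable families -/
def Tn (μ : ι → ℝ) : ℕ → (ℝ → ι → ℝ) → Prop
  | 0, a => RDt μ a ∧ ∀ i, Continuous fun t => a t i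
  | n + 1, a => RDt μ a ∧ (∀ i, Continuous fun t => a t i) ∧
      ∃ a' : ℝ → ι → ℝ, (∀ i t, 0 < t → HasDerivAt (fun t => a t i) (a' t i) t) ∧ Tn μ n a'

theorem RDt.at {a : ℝ → ι → ℝ} (h : RDt μ a) (t : ℝ) : RD μ (a t) := fun m => by
  obtain ⟨B, hB⟩ := h m
  exact ⟨B, hB t⟩

theorem RDt.ub {a : ℝ → ι → ℝ} (h : RDt μ a) (l : Filter ℝ) : UB μ l a := fun m => by
  obtain ⟨B, hB⟩ := h m
  exact ⟨B, Eventually.of_forall hB⟩

theorem RDt.add (hμ : Wt μ) {a b : ℝ → ι → ℝ} (ha : RDt μ a) (hb : RDt μ b) : RDt μ fun t i => a t i + b t i := by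
  intro m
  obtain ⟨B, hB⟩ := ha m
  obtain ⟨B', hB'⟩ := hb m
  refine ⟨B + B', fun t i => ?_⟩
  have h0 : 0 ≤ μ i ^ m := (pow_pos (hμ.pos i) m).le
  have := mul_le_mul_of_nonneg_left (abs_add_le (a t i) (b t i)) h0
  have := hB t i
  have := hB' t i
  linarith

theorem RDt.fac (hμ : Wt μ) {a : ℝ → ι → ℝ} (ha : RDt μ a) {p : ι → ℝ} {A : ℝ} {r : ℕ}
    (hp : ∀ i, |p i| ≤ A * μ i ^ r) : RDt μ fun t i => p i * a t i := by
  intro m
  obtain ⟨B, hB⟩ := ha (m + r)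
  refine ⟨|A| * |B|, fun t i => ?_⟩
  have h0 : 0 < μ i := hμ.pos i
  rw [abs_mul]
  have h1 : |p i| ≤ |A| * μ i ^ r := (hp i).trans (mul_le_mul_of_nonneg_right (le_abs_self A) (by positivity))
  calc μ i ^ m * (|p i| * |a t i|) ≤ μ i ^ m * ((|A| * μ i ^ r) * |a t i|) := by gcongr
    _ = |A| * (μ i ^ (m + r) * |a t i|) := by rw [pow_add]; ring
    _ ≤ |A| * |B| := mul_le_mul_of_nonneg_left ((hB t i).trans (le_abs_self B)) (abs_nonneg _)

theorem Tn.rd : ∀ {n : ℕ} {a : ℝ → ι → ℝ}, Tn μ n a → RDt μ a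
  | 0, _, h => h.1
  | _ + 1, _, h => h.1

theorem Tn.ct : ∀ {n : ℕ} {a : ℝ → ι → ℝ}, Tn μ n a → ∀ i, Continuous fun t => a t i
  | 0, _, h => h.2
  | _ + 1, _, h => h.2.1

theorem Tn.pred : ∀ {n : ℕ} {a : ℝ → ι → ℝ}, Tn μ (n + 1) a → Tn μ n a := by
  intro n
  induction n with
  | zero => intro a h; exact ⟨h.1, h.2.1⟩
  | succ n ih =>
    intro a h
    obtain ⟨h1, h2, a', h3, h4⟩ := h
    exact ⟨h1, h2, a', h3, ih h4⟩

theorem Tn.add (hμ : Wt μ) {n : ℕ} : ∀ {a b : ℝ → ι → ℝ}, Tn μ n a → Tn μ n b → Tn μ n (fun t i => a t i + b t i) := by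
  induction n with
  | zero => intro a b ha hb; exact ⟨ha.1.add hμ hb.1, fun i => (ha.2 i).add (hb.2 i)⟩
  | succ n ih =>
    intro a b ha hb
    obtain ⟨h1, h2, a', h3, h4⟩ := ha
    obtain ⟨g1, g2, b', g3, g4⟩ := hb
    exact ⟨h1.add hμ g1, fun i => (h2 i).add (g2 i), _, fun i t ht => (h3 i t ht).fun_add (g3 i t ht), ih h4 g4⟩

theorem Tn.fac (hμ : Wt μ) {n : ℕ} {p : ι → ℝ} {A : ℝ} {r : ℕ} (hp : ∀ i, |p i| ≤ A * μ i ^ r) :
    ∀ {a : ℝ → ι → ℝ}, Tn μ n a → Tn μ n (fun t i => p i * a t i) := by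
  induction n with
  | zero => intro a ha; exact ⟨ha.1.fac hμ hp, fun i => continuous_const.mul (ha.2 i)⟩
  | succ n ih =>
    intro a ha
    obtain ⟨h1, h2, a', h3, h4⟩ := ha
    exact ⟨h1.fac hμ hp, fun i => continuous_const.mul (h2 i), _, fun i t ht => (h3 i t ht).const_mul (p i), ih h4⟩

theorem RDt.bil (hμ : Wt μ) (hC : Bil μ C) {a b : ℝ → ι → ℝ} (ha : RDt μ a) (hb : RDt μ b) :
    RDt μ fun t => C (a t) (b t) := by
  intro m
  obtain ⟨m', h⟩ := hC.unif hμ m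
  obtain ⟨A, hA⟩ := ha m'
  obtain ⟨A', hA'⟩ := hb m'
  obtain ⟨B, hB⟩ := h A A'
  exact ⟨B, fun t i => hB (a t) (b t) (ha.at t) (hb.at t) (hA t) (hA' t) i⟩

theorem cont_bil (hμ : Wt μ) (hC : Bil μ C) {a b : ℝ → ι → ℝ} (ha : RDt μ a) (hb : RDt μ b)
    (hac : ∀ i, Continuous fun t => a t i) (hbc : ∀ i, Continuous fun t => b t i) (i : ι) :
    Continuous fun t => C (a t) (b t) i := by
  rw [continuous_iff_continuousAt]
  intro t
  exact tend_C hμ hC ha.at hb.at (ha.ub _) (hb.ub _) (ha.at t) (hb.at t) (fun i => (hac i).tendsto t)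
    (fun i => (hbc i).tendsto t) i

/-- slopes are uniformly bounded -/
theorem ub_slope (hμ : Wt μ) {a a' : ℝ → ι → ℝ} (ha' : RDt μ a')
    (hd : ∀ i t, 0 < t → HasDerivAt (fun t => a t i) (a' t i) t) {t : ℝ} (ht : 0 < t) :
    UB μ (𝓝[≠] t) fun t' i => (t' - t)⁻¹ * (a t' i - a t i) := by
  intro m
  obtain ⟨B, hB⟩ := ha' m
  refine ⟨B, ?_⟩
  have h1 : ∀ᶠ t' in 𝓝[≠] t, 0 < t' := (lt_mem_nhds ht).filter_mono nhdsWithin_le_nhds
  filter_upwards [h1, self_mem_nhdsWithin] with t' ht' hne i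
  have hne' : t' - t ≠ 0 := sub_ne_zero.2 hne
  have p0 : 0 < μ i ^ m := pow_pos (hμ.pos i) m
  have h2 := Convex.norm_image_sub_le_of_norm_hasDerivWithin_le (s := Ioi (0 : ℝ))
    (f := fun s => a s i) (f' := fun t => a' t i) (C := B / μ i ^ m) (x := t) (y := t')
    (fun s hs => (hd i s hs).hasDerivWithinAt) (fun s _ => ?_) (convex_Ioi _) ht ht'
  · rw [Real.norm_eq_abs, Real.norm_eq_abs] at h2
    rw [abs_mul, abs_inv]
    have h3 : 0 < |t' - t| := abs_pos.2 hne'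
    calc μ i ^ m * (|t' - t|⁻¹ * |a t' i - a t i|) ≤ μ i ^ m * (|t' - t|⁻¹ * (B / μ i ^ m * |t' - t|)) := by
          gcongr
      _ = B := by field_simp
  · rw [Real.norm_eq_abs, le_div_iff₀ p0, mul_comm]
    exact hB s i

/-- **Product rule.** -/
theorem deriv_bil (hμ : Wt μ) (hC : Bil μ C) {a b a' b' : ℝ → ι → ℝ} (ha : RDt μ a) (hb : RDt μ b)
    (ha' : RDt μ a') (hb' : RDt μ b') (hbc : ∀ i, Continuous fun t => b t i)
    (h1 : ∀ i t, 0 < t → HasDerivAt (fun t => a t i) (a' t i) t)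
    (h2 : ∀ i t, 0 < t → HasDerivAt (fun t => b t i) (b' t i) t) (i : ι) {t : ℝ} (ht : 0 < t) :
    HasDerivAt (fun t => C (a t) (b t) i) (C (a' t) (b t) i + C (a t) (b' t) i) t := by
  rw [hasDerivAt_iff_tendsto_slope]
  have s1 : ∀ (a a' : ℝ → ι → ℝ), (∀ i t, 0 < t → HasDerivAt (fun t => a t i) (a' t i) t) → ∀ i,
      Tendsto (fun t' => (t' - t)⁻¹ * (a t' i - a t i)) (𝓝[≠] t) (𝓝 (a' t i)) := by
    intro a a' h i
    exact hasDerivAt_iff_tendsto_slope.1 (h i t ht)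
  have r1 : ∀ (a : ℝ → ι → ℝ), RDt μ a → ∀ t', RD μ fun i => (t' - t)⁻¹ * (a t' i - a t i) := fun a ha t' =>
    (RD.sub hμ (ha.at t') (ha.at t)).smul _
  have t1 := tend_C hμ hC (l := 𝓝[≠] t) (x := fun t' i => (t' - t)⁻¹ * (a t' i - a t i)) (y := fun t' => b t')
    (x' := a' t) (y' := b t) (r1 a ha) hb.at (ub_slope hμ ha' h1 ht) (hb.ub _) (ha'.at t) (hb.at t) (s1 a a' h1)
    (fun i => ((hbc i).tendsto t).mono_left nhdsWithin_le_nhds) i
  have t2 := tend_C hμ hC (l := 𝓝[≠] t) (x := fun _ => a t) (y := fun t' i => (t' - t)⁻¹ * (b t' i - b t i))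
    (x' := a t) (y' := b' t) (fun _ => ha.at t) (r1 b hb) (fun m => by
      obtain ⟨B, hB⟩ := ha.at t m
      exact ⟨B, Eventually.of_forall fun _ => hB⟩) (ub_slope hμ hb' h2 ht) (ha.at t) (hb'.at t)
    (fun i => tendsto_const_nhds) (s1 b b' h2) i
  refine (t1.add t2).congr' ?_
  filter_upwards [self_mem_nhdsWithin] with t' hne
  have e1 : C (fun i => (t' - t)⁻¹ * (a t' i - a t i)) (b t') i = (t' - t)⁻¹ * (C (a t') (b t') i - C (a t) (b t') i) := by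
    rw [hC.smul_left _ _ _ (RD.sub hμ (ha.at t') (ha.at t)) (hb.at t'), hC.sub_left (ha.at t') (ha.at t) (hb.at t')]
  have e2 : C (a t) (fun i => (t' - t)⁻¹ * (b t' i - b t i)) i = (t' - t)⁻¹ * (C (a t) (b t') i - C (a t) (b t) i) := by
    rw [hC.smul_right _ _ _ (ha.at t) (RD.sub hμ (hb.at t') (hb.at t)), hC.sub_right (ha.at t) (hb.at t') (hb.at t)]
  simp only [e1, e2]
  rw [slope_def_field]
  field_simp
  ring

theorem Tn.bil (hμ : Wt μ) (hC : Bil μ C) {n : ℕ} : ∀ {a b : ℝ → ι → ℝ}, Tn μ n a → Tn μ n b →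
    Tn μ n (fun t => C (a t) (b t)) := by
  induction n with
  | zero => intro a b ha hb; exact ⟨ha.1.bil hμ hC hb.1, cont_bil hμ hC ha.1 hb.1 ha.2 hb.2⟩
  | succ n ih =>
    intro a b ha hb
    have ha0 := ha.pred
    have hb0 := hb.pred
    obtain ⟨h1, h2, a', h3, h4⟩ := ha
    obtain ⟨g1, g2, b', g3, g4⟩ := hb
    refine ⟨h1.bil hμ hC g1, cont_bil hμ hC h1 g1 h2 g2, fun t i => C (a' t) (b t) i + C (a t) (b' t) i,
      fun i t ht => ?_, (ih h4 hb0).add hμ (ih ha0 g4)⟩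
    exact deriv_bil hμ hC h1 g1 h4.rd g4.rd g2 h3 g3 i ht

/-- **Global solutions, differentiable in time to all orders.** -/
theorem exists_smooth (hμ : Wt μ) (hC : Bil μ C) (hE : ∀ x, RD μ x → ∑' i, C x x i * x i = 0) {ν s : ℝ}
    (hν : 0 < ν) (hs : 5 / 4 ≤ s) {x0 : ι → ℝ} (h0 : RD μ x0) :
    ∃ X : ℝ → ι → ℝ, X 0 = x0 ∧ (∀ n, Tn μ n X) ∧
      ∀ t, 0 < t → ∀ i, HasDerivAt (fun s => X s i) (-(ν * μ i ^ (2 * s)) * X t i + C (X t) (X t) i) t := by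
  obtain ⟨Y, hY0, hYB, hYd⟩ := exists_global hμ hC hE hν hs h0
  set X : ℝ → ι → ℝ := fun t => Y (max t 0) with hX
  have hXrd : RDt μ X := fun m => by
    obtain ⟨B, hB⟩ := hYB m
    exact ⟨B, fun t i => hB _ (le_max_right _ _) i⟩
  have hXc : ∀ i, Continuous fun t => X t i := by
    intro i
    have h1 : ContinuousOn (fun t => Y t i) (Ici 0) := fun t ht => (hYd t ht i).continuousWithinAt
    exact h1.comp_continuous (continuous_id.max continuous_const) fun t => mem_Ici.2 (le_max_right _ _)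
  have hXd : ∀ t, 0 < t → ∀ i, HasDerivAt (fun s => X s i) (-(ν * μ i ^ (2 * s)) * X t i + C (X t) (X t) i) t := by
    intro t ht i
    have h1 := (hYd t ht.le i).hasDerivAt (Ici_mem_nhds ht)
    have h2 : (fun s => X s i) =ᶠ[𝓝 t] fun s => Y s i := by
      filter_upwards [lt_mem_nhds ht] with s hs
      simp only [hX, max_eq_left hs.le]
    have h3 : X t = Y t := by simp only [hX, max_eq_left ht.le]
    rw [h3]
    exact h1.congr_of_eventuallyEq h2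
  obtain ⟨r, hr⟩ := exists_nat_ge (2 * s)
  have hp : ∀ i, |-(ν * μ i ^ (2 * s))| ≤ ν * μ i ^ r := by
    intro i
    rw [abs_neg, abs_of_pos (mul_pos hν (hμ.rpow_pos i _)), ← Real.rpow_natCast]
    exact mul_le_mul_of_nonneg_left (Real.rpow_le_rpow_of_exponent_le (hμ.one i) hr) hν.le
  refine ⟨X, by simp only [hX, max_self]; exact hY0, fun n => ?_, hXd⟩
  induction n with
  | zero => exact ⟨hXrd, hXc⟩
  | succ n ih =>
    exact ⟨hXrd, hXc, fun t i => -(ν * μ i ^ (2 * s)) * X t i + C (X t) (X t) i, fun i t ht => hXd t ht i,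
      (ih.fac hμ hp).add hμ (ih.bil hμ hC ih)⟩

end Pool.Agent.H39.Lions
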