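import Pool.Agent.H39.Lions.Fld

/-!
# Lattice sums and the critical convolution inequality
-/

open MeasureTheory Set Filter Topology
open scoped ContDiff ENNReal

namespace Pool.Agent.H39.Lions

open H459R3.NS (V K3 Per cube SP pd lap ee fr S N)
open Pool.Agent.H39.PDE (fq)

/-- the box `|k_j| ≤ n` -/
noncomputable def box (n : ℕ) : Finset K3 := Fintype.piFinset fun _ => Finset.Icc (-(n : ℤ)) n

theorem mem_box {n : ℕ} {k : K3} : k ∈ box n ↔ N k ≤ n := by
  unfold box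
  rw [Fintype.mem_piFinset, H459R3.NS.N_le_iff]
  refine forall_congr' fun j => ?_
  rw [Finset.mem_Icc, abs_le]

theorem card_box (n : ℕ) : (box n).card = (2 * n + 1) ^ 3 := by
  unfold box
  rw [Fintype.card_piFinset]
  simp only [Int.card_Icc, Finset.prod_const, Finset.card_univ, Fintype.card_fin]
  congr 1
  omega

theorem box_mono (n : ℕ) : box n ⊆ box (n + 1) := fun k hk => by
  rw [mem_box] at hk ⊢
  omega

/-- one shell -/
theorem shell (δ : ℝ) (hδ : 0 ≤ δ) (n : ℕ) :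
    ∑ k ∈ box (n + 1), mk k ^ (-δ) ≤ ∑ k ∈ box n, mk k ^ (-δ) + 26 * ((n : ℝ) + 1) ^ 2 * ((n : ℝ) + 1) ^ (-δ) := by
  classical
  rw [← Finset.sum_sdiff (box_mono n), add_comm]
  refine add_le_add le_rfl ?_
  have h1 : ∀ k ∈ box (n + 1) \ box n, mk k ^ (-δ) ≤ ((n : ℝ) + 1) ^ (-δ) := by
    intro k hk
    rw [Finset.mem_sdiff, mem_box, mem_box] at hk
    have h2 : (n : ℝ) + 1 ≤ N k := by
      have : n + 1 ≤ N k := by omega
      exact_mod_cast this
    exact Real.rpow_le_rpow_of_nonpos (by positivity) (h2.trans (N_le_mk k)) (by linarith)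
  refine (Finset.sum_le_sum h1).trans ?_
  rw [Finset.sum_const, nsmul_eq_mul]
  apply mul_le_mul_of_nonneg_right _ (Real.rpow_nonneg (by positivity) _)
  rw [Finset.card_sdiff_of_subset (box_mono n), card_box, card_box]
  have h3 : (2 * n + 1) ^ 3 ≤ (2 * (n + 1) + 1) ^ 3 := Nat.pow_le_pow_left (by omega) 3
  rw [Nat.cast_sub h3]
  push_cast
  have hn : (0 : ℝ) ≤ n := Nat.cast_nonneg n
  nlinarith [sq_nonneg (n : ℝ)]

theorem sum_box_a (n : ℕ) : ∑ k ∈ box n, mk k ^ (-(5 / 2) : ℝ) ≤ 1 + 52 * Real.sqrt n := by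
  induction n with
  | zero =>
    have : box 0 = {0} := by
      ext k
      rw [mem_box, Nat.le_zero, H459R3.NS.N_eq_zero, Finset.mem_singleton]
    rw [this, Finset.sum_singleton, mk_zero]
    simp
  | succ n ih =>
    refine (shell (5 / 2) (by norm_num) n).trans ?_
    push_cast
    have hn : (0 : ℝ) ≤ n := Nat.cast_nonneg n
    have hp : (0 : ℝ) < (n : ℝ) + 1 := by positivity
    set a := Real.sqrt ((n : ℝ) + 1) with ha
    set b := Real.sqrt (n : ℝ) with hb
    have ha2 : a ^ 2 = (n : ℝ) + 1 := Real.sq_sqrt hp.le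
    have hb2 : b ^ 2 = n := Real.sq_sqrt hn
    have ha0 : 0 < a := Real.sqrt_pos.2 hp
    have hb0 : 0 ≤ b := Real.sqrt_nonneg _
    have hab : b ≤ a := Real.sqrt_le_sqrt (by linarith)
    have e : ((n : ℝ) + 1) ^ 2 * ((n : ℝ) + 1) ^ (-(5 / 2) : ℝ) = a⁻¹ := by
      rw [ha, Real.sqrt_eq_rpow, ← Real.rpow_neg hp.le, ← Real.rpow_natCast, ← Real.rpow_add hp]
      norm_num
    rw [mul_assoc 26, e]
    have h1 : 26 * a⁻¹ ≤ 52 * (a - b) := by
      rw [← div_eq_mul_inv, div_le_iff₀ ha0]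
      nlinarith
    linarith

theorem sum_box_b (n : ℕ) : ∑ k ∈ box n, mk k ^ (-(1 / 2) : ℝ) ≤ 1 + 26 * (n : ℝ) ^ (5 / 2 : ℝ) := by
  induction n with
  | zero =>
    have : box 0 = {0} := by
      ext k
      rw [mem_box, Nat.le_zero, H459R3.NS.N_eq_zero, Finset.mem_singleton]
    rw [this, Finset.sum_singleton, mk_zero]
    simp
  | succ n ih =>
    refine (shell (1 / 2) (by norm_num) n).trans ?_
    push_cast
    have hn : (0 : ℝ) ≤ n := Nat.cast_nonneg n
    have hp : (0 : ℝ) < (n : ℝ) + 1 := by positivity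
    have e : ((n : ℝ) + 1) ^ 2 * ((n : ℝ) + 1) ^ (-(1 / 2) : ℝ) = ((n : ℝ) + 1) ^ (3 / 2 : ℝ) := by
      rw [← Real.rpow_natCast, ← Real.rpow_add hp]
      norm_num
    rw [mul_assoc 26, e]
    have e2 : ((n : ℝ) + 1) ^ (5 / 2 : ℝ) = ((n : ℝ) + 1) * ((n : ℝ) + 1) ^ (3 / 2 : ℝ) := by
      nth_rewrite 2 [← Real.rpow_one ((n : ℝ) + 1)]
      rw [← Real.rpow_add hp]
      norm_num
    have e3 : (n : ℝ) ^ (5 / 2 : ℝ) ≤ n * ((n : ℝ) + 1) ^ (3 / 2 : ℝ) := by
      rcases hn.eq_or_lt with h | h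
      · rw [← h, Real.zero_rpow (by norm_num), zero_mul]
      · have e4 : (n : ℝ) ^ (5 / 2 : ℝ) = n * (n : ℝ) ^ (3 / 2 : ℝ) := by
          nth_rewrite 2 [← Real.rpow_one (n : ℝ)]
          rw [← Real.rpow_add h]
          norm_num
        rw [e4]
        exact mul_le_mul_of_nonneg_left (Real.rpow_le_rpow hn (by linarith) (by norm_num)) hn
    rw [e2]
    linarith

/-- weights in extended reals -/
noncomputable def W (a : ℝ) (k : K3) : ℝ≥0∞ := ENNReal.ofReal (mk k ^ a)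

theorem W_mul (a b : ℝ) (k : K3) : W a k * W b k = W (a + b) k := by
  unfold W
  rw [← ENNReal.ofReal_mul (Real.rpow_nonneg (mk_pos k).le _), ← Real.rpow_add (mk_pos k)]

theorem W_sq (a : ℝ) (k : K3) : W a k ^ 2 = W (2 * a) k := by
  rw [sq, W_mul]; congr 1; ring

theorem W_zero (k : K3) : W 0 k = 1 := by
  unfold W
  rw [Real.rpow_zero, ENNReal.ofReal_one]

theorem sum_le_aux {δ γ K : ℝ} (h : ∀ n : ℕ, ∑ k ∈ box n, mk k ^ (-δ) ≤ 1 + K * (n : ℝ) ^ γ) (hK : 0 ≤ K) (hγ : 0 ≤ γ)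
    {R : ℝ} (hR : 1 ≤ R) :
    ∑' k : K3, (if mk k ≤ R then W (-δ) k else 0) ≤ ENNReal.ofReal ((1 + K) * R ^ γ) := by
  have hsub : ∀ k, k ∉ box ⌊R⌋₊ → (if mk k ≤ R then W (-δ) k else 0) = 0 := by
    intro k hk
    rw [if_neg]
    intro h1
    apply hk
    rw [mem_box]
    exact Nat.le_floor ((N_le_mk k).trans h1)
  rw [tsum_eq_sum hsub]
  calc ∑ k ∈ box ⌊R⌋₊, (if mk k ≤ R then W (-δ) k else 0) ≤ ∑ k ∈ box ⌊R⌋₊, W (-δ) k := by
        refine Finset.sum_le_sum fun k _ => ?_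
        split_ifs
        · exact le_rfl
        · simp
    _ = ENNReal.ofReal (∑ k ∈ box ⌊R⌋₊, mk k ^ (-δ)) := by
        rw [ENNReal.ofReal_sum_of_nonneg fun k _ => Real.rpow_nonneg (mk_pos k).le _]
        rfl
    _ ≤ _ := by
        apply ENNReal.ofReal_le_ofReal
        refine (h _).trans ?_
        have h1 : (⌊R⌋₊ : ℝ) ^ γ ≤ R ^ γ := Real.rpow_le_rpow (Nat.cast_nonneg _) (Nat.floor_le (by linarith)) hγ
        have h2 : 1 ≤ R ^ γ := Real.one_le_rpow hR hγ
        nlinarith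

theorem sum_a {R : ℝ} (hR : 1 ≤ R) :
    ∑' k : K3, (if mk k ≤ R then W (-(5 / 2)) k else 0) ≤ ENNReal.ofReal (53 * R ^ (1 / 2 : ℝ)) := by
  have := sum_le_aux (δ := 5 / 2) (γ := 1 / 2) (K := 52) (fun n => by
    rw [← Real.sqrt_eq_rpow]; exact sum_box_a n) (by norm_num) (by norm_num) hR
  refine this.trans (le_of_eq ?_)
  norm_num

theorem sum_b {R : ℝ} (hR : 1 ≤ R) :
    ∑' k : K3, (if mk k ≤ R then W (-(1 / 2)) k else 0) ≤ ENNReal.ofReal (53 * R ^ (5 / 2 : ℝ)) := by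
  refine (sum_le_aux (δ := 1 / 2) (γ := 5 / 2) (K := 26) sum_box_b (by norm_num) (by norm_num) hR).trans ?_
  apply ENNReal.ofReal_le_ofReal
  have : 0 ≤ R ^ (5 / 2 : ℝ) := Real.rpow_nonneg (by linarith) _
  nlinarith

/-- Cauchy–Schwarz -/
theorem cs_sq (f g : K3 → ℝ≥0∞) : (∑' i, f i * g i) ^ 2 ≤ (∑' i, f i ^ 2) * ∑' i, g i ^ 2 := by
  have h := H459R3.NS.enn_cs f g
  calc (∑' i, f i * g i) ^ 2 ≤ ((∑' i, f i ^ 2) ^ (1 / 2 : ℝ) * (∑' i, g i ^ 2) ^ (1 / 2 : ℝ)) ^ 2 :=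
        pow_le_pow_left' h 2
    _ = _ := by rw [mul_pow, H459R3.NS.enn_half_sq, H459R3.NS.enn_half_sq]

theorem add_sq_le' (a b : ℝ≥0∞) : (a + b) ^ 2 ≤ 4 * (a ^ 2 + b ^ 2) := by
  have h1 : a + b ≤ 2 * max a b := by
    rw [two_mul]; exact add_le_add (le_max_left _ _) (le_max_right _ _)
  calc (a + b) ^ 2 ≤ (2 * max a b) ^ 2 := pow_le_pow_left' h1 2
    _ = 4 * (max a b) ^ 2 := by rw [mul_pow]; norm_num
    _ ≤ 4 * (a ^ 2 + b ^ 2) := by
        gcongr
        rcases le_total a b with h | h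
        · rw [max_eq_right h]; exact le_add_self
        · rw [max_eq_left h]; exact le_self_add

/-- **The critical convolution inequality** on `ℤ³`. -/
theorem conv_ineq (α β : K3 → ℝ≥0∞) :
    ∑' r, (∑' p, (W (-(5 / 4)) p * α p) * (W (-(1 / 4)) (r - p) * β (r - p))) ^ 2 ≤
      424 * ((∑' p, α p ^ 2) * ∑' q, β q ^ 2) := by
  classical
  set A := ∑' p, α p ^ 2 with hA
  set B := ∑' p, β p ^ 2 with hB
  set h1 : K3 → K3 → ℝ≥0∞ := fun r p => if mk p ≤ mk (r - p) then W (-(5 / 4)) p * (W (-(1 / 4)) (r - p) * β (r - p)) else 0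
    with hh1
  set h2 : K3 → K3 → ℝ≥0∞ := fun r p => if mk (r - p) ≤ mk p then (W (-(5 / 4)) p * α p) * W (-(1 / 4)) (r - p) else 0
    with hh2
  have hsplit : ∀ r, ∑' p, (W (-(5 / 4)) p * α p) * (W (-(1 / 4)) (r - p) * β (r - p)) ≤
      ∑' p, α p * h1 r p + ∑' p, β (r - p) * h2 r p := by
    intro r
    rw [← ENNReal.tsum_add]
    refine ENNReal.tsum_le_tsum fun p => ?_
    rcases le_total (mk p) (mk (r - p)) with h | h
    · refine le_trans (le_of_eq ?_) le_self_add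
      simp only [hh1, if_pos h]
      ring
    · refine le_trans (le_of_eq ?_) le_add_self
      simp only [hh2, if_pos h]
      ring
  have hT1 : ∑' r, (∑' p, α p * h1 r p) ^ 2 ≤ A * (53 * B) := by
    calc ∑' r, (∑' p, α p * h1 r p) ^ 2 ≤ ∑' r, A * ∑' p, h1 r p ^ 2 := ENNReal.tsum_le_tsum fun r => cs_sq _ _
      _ = A * ∑' r, ∑' p, h1 r p ^ 2 := ENNReal.tsum_mul_left
      _ = A * ∑' p, ∑' r, h1 r p ^ 2 := by rw [ENNReal.tsum_comm]
      _ = A * ∑' p, ∑' q, h1 (q + p) p ^ 2 := by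
          congr 1
          refine tsum_congr fun p => ?_
          exact ((Equiv.addRight p).tsum_eq fun r => h1 r p ^ 2).symm
      _ = A * ∑' q, ∑' p, h1 (q + p) p ^ 2 := by rw [ENNReal.tsum_comm]
      _ ≤ A * ∑' q, 53 * β q ^ 2 := by
          refine mul_le_mul' le_rfl (ENNReal.tsum_le_tsum fun q => ?_)
          have e : ∀ p, h1 (q + p) p ^ 2 = (W (-(1 / 2)) q * β q ^ 2) * (if mk p ≤ mk q then W (-(5 / 2)) p else 0) := by
            intro p
            simp only [hh1, add_sub_cancel_right]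
            split_ifs
            · rw [mul_pow, mul_pow, W_sq, W_sq]
              norm_num
              ring
            · simp
          simp_rw [e]
          rw [ENNReal.tsum_mul_left]
          calc (W (-(1 / 2)) q * β q ^ 2) * ∑' p, (if mk p ≤ mk q then W (-(5 / 2)) p else 0) ≤
              (W (-(1 / 2)) q * β q ^ 2) * ENNReal.ofReal (53 * mk q ^ (1 / 2 : ℝ)) :=
                mul_le_mul' le_rfl (sum_a (one_le_mk q))
            _ = (W (-(1 / 2)) q * W (1 / 2) q) * (53 * β q ^ 2) := by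
                rw [ENNReal.ofReal_mul (by norm_num)]
                unfold W
                norm_num
                ring
            _ = 53 * β q ^ 2 := by
                rw [W_mul, show (-(1 / 2) + 1 / 2 : ℝ) = 0 by norm_num, W_zero, one_mul]
      _ = A * (53 * B) := by rw [ENNReal.tsum_mul_left]
  have hT2 : ∑' r, (∑' p, β (r - p) * h2 r p) ^ 2 ≤ B * (53 * A) := by
    have hBr : ∀ r : K3, ∑' p, β (r - p) ^ 2 = B := fun r => (Equiv.subLeft r).tsum_eq fun q => β q ^ 2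
    calc ∑' r, (∑' p, β (r - p) * h2 r p) ^ 2 ≤ ∑' r, B * ∑' p, h2 r p ^ 2 := by
          refine ENNReal.tsum_le_tsum fun r => ?_
          refine (cs_sq _ _).trans (le_of_eq ?_)
          rw [hBr]
      _ = B * ∑' r, ∑' p, h2 r p ^ 2 := ENNReal.tsum_mul_left
      _ = B * ∑' p, ∑' r, h2 r p ^ 2 := by rw [ENNReal.tsum_comm]
      _ = B * ∑' p, ∑' q, h2 (q + p) p ^ 2 := by
          congr 1
          refine tsum_congr fun p => ?_
          exact ((Equiv.addRight p).tsum_eq fun r => h2 r p ^ 2).symm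
      _ ≤ B * ∑' p, 53 * α p ^ 2 := by
          refine mul_le_mul' le_rfl (ENNReal.tsum_le_tsum fun p => ?_)
          have e : ∀ q, h2 (q + p) p ^ 2 = (W (-(5 / 2)) p * α p ^ 2) * (if mk q ≤ mk p then W (-(1 / 2)) q else 0) := by
            intro q
            simp only [hh2, add_sub_cancel_right]
            split_ifs
            · rw [mul_pow, mul_pow, W_sq, W_sq]
              norm_num
            · simp
          simp_rw [e]
          rw [ENNReal.tsum_mul_left]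
          calc (W (-(5 / 2)) p * α p ^ 2) * ∑' q, (if mk q ≤ mk p then W (-(1 / 2)) q else 0) ≤
              (W (-(5 / 2)) p * α p ^ 2) * ENNReal.ofReal (53 * mk p ^ (5 / 2 : ℝ)) :=
                mul_le_mul' le_rfl (sum_b (one_le_mk p))
            _ = (W (-(5 / 2)) p * W (5 / 2) p) * (53 * α p ^ 2) := by
                rw [ENNReal.ofReal_mul (by norm_num)]
                unfold W
                norm_num
                ring
            _ = 53 * α p ^ 2 := by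
                rw [W_mul, show (-(5 / 2) + 5 / 2 : ℝ) = 0 by norm_num, W_zero, one_mul]
      _ = B * (53 * A) := by rw [ENNReal.tsum_mul_left]
  calc ∑' r, (∑' p, (W (-(5 / 4)) p * α p) * (W (-(1 / 4)) (r - p) * β (r - p))) ^ 2 ≤
      ∑' r, 4 * ((∑' p, α p * h1 r p) ^ 2 + (∑' p, β (r - p) * h2 r p) ^ 2) :=
        ENNReal.tsum_le_tsum fun r => (pow_le_pow_left' (hsplit r) 2).trans (add_sq_le' _ _)
    _ = 4 * (∑' r, (∑' p, α p * h1 r p) ^ 2 + ∑' r, (∑' p, β (r - p) * h2 r p) ^ 2) := by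
        rw [ENNReal.tsum_mul_left, ENNReal.tsum_add]
    _ ≤ 4 * (A * (53 * B) + B * (53 * A)) := by gcongr
    _ = 424 * (A * B) := by ring

end Pool.Agent.H39.Lions
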