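import Pool.Agent.H39.Lions.Op

/-!
# Global solutions as limits of Galerkin solutions
-/

open Set Filter Topology Metric
open scoped ContDiff NNReal

namespace Pool.Agent.H39.Lions

variable {ι : Type*} {μ : ι → ℝ} {C : (ι → ℝ) → (ι → ℝ) → ι → ℝ}

/-- sublevel sets of the weight are finite -/
theorem Wt.finite (hμ : Wt μ) (N : ℝ) : {i | μ i ≤ N}.Finite := by
  obtain ⟨r, hr⟩ := hμ.summ
  set c : ℝ := ((max N 1) ^ r)⁻¹ with hc
  have hm : (0 : ℝ) < max N 1 := lt_of_lt_of_le one_pos (le_max_right _ _)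
  have hc0 : 0 < c := by positivity
  have h1 := hr.tendsto_cofinite_zero.eventually_lt_const hc0
  rw [eventually_cofinite] at h1
  refine h1.subset fun i hi => ?_
  have h2 : μ i ≤ max N 1 := le_trans hi (le_max_left _ _)
  have h3 : c ≤ (μ i ^ r)⁻¹ := by
    rw [hc]
    have := hμ.pos i
    gcongr
  exact not_lt.2 h3

/-- uniform bounds along a filter -/
def UB {α : Type*} (μ : ι → ℝ) (l : Filter α) (y : α → ι → ℝ) : Prop :=
  ∀ m : ℕ, ∃ B : ℝ, ∀ᶠ a in l, ∀ i, μ i ^ m * |y a i| ≤ B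

theorem UB.bdd_nrm (hμ : Wt μ) {α : Type*} {l : Filter α} {y : α → ι → ℝ} (hy : UB μ l y) (a : ℝ) :
    ∃ B : ℝ, 0 ≤ B ∧ ∀ᶠ k in l, nrm μ a (y k) ≤ B := by
  obtain ⟨m, A, hA, h⟩ := hμ.nrm_le a
  obtain ⟨B, hB⟩ := hy m
  exact ⟨|B| * A, by positivity, hB.mono fun k hk => h (y k) B hk⟩

theorem tend_nrm (hμ : Wt μ) {α : Type*} {l : Filter α} {y : α → ι → ℝ} {y' : ι → ℝ} (hy : UB μ l y)
    (hy' : RD μ y') (h : ∀ i, Tendsto (fun k => y k i) l (𝓝 (y' i))) (a : ℝ) :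
    Tendsto (fun k => nrm μ a (fun i => y k i - y' i)) l (𝓝 0) := by
  obtain ⟨m, w, hw, hmw⟩ := hμ.major a
  obtain ⟨B, hB⟩ := hy m
  obtain ⟨B', hB'⟩ := hy' m
  have h1 : Tendsto (fun k => nsq μ a (fun i => y k i - y' i)) l (𝓝 (∑' i : ι, (0 : ℝ))) := by
    refine tendsto_tsum_of_dominated_convergence (bound := fun i => (B + B') ^ 2 * w i) (hw.mul_left _)
      (fun i => ?_) (hB.mono fun k hk i => ?_)
    · have h2 : Tendsto (fun k => μ i ^ (2 * a) * (y k i - y' i) ^ 2) l (𝓝 (μ i ^ (2 * a) * (y' i - y' i) ^ 2)) :=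
        (((h i).sub_const _).pow 2).const_mul _
      simpa using h2
    · rw [Real.norm_eq_abs, abs_of_nonneg (mul_nonneg (hμ.rpow_pos i _).le (sq_nonneg _))]
      refine hmw (fun i => y k i - y' i) (B + B') (fun i => ?_) i
      have h0 : 0 ≤ μ i ^ m := (pow_pos (hμ.pos i) m).le
      have h3 : |y k i - y' i| ≤ |y k i| + |y' i| := by
        have := abs_add_le (y k i) (-(y' i))
        rwa [abs_neg, ← sub_eq_add_neg] at this
      have := mul_le_mul_of_nonneg_left h3 h0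
      have := hk i
      have := hB' i
      linarith
  rw [tsum_zero] at h1
  have h2 := h1.sqrt
  rwa [Real.sqrt_zero] at h2

theorem tend_C (hμ : Wt μ) (hC : Bil μ C) {α : Type*} {l : Filter α} {x y : α → ι → ℝ} {x' y' : ι → ℝ}
    (hxr : ∀ k, RD μ (x k)) (hyr : ∀ k, RD μ (y k)) (hx : UB μ l x) (hy : UB μ l y) (hx' : RD μ x') (hy' : RD μ y')
    (h1 : ∀ i, Tendsto (fun k => x k i) l (𝓝 (x' i))) (h2 : ∀ i, Tendsto (fun k => y k i) l (𝓝 (y' i))) (i : ι) :
    Tendsto (fun k => C (x k) (y k) i) l (𝓝 (C x' y' i)) := by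
  obtain ⟨K, hK0, hK⟩ := hC.bdd hμ
  obtain ⟨B, hB0, hB⟩ := hy.bdd_nrm hμ (5 / 4)
  have t1 := tend_nrm hμ hx hx' h1 (5 / 4)
  have t2 := tend_nrm hμ hy hy' h2 (5 / 4)
  rw [tendsto_iff_norm_sub_tendsto_zero]
  have t3 : Tendsto (fun k => K * (nrm μ (5 / 4) (fun i => x k i - x' i) * B) +
      K * (nrm μ (5 / 4) x' * nrm μ (5 / 4) (fun i => y k i - y' i))) l (𝓝 0) := by
    have := ((t1.mul_const B).const_mul K).add ((t2.const_mul (nrm μ (5 / 4) x')).const_mul K)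
    simpa using this
  refine squeeze_zero' (Eventually.of_forall fun k => norm_nonneg _) (hB.mono fun k hk => ?_) t3
  have e : C (x k) (y k) i - C x' y' i = C (fun i => x k i - x' i) (y k) i + C x' (fun i => y k i - y' i) i := by
    rw [hC.sub_left (hxr k) hx' (hyr k), hC.sub_right hx' (hyr k) hy']
    ring
  rw [e, Real.norm_eq_abs]
  refine (abs_add_le _ _).trans (add_le_add ?_ ?_)
  · refine (hK _ _ (RD.sub hμ (hxr k) hx') (hyr k) i).trans ?_
    exact mul_le_mul_of_nonneg_left (mul_le_mul_of_nonneg_left hk (nrm_nonneg _ _)) hK0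
  · exact hK _ _ hx' (RD.sub hμ (hyr k) hy') i

/-- passing to the limit in differential equations -/
theorem limit_deriv {l : Filter ℕ} [l.NeBot] (hl : l ≤ atTop) {f g : ℕ → ℝ → ℝ} {f' g' : ℝ → ℝ} {M : ℝ}
    (hd : ∀ᶠ N : ℕ in atTop, ∀ t ∈ Icc (0 : ℝ) N, HasDerivWithinAt (f N) (g N t) (Icc 0 N) t)
    (hM : ∀ᶠ N : ℕ in atTop, ∀ t ∈ Icc (0 : ℝ) N, ∀ t' ∈ Icc (0 : ℝ) N, |g N t - g N t'| ≤ M * |t - t'|)
    (hf : ∀ t, 0 ≤ t → Tendsto (fun N => f N t) l (𝓝 (f' t)))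
    (hg : ∀ t, 0 ≤ t → Tendsto (fun N => g N t) l (𝓝 (g' t))) {t : ℝ} (ht : 0 ≤ t) :
    HasDerivWithinAt f' (g' t) (Ici 0) t := by
  have hM0 : 0 ≤ M := by
    obtain ⟨N, hN, hN1⟩ := (hM.and (eventually_ge_atTop 1)).exists
    have hN1' : (1 : ℝ) ≤ N := by exact_mod_cast hN1
    have h := hN 0 ⟨le_rfl, by positivity⟩ 1 ⟨zero_le_one, hN1'⟩
    have h2 : |(0 : ℝ) - 1| = 1 := by norm_num
    rw [h2, mul_one] at h
    exact (abs_nonneg _).trans h
  have key : ∀ t', 0 ≤ t' → |f' t' - f' t - (t' - t) * g' t| ≤ M * |t' - t| ^ 2 := by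
    intro t' ht'
    have h1 : Tendsto (fun N => |f N t' - f N t - (t' - t) * g N t|) l (𝓝 |f' t' - f' t - (t' - t) * g' t|) :=
      (((hf t' ht').sub (hf t ht)).sub ((hg t ht).const_mul _)).abs
    refine le_of_tendsto h1 ?_
    have hNl : ∀ᶠ N : ℕ in atTop, max t t' ≤ (N : ℝ) := (tendsto_natCast_atTop_atTop).eventually_ge_atTop _
    filter_upwards [hl hd, hl hM, hl hNl] with N a1 a2 a3
    have htN : t ∈ Icc (0 : ℝ) N := ⟨ht, (le_max_left _ _).trans a3⟩
    have htN' : t' ∈ Icc (0 : ℝ) N := ⟨ht', (le_max_right _ _).trans a3⟩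
    have hsub : uIcc t t' ⊆ Icc (0 : ℝ) N := by
      intro s hs
      exact ⟨(le_inf ht ht').trans hs.1, hs.2.trans a3⟩
    have h2 := Convex.norm_image_sub_le_of_norm_hasDerivWithin_le (s := uIcc t t')
      (f := fun s => f N s - s * g N t) (f' := fun s => g N s - g N t) (C := M * |t' - t|) (x := t) (y := t')
      (fun s hs => ?_) (fun s hs => ?_) (convex_uIcc t t') left_mem_uIcc right_mem_uIcc
    · rw [Real.norm_eq_abs, Real.norm_eq_abs] at h2
      calc |f N t' - f N t - (t' - t) * g N t| = |f N t' - t' * g N t - (f N t - t * g N t)| := by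
            congr 1; ring
        _ ≤ M * |t' - t| * |t' - t| := h2
        _ = M * |t' - t| ^ 2 := by ring
    · have h3 := (a1 s (hsub hs)).mono hsub
      have h4 : HasDerivWithinAt (fun s => s * g N t) (1 * g N t) (uIcc t t') s :=
        (hasDerivWithinAt_id s _).mul_const _
      rw [one_mul] at h4
      exact h3.sub h4
    · rw [Real.norm_eq_abs]
      refine (a2 s (hsub hs) t htN).trans ?_
      apply mul_le_mul_of_nonneg_left _ hM0
      have := abs_sub_left_of_mem_uIcc hs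
      rwa [abs_sub_comm t' t, abs_sub_comm s t, abs_sub_comm t t'] at *
  rw [hasDerivWithinAt_iff_isLittleO]
  have h5 : (fun t' => f' t' - f' t - (t' - t) • g' t) =O[𝓝[Ici 0] t] fun t' => (t' - t) ^ 2 := by
    refine Asymptotics.IsBigO.of_bound M ?_
    filter_upwards [self_mem_nhdsWithin] with t' ht'
    rw [Real.norm_eq_abs, Real.norm_eq_abs, smul_eq_mul, abs_pow]
    exact key t' ht'
  refine h5.trans_isLittleO ?_
  have h6 : (fun t' : ℝ => (t' - t) ^ 2) =o[𝓝 t] fun t' => t' - t := by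
    have h7 : Tendsto (fun t' : ℝ => t' - t) (𝓝 t) (𝓝 0) := by
      have : Tendsto (fun t' : ℝ => t' - t) (𝓝 t) (𝓝 (t - t)) := tendsto_id.sub_const t
      simpa using this
    have h8 : (fun t' : ℝ => (t' - t) ^ 2) = fun t' => (t' - t) * (t' - t) := by funext t'; ring
    rw [h8]
    have h9 : (fun t' : ℝ => t' - t) =o[𝓝 t] fun _ : ℝ => (1 : ℝ) := (Asymptotics.isLittleO_one_iff ℝ).2 h7
    simpa using h9.mul_isBigO (Asymptotics.isBigO_refl (fun t' : ℝ => t' - t) (𝓝 t))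
  exact h6.mono nhdsWithin_le_nhds

end Pool.Agent.H39.Lions
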