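import Pool.Agent.H39.Lions.Gal

/-!
# Tame bilinear operators on sequences; uniform bounds for the Galerkin systems
-/

open Set Filter Topology Metric
open scoped ContDiff NNReal

namespace Pool.Agent.H39.Lions

/-- bilinear operators on rapidly decreasing sequences with tame bounds -/
structure Bil {ι : Type*} (μ : ι → ℝ) (C : (ι → ℝ) → (ι → ℝ) → ι → ℝ) : Prop where
  rd : ∀ x y, RD μ x → RD μ y → RD μ (C x y)
  add_left : ∀ x x' y, RD μ x → RD μ x' → RD μ y → C (fun i => x i + x' i) y = fun i => C x y i + C x' y i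
  smul_left : ∀ (r : ℝ) x y, RD μ x → RD μ y → C (fun i => r * x i) y = fun i => r * C x y i
  add_right : ∀ x y y', RD μ x → RD μ y → RD μ y' → C x (fun i => y i + y' i) = fun i => C x y i + C x y' i
  smul_right : ∀ (r : ℝ) x y, RD μ x → RD μ y → C x (fun i => r * y i) = fun i => r * C x y i
  tame : ∀ j : ℕ, ∃ K : ℝ, ∀ x y, RD μ x → RD μ y → nrm μ j (C x y) ≤
    K * (nrm μ (5 / 4) x * nrm μ (j + 5 / 4) y + nrm μ (j + 5 / 4) x * nrm μ (5 / 4) y)

variable {ι : Type*} {μ : ι → ℝ} {C : (ι → ℝ) → (ι → ℝ) → ι → ℝ}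

theorem Bil.tame' (hC : Bil μ C) (j : ℕ) : ∃ K : ℝ, 0 ≤ K ∧ ∀ x y, RD μ x → RD μ y → nrm μ j (C x y) ≤
    K * (nrm μ (5 / 4) x * nrm μ (j + 5 / 4) y + nrm μ (j + 5 / 4) x * nrm μ (5 / 4) y) := by
  obtain ⟨K, hK⟩ := hC.tame j
  refine ⟨|K|, abs_nonneg _, fun x y hx hy => (hK x y hx hy).trans ?_⟩
  refine mul_le_mul_of_nonneg_right (le_abs_self K) ?_
  exact add_nonneg (mul_nonneg (nrm_nonneg _ _) (nrm_nonneg _ _)) (mul_nonneg (nrm_nonneg _ _) (nrm_nonneg _ _))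

/-- the bound for the coordinates -/
theorem Bil.bdd (hC : Bil μ C) (hμ : Wt μ) : ∃ K : ℝ, 0 ≤ K ∧ ∀ x y, RD μ x → RD μ y → ∀ i,
    |C x y i| ≤ K * (nrm μ (5 / 4) x * nrm μ (5 / 4) y) := by
  obtain ⟨K, hK0, hK⟩ := hC.tame' 0
  refine ⟨2 * K, by positivity, fun x y hx hy i => ?_⟩
  have h1 := abs_le_nrm hμ (hC.rd x y hx hy) 0 i
  have h2 := hK x y hx hy
  rw [Real.rpow_zero, one_mul] at h1
  simp only [Nat.cast_zero, zero_add] at h2
  linarith

/-- uniform decay -/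
theorem Bil.unif (hC : Bil μ C) (hμ : Wt μ) (m : ℕ) : ∃ m' : ℕ, ∀ A A' : ℝ, ∃ B : ℝ, ∀ x y, RD μ x → RD μ y →
    (∀ i, μ i ^ m' * |x i| ≤ A) → (∀ i, μ i ^ m' * |y i| ≤ A') → ∀ i, μ i ^ m * |C x y i| ≤ B := by
  obtain ⟨K, hK0, hK⟩ := hC.tame' m
  obtain ⟨m1, A1, hA1, h1⟩ := hμ.nrm_le (m + 5 / 4)
  refine ⟨m1, fun A A' => ⟨K * (2 * ((|A| * A1) * (|A'| * A1))), fun x y hx hy hxA hyA i => ?_⟩⟩
  have a1 := abs_le_nrm hμ (hC.rd x y hx hy) m i
  rw [Real.rpow_natCast] at a1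
  have a2 := hK x y hx hy
  have hm : (5 / 4 : ℝ) ≤ m + 5 / 4 := by
    have : (0 : ℝ) ≤ m := Nat.cast_nonneg m
    linarith
  have b1 := h1 x A hxA
  have b2 := h1 y A' hyA
  have b3 := (nrm_mono hμ hx hm).trans b1
  have b4 := (nrm_mono hμ hy hm).trans b2
  have c1 := mul_le_mul b3 b2 (nrm_nonneg _ _) (by positivity)
  have c2 := mul_le_mul b1 b4 (nrm_nonneg _ _) (by positivity)
  refine a1.trans (a2.trans ?_)
  apply mul_le_mul_of_nonneg_left _ hK0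
  linarith

theorem Bil.zero_left (hC : Bil μ C) {y : ι → ℝ} (hy : RD μ y) : C (fun _ => 0) y = fun _ => 0 := by
  have h := hC.smul_left 0 (fun _ => 0) y (RD.fin ∅ fun _ _ => rfl) hy
  simpa using h

theorem Bil.zero_right (hC : Bil μ C) {x : ι → ℝ} (hx : RD μ x) : C x (fun _ => 0) = fun _ => 0 := by
  have h := hC.smul_right 0 x (fun _ => 0) hx (RD.fin ∅ fun _ _ => rfl)
  simpa using h

theorem RD.zero : RD μ (fun _ : ι => (0 : ℝ)) := RD.fin ∅ fun _ _ => rfl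

theorem RD.sum (hμ : Wt μ) {κ : Type*} (s : Finset κ) {v : κ → ι → ℝ} (hv : ∀ a ∈ s, RD μ (v a)) :
    RD μ fun i => ∑ a ∈ s, v a i := by
  classical
  induction s using Finset.induction_on with
  | empty => simpa using RD.zero
  | insert a s ha ih =>
    simp only [Finset.sum_insert ha]
    exact RD.add hμ (hv a (Finset.mem_insert_self _ _)) (ih fun b hb => hv b (Finset.mem_insert_of_mem hb))

theorem Bil.sum_left (hC : Bil μ C) (hμ : Wt μ) {κ : Type*} (s : Finset κ) {v : κ → ι → ℝ}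
    (hv : ∀ a ∈ s, RD μ (v a)) {y : ι → ℝ} (hy : RD μ y) :
    C (fun i => ∑ a ∈ s, v a i) y = fun i => ∑ a ∈ s, C (v a) y i := by
  classical
  induction s using Finset.induction_on with
  | empty => simpa using hC.zero_left hy
  | insert a s ha ih =>
    simp only [Finset.sum_insert ha]
    have hs : ∀ b ∈ s, RD μ (v b) := fun b hb => hv b (Finset.mem_insert_of_mem hb)
    rw [hC.add_left _ _ _ (hv a (Finset.mem_insert_self _ _)) (RD.sum hμ s hs) hy, ih hs]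

theorem Bil.sum_right (hC : Bil μ C) (hμ : Wt μ) {κ : Type*} (s : Finset κ) {v : κ → ι → ℝ}
    (hv : ∀ a ∈ s, RD μ (v a)) {x : ι → ℝ} (hx : RD μ x) :
    C x (fun i => ∑ a ∈ s, v a i) = fun i => ∑ a ∈ s, C x (v a) i := by
  classical
  induction s using Finset.induction_on with
  | empty => simpa using hC.zero_right hx
  | insert a s ha ih =>
    simp only [Finset.sum_insert ha]
    have hs : ∀ b ∈ s, RD μ (v b) := fun b hb => hv b (Finset.mem_insert_of_mem hb)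
    rw [hC.add_right _ _ _ hx (hv a (Finset.mem_insert_self _ _)) (RD.sum hμ s hs), ih hs]

theorem Bil.sub_left (hC : Bil μ C) {x x' y : ι → ℝ} (hx : RD μ x) (hx' : RD μ x') (hy : RD μ y) :
    C (fun i => x i - x' i) y = fun i => C x y i - C x' y i := by
  have h1 := hC.add_left x (fun i => -1 * x' i) y hx (hx'.smul _) hy
  rw [hC.smul_left (-1) x' y hx' hy] at h1
  have e : (fun i => x i - x' i) = fun i => x i + -1 * x' i := by funext i; ring
  rw [e, h1]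
  funext i; ring

theorem Bil.sub_right (hC : Bil μ C) {x y y' : ι → ℝ} (hx : RD μ x) (hy : RD μ y) (hy' : RD μ y') :
    C x (fun i => y i - y' i) = fun i => C x y i - C x y' i := by
  have h1 := hC.add_right x y (fun i => -1 * y' i) hx hy (hy'.smul _)
  rw [hC.smul_right (-1) x y' hx hy'] at h1
  have e : (fun i => y i - y' i) = fun i => y i + -1 * y' i := by funext i; ring
  rw [e, h1]
  funext i; ring

section fin

variable [DecidableEq ι]

/-- the coordinates on sequences of finite support -/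
theorem Bil.expand (hC : Bil μ C) (hμ : Wt μ) (F : Finset ι) {x : ι → ℝ} (hx : ∀ i, i ∉ F → x i = 0) (i : ι) :
    C x x i = ∑ j ∈ F, ∑ k ∈ F, C (Pi.single j 1) (Pi.single k 1) i * (x j * x k) := by
  have he : ∀ j : ι, RD μ (Pi.single j (1 : ℝ) : ι → ℝ) := fun j => by
    refine RD.fin {j} fun i hi => ?_
    rw [Finset.mem_singleton] at hi
    exact Pi.single_eq_of_ne hi 1
  have hxe : x = fun i => ∑ j ∈ F, x j * (Pi.single j (1 : ℝ) : ι → ℝ) i := by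
    funext i
    by_cases hi : i ∈ F
    · rw [Finset.sum_eq_single i]
      · simp
      · intro j _ hj
        rw [Pi.single_eq_of_ne (Ne.symm hj), mul_zero]
      · exact fun h => absurd hi h
    · rw [hx i hi, Finset.sum_eq_zero]
      intro j hj
      rw [Pi.single_eq_of_ne (fun h => hi (by rw [h]; exact hj)), mul_zero]
  have hxr : RD μ x := RD.fin F hx
  have h1 : C x x = fun i => ∑ j ∈ F, C (fun i => x j * (Pi.single j (1 : ℝ) : ι → ℝ) i) x i := by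
    conv_lhs => rw [show C x x = C (fun i => ∑ j ∈ F, x j * (Pi.single j (1 : ℝ) : ι → ℝ) i) x from by rw [← hxe]]
    exact hC.sum_left hμ F (fun j _ => (he j).smul _) hxr
  have h2 : ∀ j, C (fun i => x j * (Pi.single j (1 : ℝ) : ι → ℝ) i) x i =
      ∑ k ∈ F, C (Pi.single j 1) (Pi.single k 1) i * (x j * x k) := by
    intro j
    rw [hC.smul_left _ _ _ (he j) hxr]
    have h3 : C (Pi.single j (1 : ℝ)) x = fun i => ∑ k ∈ F, C (Pi.single j 1) (fun i => x k * (Pi.single k (1 : ℝ) : ι → ℝ) i) i := by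
      conv_lhs => rw [show C (Pi.single j (1 : ℝ)) x =
        C (Pi.single j (1 : ℝ)) (fun i => ∑ k ∈ F, x k * (Pi.single k (1 : ℝ) : ι → ℝ) i) from by rw [← hxe]]
      exact hC.sum_right hμ F (fun k _ => (he k).smul _) (he j)
    rw [h3]
    show x j * ∑ k ∈ F, C (Pi.single j 1) (fun i => x k * (Pi.single k (1 : ℝ) : ι → ℝ) i) i = _
    rw [Finset.mul_sum]
    refine Finset.sum_congr rfl fun k _ => ?_
    rw [hC.smul_right _ _ _ (he j) (he k)]
    ring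
  rw [h1]
  exact Finset.sum_congr rfl fun j _ => h2 j

/-- Galerkin solutions: supported in `F`, on the time interval `[0, T]` -/
structure GSol (μ : ι → ℝ) (C : (ι → ℝ) → (ι → ℝ) → ι → ℝ) (ν s T : ℝ) (F : Finset ι) (x : ℝ → ι → ℝ) : Prop where
  supp : ∀ t i, i ∉ F → x t i = 0
  eq : ∀ t ∈ Icc 0 T, ∀ i ∈ F, HasDerivWithinAt (fun s => x s i)
    (-(ν * μ i ^ (2 * s)) * x t i + C (x t) (x t) i) (Icc 0 T) t

theorem gsol (hμ : Wt μ) (hC : Bil μ C) (hE : ∀ x, RD μ x → ∑' i, C x x i * x i = 0) {ν : ℝ} (hν : 0 ≤ ν) (s : ℝ)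
    (F : Finset ι) (x0 : ι → ℝ) (h0 : ∀ i, i ∉ F → x0 i = 0) {T : ℝ} (hT : 0 ≤ T) :
    ∃ x : ℝ → ι → ℝ, x 0 = x0 ∧ GSol μ C ν s T F x := by
  have hen : ∀ y : ι → ℝ, (∀ i, i ∉ F → y i = 0) → ∑ i ∈ F, y i * (-(ν * μ i ^ (2 * s)) * y i +
      ∑ j ∈ F, ∑ k ∈ F, C (Pi.single j 1) (Pi.single k 1) i * (y j * y k)) ≤ 0 := by
    intro y hy
    have h1 := hE y (RD.fin F hy)
    rw [tsum_eq_sum (s := F) fun i hi => by rw [hy i hi, mul_zero]] at h1
    have h2 : ∑ i ∈ F, y i * (-(ν * μ i ^ (2 * s)) * y i + ∑ j ∈ F, ∑ k ∈ F,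
        C (Pi.single j 1) (Pi.single k 1) i * (y j * y k)) =
        -∑ i ∈ F, ν * μ i ^ (2 * s) * y i ^ 2 + ∑ i ∈ F, C y y i * y i := by
      rw [← Finset.sum_neg_distrib, ← Finset.sum_add_distrib]
      refine Finset.sum_congr rfl fun i _ => ?_
      rw [← hC.expand hμ F hy i]
      ring
    rw [h2, h1, add_zero]
    apply neg_nonpos.2
    exact Finset.sum_nonneg fun i _ => mul_nonneg (mul_nonneg hν (hμ.rpow_pos i _).le) (sq_nonneg _)
  obtain ⟨x, hx0, hsupp, hx⟩ := gal F (fun i => ν * μ i ^ (2 * s))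
    (fun i j k => C (Pi.single j 1) (Pi.single k 1) i) hen x0 h0 hT
  refine ⟨x, hx0, hsupp, fun t ht i hi => ?_⟩
  rw [hC.expand hμ F (hsupp t)]
  exact hx t ht i hi

omit [DecidableEq ι]

variable {ν s T : ℝ} {F : Finset ι} {x : ℝ → ι → ℝ}

theorem GSol.rd (h : GSol μ C ν s T F x) (t : ℝ) : RD μ (x t) := RD.fin F (h.supp t)

/-- the derivative of the norms -/
theorem GSol.deriv (hμ : Wt μ) (h : GSol μ C ν s T F x) (a : ℝ) {t : ℝ} (ht : t ∈ Icc 0 T) :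
    HasDerivWithinAt (fun t => nsq μ a (x t))
      (-(2 * ν) * nsq μ (a + s) (x t) + 2 * ∑ i ∈ F, μ i ^ (2 * a) * (C (x t) (x t) i * x t i)) (Icc 0 T) t := by
  have e : ∀ t a, nsq μ a (x t) = ∑ i ∈ F, μ i ^ (2 * a) * x t i ^ 2 := fun t a => nsq_fin F (h.supp t) a
  simp_rw [e]
  have h1 : HasDerivWithinAt (fun t => ∑ i ∈ F, μ i ^ (2 * a) * x t i ^ 2)
      (∑ i ∈ F, μ i ^ (2 * a) * (((2 : ℕ) : ℝ) * x t i ^ (2 - 1) *
        (-(ν * μ i ^ (2 * s)) * x t i + C (x t) (x t) i))) (Icc 0 T) t :=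
    HasDerivWithinAt.fun_sum fun i hi => ((h.eq t ht i hi).pow 2).const_mul _
  refine h1.congr_deriv ?_
  rw [Finset.mul_sum, Finset.mul_sum, ← Finset.sum_add_distrib]
  refine Finset.sum_congr rfl fun i _ => ?_
  have e2 : μ i ^ (2 * (a + s)) = μ i ^ (2 * a) * μ i ^ (2 * s) := by
    rw [← Real.rpow_add (hμ.pos i)]; congr 1; ring
  rw [e2]
  simp only [Nat.cast_ofNat, Nat.add_one_sub_one, pow_one]
  ring

theorem GSol.deriv0 (hμ : Wt μ) (hE : ∀ x, RD μ x → ∑' i, C x x i * x i = 0) (h : GSol μ C ν s T F x) {t : ℝ}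
    (ht : t ∈ Icc 0 T) :
    HasDerivWithinAt (fun t => nsq μ 0 (x t)) (-(2 * ν) * nsq μ s (x t)) (Icc 0 T) t := by
  have h1 := h.deriv hμ 0 ht
  refine h1.congr_deriv ?_
  have h2 := hE (x t) (h.rd t)
  rw [tsum_eq_sum (s := F) fun i hi => by rw [h.supp t i hi, mul_zero]] at h2
  simp only [mul_zero, Real.rpow_zero, one_mul, zero_add]
  rw [h2]; ring

theorem antitone_of_deriv {f f' : ℝ → ℝ} {T : ℝ} (h : ∀ t ∈ Icc 0 T, HasDerivWithinAt f (f' t) (Icc 0 T) t)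
    (h' : ∀ t ∈ Icc 0 T, f' t ≤ 0) : AntitoneOn f (Icc 0 T) := by
  refine antitoneOn_of_deriv_nonpos (convex_Icc 0 T) (fun t ht => (h t ht).continuousWithinAt) ?_ ?_
  · rw [interior_Icc]
    exact fun t ht => ((h t ⟨ht.1.le, ht.2.le⟩).hasDerivAt (Icc_mem_nhds ht.1 ht.2)).differentiableAt.differentiableWithinAt
  · rw [interior_Icc]
    intro t ht
    rw [((h t ⟨ht.1.le, ht.2.le⟩).hasDerivAt (Icc_mem_nhds ht.1 ht.2)).deriv]
    exact h' t ⟨ht.1.le, ht.2.le⟩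

/-- **The bound in the norms of high order.** -/
theorem GSol.bound (hμ : Wt μ) (hE : ∀ x, RD μ x → ∑' i, C x x i * x i = 0) (hν : 0 < ν) (hs : 5 / 4 ≤ s)
    (h : GSol μ C ν s T F x) (j : ℕ) {K : ℝ}
    (hK : ∀ x y, RD μ x → RD μ y → nrm μ j (C x y) ≤
      K * (nrm μ (5 / 4) x * nrm μ (j + 5 / 4) y + nrm μ (j + 5 / 4) x * nrm μ (5 / 4) y))
    (hrd : ∀ x y, RD μ x → RD μ y → RD μ (C x y)) {t : ℝ} (ht : t ∈ Icc 0 T) :
    nsq μ (j + 5 / 4) (x t) ≤ nsq μ (j + 5 / 4) (x 0) * Real.exp (K ^ 2 / ν ^ 2 * nsq μ 0 (x 0)) := by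
  set a : ℝ := j + 5 / 4 with ha
  set κ : ℝ := K ^ 2 / ν ^ 2 with hκ
  have hκ0 : 0 ≤ κ := by positivity
  have key := antitone_of_deriv (T := T) (f := fun t => nsq μ a (x t) * Real.exp (κ * nsq μ 0 (x t)))
    (f' := fun t => (-(2 * ν) * nsq μ (a + s) (x t) + 2 * ∑ i ∈ F, μ i ^ (2 * a) * (C (x t) (x t) i * x t i)) *
      Real.exp (κ * nsq μ 0 (x t)) + nsq μ a (x t) * (Real.exp (κ * nsq μ 0 (x t)) *
        (κ * (-(2 * ν) * nsq μ s (x t))))) (fun t ht => ?_) (fun t ht => ?_)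
  · have h1 := key (⟨le_rfl, ht.1.trans ht.2⟩ : (0 : ℝ) ∈ Icc 0 T) ht ht.1
    simp only at h1
    have h2 : 1 ≤ Real.exp (κ * nsq μ 0 (x t)) := Real.one_le_exp (mul_nonneg hκ0 (nsq_nonneg hμ _ _))
    exact (le_mul_of_one_le_right (nsq_nonneg hμ _ _) h2).trans h1
  · exact (h.deriv hμ a ht).mul (((h.deriv0 hμ hE ht).const_mul κ).exp)
  · have hrx := h.rd t
    set n1 := nrm μ (5 / 4) (x t) with hn1
    set na := nrm μ a (x t) with hna
    set nb := nrm μ (a + 5 / 4) (x t) with hnb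
    have p1 : 0 ≤ n1 := nrm_nonneg _ _
    have pa : 0 ≤ na := nrm_nonneg _ _
    have pb : 0 ≤ nb := nrm_nonneg _ _
    have e1 : nsq μ a (x t) = na ^ 2 := (nrm_sq hμ _ _).symm
    have l1 : nb ^ 2 ≤ nsq μ (a + s) (x t) := by
      rw [hnb, nrm_sq hμ]
      exact nsq_mono hμ hrx (by linarith)
    have l2 : n1 ^ 2 ≤ nsq μ s (x t) := by
      rw [hn1, nrm_sq hμ]
      exact nsq_mono hμ hrx hs
    have l3 : ∑ i ∈ F, μ i ^ (2 * a) * (C (x t) (x t) i * x t i) ≤ nrm μ j (C (x t) (x t)) * nb := by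
      refine (le_abs_self _).trans ?_
      refine cs_fin hμ F (hrd _ _ hrx hrx) hrx j (a + 5 / 4) a ?_
      rw [ha]; ring
    have l4 : nrm μ j (C (x t) (x t)) ≤ K * (2 * (n1 * na)) := by
      refine (hK _ _ hrx hrx).trans (le_of_eq ?_)
      simp only [hn1, hna]
      ring
    have l5 : ∑ i ∈ F, μ i ^ (2 * a) * (C (x t) (x t) i * x t i) ≤ K * (2 * (n1 * na)) * nb :=
      l3.trans (mul_le_mul_of_nonneg_right l4 pb)
    have l6 : 2 * (K * (2 * (n1 * na)) * nb) ≤ 2 * ν * nb ^ 2 + 2 * (K ^ 2 / ν) * (n1 * na) ^ 2 := by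
      have h3 : 2 * ν * nb ^ 2 + 2 * (K ^ 2 / ν) * (n1 * na) ^ 2 - 2 * (K * (2 * (n1 * na)) * nb) =
          2 / ν * (ν * nb - K * (n1 * na)) ^ 2 := by
        field_simp
        ring
      have h4 : 0 ≤ 2 / ν * (ν * nb - K * (n1 * na)) ^ 2 := by positivity
      linarith
    have hex := Real.exp_pos (κ * nsq μ 0 (x t))
    have l7 : -(2 * ν) * nsq μ (a + s) (x t) + 2 * ∑ i ∈ F, μ i ^ (2 * a) * (C (x t) (x t) i * x t i) ≤
        2 * (K ^ 2 / ν) * (n1 * na) ^ 2 := by nlinarith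
    have l8 : nsq μ a (x t) * (κ * (-(2 * ν) * nsq μ s (x t))) ≤ -(2 * (K ^ 2 / ν) * (n1 * na) ^ 2) := by
      rw [e1]
      have h5 : κ * (2 * ν) = 2 * (K ^ 2 / ν) := by
        rw [hκ]; field_simp
      have h6 : 2 * (K ^ 2 / ν) * n1 ^ 2 ≤ 2 * (K ^ 2 / ν) * nsq μ s (x t) :=
        mul_le_mul_of_nonneg_left l2 (by positivity)
      have h7 := mul_le_mul_of_nonneg_left h6 (sq_nonneg na)
      calc na ^ 2 * (κ * (-(2 * ν) * nsq μ s (x t))) = -(na ^ 2 * ((κ * (2 * ν)) * nsq μ s (x t))) := by ring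
        _ = -(na ^ 2 * (2 * (K ^ 2 / ν) * nsq μ s (x t))) := by rw [h5]
        _ ≤ -(na ^ 2 * (2 * (K ^ 2 / ν) * n1 ^ 2)) := neg_le_neg h7
        _ = _ := by ring
    calc _ = (-(2 * ν) * nsq μ (a + s) (x t) + 2 * ∑ i ∈ F, μ i ^ (2 * a) * (C (x t) (x t) i * x t i) +
          nsq μ a (x t) * (κ * (-(2 * ν) * nsq μ s (x t)))) * Real.exp (κ * nsq μ 0 (x t)) := by ring
      _ ≤ 0 * Real.exp (κ * nsq μ 0 (x t)) := by
          apply mul_le_mul_of_nonneg_right _ hex.le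
          linarith
      _ = 0 := zero_mul _

end fin

end Pool.Agent.H39.Lions
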