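import Mathlib

/-!
# Rapidly decreasing sequences over a weighted index set
-/

open Set Filter Topology

namespace Pool.Agent.H39.Lions

/-- weights: `μ ≥ 1`, with summable negative powers -/
structure Wt {ι : Type*} (μ : ι → ℝ) : Prop where
  one : ∀ i, 1 ≤ μ i
  summ : ∃ r : ℕ, Summable fun i => (μ i ^ r)⁻¹

/-- rapidly decreasing -/
def RD {ι : Type*} (μ : ι → ℝ) (x : ι → ℝ) : Prop := ∀ m : ℕ, ∃ C : ℝ, ∀ i, μ i ^ m * |x i| ≤ C

/-- the square of the norm of order `a` -/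
noncomputable def nsq {ι : Type*} (μ : ι → ℝ) (a : ℝ) (x : ι → ℝ) : ℝ := ∑' i, μ i ^ (2 * a) * x i ^ 2

/-- the norm of order `a` -/
noncomputable def nrm {ι : Type*} (μ : ι → ℝ) (a : ℝ) (x : ι → ℝ) : ℝ := Real.sqrt (nsq μ a x)

variable {ι : Type*} {μ : ι → ℝ}

theorem RD.nonneg {x : ι → ℝ} (hx : RD μ x) (m : ℕ) : ∃ C : ℝ, 0 ≤ C ∧ ∀ i, μ i ^ m * |x i| ≤ C := by
  obtain ⟨C, hC⟩ := hx m
  exact ⟨|C|, abs_nonneg _, fun i => (hC i).trans (le_abs_self _)⟩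

theorem Wt.pos (hμ : Wt μ) (i : ι) : 0 < μ i := lt_of_lt_of_le one_pos (hμ.one i)

theorem Wt.rpow_pos (hμ : Wt μ) (i : ι) (a : ℝ) : 0 < μ i ^ a := Real.rpow_pos_of_pos (hμ.pos i) a

theorem RD.add {x y : ι → ℝ} (hμ : Wt μ) (hx : RD μ x) (hy : RD μ y) : RD μ fun i => x i + y i := by
  intro m
  obtain ⟨C, hC⟩ := hx m
  obtain ⟨C', hC'⟩ := hy m
  refine ⟨C + C', fun i => ?_⟩
  have h0 : 0 ≤ μ i ^ m := (pow_pos (hμ.pos i) m).le
  have := mul_le_mul_of_nonneg_left (abs_add_le (x i) (y i)) h0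
  have := hC i
  have := hC' i
  linarith

theorem RD.smul {x : ι → ℝ} (hx : RD μ x) (r : ℝ) : RD μ fun i => r * x i := by
  intro m
  obtain ⟨C, hC⟩ := hx m
  refine ⟨|r| * C, fun i => ?_⟩
  rw [abs_mul]
  have := mul_le_mul_of_nonneg_left (hC i) (abs_nonneg r)
  linarith

theorem RD.sub {x y : ι → ℝ} (hμ : Wt μ) (hx : RD μ x) (hy : RD μ y) : RD μ fun i => x i - y i := by
  have := RD.add hμ hx (hy.smul (-1))
  have e : (fun i => x i - y i) = fun i => x i + -1 * y i := by funext i; ring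
  rw [e]; exact this

/-- pointwise domination -/
theorem RD.of_le (hμ : Wt μ) {x y : ι → ℝ} (hx : RD μ x) (h : ∀ i, |y i| ≤ |x i|) : RD μ y := by
  intro m
  obtain ⟨C, hC⟩ := hx m
  exact ⟨C, fun i => (mul_le_mul_of_nonneg_left (h i) (pow_pos (hμ.pos i) m).le).trans (hC i)⟩

/-- the bound by a summable sequence, uniform in the constants -/
theorem Wt.major (hμ : Wt μ) (a : ℝ) : ∃ (m : ℕ) (w : ι → ℝ), Summable w ∧
    ∀ (x : ι → ℝ) (C : ℝ), (∀ i, μ i ^ m * |x i| ≤ C) → ∀ i, μ i ^ (2 * a) * x i ^ 2 ≤ C ^ 2 * w i := by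
  obtain ⟨r, hr⟩ := hμ.summ
  obtain ⟨n, hn⟩ := exists_nat_ge |a|
  refine ⟨n + r, fun i => (μ i ^ r)⁻¹, hr, fun x C hC i => ?_⟩
  have h1 := hμ.one i
  have h0 := hμ.pos i
  have h2 : μ i ^ (2 * a) ≤ μ i ^ (2 * n) := by
    rw [← Real.rpow_natCast]
    apply Real.rpow_le_rpow_of_exponent_le h1
    push_cast
    linarith [le_abs_self a]
  have h3 : μ i ^ (2 * n) * x i ^ 2 ≤ (μ i ^ (n + r) * |x i|) ^ 2 * (μ i ^ r)⁻¹ := by
    rw [mul_pow, sq_abs, ← pow_mul]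
    have e : μ i ^ ((n + r) * 2) = μ i ^ (2 * n) * (μ i ^ r * μ i ^ r) := by
      rw [← pow_add, ← pow_add]; congr 1; ring
    rw [e]
    have h4 : 1 ≤ μ i ^ r := one_le_pow₀ h1
    have h5 : 0 < μ i ^ r := pow_pos h0 r
    rw [show μ i ^ (2 * n) * (μ i ^ r * μ i ^ r) * x i ^ 2 * (μ i ^ r)⁻¹ =
      (μ i ^ (2 * n) * x i ^ 2) * μ i ^ r * (μ i ^ r * (μ i ^ r)⁻¹) by ring, mul_inv_cancel₀ h5.ne', mul_one]
    exact le_mul_of_one_le_right (by positivity) h4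
  calc μ i ^ (2 * a) * x i ^ 2 ≤ μ i ^ (2 * n) * x i ^ 2 := by gcongr
    _ ≤ _ := h3
    _ ≤ C ^ 2 * (μ i ^ r)⁻¹ := by
      have := hC i
      have h6 : 0 ≤ μ i ^ (n + r) * |x i| := by positivity
      gcongr

theorem RD.summable (hμ : Wt μ) {x : ι → ℝ} (hx : RD μ x) (a : ℝ) : Summable fun i => μ i ^ (2 * a) * x i ^ 2 := by
  obtain ⟨m, w, hw, h⟩ := hμ.major a
  obtain ⟨C, hC⟩ := hx m
  exact Summable.of_nonneg_of_le (fun i => mul_nonneg (hμ.rpow_pos i _).le (sq_nonneg _)) (h x C hC) (hw.mul_left _)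

theorem nsq_nonneg (hμ : Wt μ) (a : ℝ) (x : ι → ℝ) : 0 ≤ nsq μ a x :=
  tsum_nonneg fun i => mul_nonneg (hμ.rpow_pos i _).le (sq_nonneg _)

theorem nrm_nonneg (a : ℝ) (x : ι → ℝ) : 0 ≤ nrm μ a x := Real.sqrt_nonneg _

theorem nrm_sq (hμ : Wt μ) (a : ℝ) (x : ι → ℝ) : nrm μ a x ^ 2 = nsq μ a x := Real.sq_sqrt (nsq_nonneg hμ a x)

theorem abs_le_nrm (hμ : Wt μ) {x : ι → ℝ} (hx : RD μ x) (a : ℝ) (i : ι) : μ i ^ a * |x i| ≤ nrm μ a x := by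
  apply Real.le_sqrt_of_sq_le
  rw [mul_pow, sq_abs]
  have e : (μ i ^ a) ^ 2 = μ i ^ (2 * a) := by
    rw [← Real.rpow_natCast, ← Real.rpow_mul (hμ.pos i).le]; congr 1; push_cast; ring
  rw [e]
  exact (hx.summable hμ a).le_tsum i fun j _ => mul_nonneg (hμ.rpow_pos j _).le (sq_nonneg _)

theorem nsq_mono (hμ : Wt μ) {x : ι → ℝ} (hx : RD μ x) {a b : ℝ} (h : a ≤ b) : nsq μ a x ≤ nsq μ b x := by
  refine (hx.summable hμ a).tsum_le_tsum (fun i => ?_) (hx.summable hμ b)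
  apply mul_le_mul_of_nonneg_right _ (sq_nonneg _)
  exact Real.rpow_le_rpow_of_exponent_le (hμ.one i) (by linarith)

theorem nrm_mono (hμ : Wt μ) {x : ι → ℝ} (hx : RD μ x) {a b : ℝ} (h : a ≤ b) : nrm μ a x ≤ nrm μ b x :=
  Real.sqrt_le_sqrt (nsq_mono hμ hx h)

/-- domination -/
theorem nrm_le_of_le (hμ : Wt μ) {x y : ι → ℝ} (hx : RD μ x) (h : ∀ i, |y i| ≤ |x i|) (a : ℝ) :
    nrm μ a y ≤ nrm μ a x := by
  refine Real.sqrt_le_sqrt (((hx.of_le hμ h).summable hμ a).tsum_le_tsum (fun i => ?_) (hx.summable hμ a))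
  apply mul_le_mul_of_nonneg_left _ (hμ.rpow_pos i _).le
  exact sq_le_sq.2 (h i)

theorem nrm_smul (a r : ℝ) (x : ι → ℝ) : nrm μ a (fun i => r * x i) = |r| * nrm μ a x := by
  unfold nrm nsq
  have e : ∀ i, μ i ^ (2 * a) * (r * x i) ^ 2 = r ^ 2 * (μ i ^ (2 * a) * x i ^ 2) := fun i => by ring
  simp_rw [e]
  rw [tsum_mul_left, Real.sqrt_mul (sq_nonneg r), Real.sqrt_sq_eq_abs]

theorem nrm_add (hμ : Wt μ) {x y : ι → ℝ} (hx : RD μ x) (hy : RD μ y) (a : ℝ) :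
    nrm μ a (fun i => x i + y i) ≤ 2 * (nrm μ a x + nrm μ a y) := by
  have h1 : nsq μ a (fun i => x i + y i) ≤ 2 * nsq μ a x + 2 * nsq μ a y := by
    unfold nsq
    rw [← tsum_mul_left, ← tsum_mul_left, ← ((hx.summable hμ a).mul_left 2).tsum_add ((hy.summable hμ a).mul_left 2)]
    refine ((RD.add hμ hx hy).summable hμ a).tsum_le_tsum (fun i => ?_)
      (((hx.summable hμ a).mul_left 2).add ((hy.summable hμ a).mul_left 2))
    have h0 := (hμ.rpow_pos i (2 * a)).le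
    have : (x i + y i) ^ 2 ≤ 2 * x i ^ 2 + 2 * y i ^ 2 := by nlinarith [sq_nonneg (x i - y i)]
    nlinarith
  have hx0 := nrm_nonneg (μ := μ) a x
  have hy0 := nrm_nonneg (μ := μ) a y
  rw [← nrm_sq hμ, ← nrm_sq hμ, ← nrm_sq hμ] at h1
  apply le_of_sq_le_sq _ (by positivity)
  nlinarith [mul_nonneg hx0 hy0]

/-- the norm in terms of pointwise bounds -/
theorem Wt.nrm_le (hμ : Wt μ) (a : ℝ) : ∃ (m : ℕ) (A : ℝ), 0 ≤ A ∧
    ∀ (x : ι → ℝ) (C : ℝ), (∀ i, μ i ^ m * |x i| ≤ C) → nrm μ a x ≤ |C| * A := by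
  obtain ⟨m, w, hw, h⟩ := hμ.major a
  refine ⟨m, Real.sqrt (∑' i, w i), Real.sqrt_nonneg _, fun x C hC => ?_⟩
  have h1 : nsq μ a x ≤ C ^ 2 * ∑' i, w i := by
    unfold nsq
    rw [← tsum_mul_left]
    refine Summable.tsum_le_tsum (h x C hC) ?_ (hw.mul_left _)
    exact Summable.of_nonneg_of_le (fun i => mul_nonneg (hμ.rpow_pos i _).le (sq_nonneg _)) (h x C hC) (hw.mul_left _)
  refine (Real.sqrt_le_sqrt h1).trans (le_of_eq ?_)
  rw [Real.sqrt_mul (sq_nonneg C), Real.sqrt_sq_eq_abs]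

/-- sequences of finite support -/
theorem RD.fin (F : Finset ι) {x : ι → ℝ} (h : ∀ i, i ∉ F → x i = 0) : RD μ x := by
  intro m
  refine ⟨∑ i ∈ F, abs (μ i ^ m * abs (x i)), fun i => ?_⟩
  by_cases hi : i ∈ F
  · exact (le_abs_self _).trans (Finset.single_le_sum (f := fun i => abs (μ i ^ m * abs (x i)))
      (fun i _ => abs_nonneg _) hi)
  · rw [h i hi, abs_zero, mul_zero]
    exact Finset.sum_nonneg fun i _ => abs_nonneg _

theorem nsq_fin (F : Finset ι) {x : ι → ℝ} (h : ∀ i, i ∉ F → x i = 0) (a : ℝ) :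
    nsq μ a x = ∑ i ∈ F, μ i ^ (2 * a) * x i ^ 2 :=
  tsum_eq_sum fun i hi => by rw [h i hi]; ring

/-- Cauchy–Schwarz with weights -/
theorem cs_fin (hμ : Wt μ) (F : Finset ι) {x y : ι → ℝ} (hx : RD μ x) (hy : RD μ y) (a b c : ℝ) (h : a + b = 2 * c) :
    |∑ i ∈ F, μ i ^ (2 * c) * (x i * y i)| ≤ nrm μ a x * nrm μ b y := by
  have h1 := Finset.sum_mul_sq_le_sq_mul_sq F (fun i => μ i ^ a * x i) fun i => μ i ^ b * y i
  have e1 : ∀ (x : ι → ℝ) (a : ℝ) (i : ι), (μ i ^ a * x i) ^ 2 = μ i ^ (2 * a) * x i ^ 2 := by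
    intro x a i
    rw [mul_pow, ← Real.rpow_natCast (μ i ^ a), ← Real.rpow_mul (hμ.pos i).le]
    congr 2; push_cast; ring
  have e2 : ∑ i ∈ F, (μ i ^ a * x i) * (μ i ^ b * y i) = ∑ i ∈ F, μ i ^ (2 * c) * (x i * y i) := by
    refine Finset.sum_congr rfl fun i _ => ?_
    rw [← h, Real.rpow_add (hμ.pos i)]; ring
  rw [e2] at h1
  simp_rw [e1] at h1
  have h2 : ∑ i ∈ F, μ i ^ (2 * a) * x i ^ 2 ≤ nrm μ a x ^ 2 := by
    rw [nrm_sq hμ]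
    exact (hx.summable hμ a).sum_le_tsum F fun i _ => mul_nonneg (hμ.rpow_pos i _).le (sq_nonneg _)
  have h3 : ∑ i ∈ F, μ i ^ (2 * b) * y i ^ 2 ≤ nrm μ b y ^ 2 := by
    rw [nrm_sq hμ]
    exact (hy.summable hμ b).sum_le_tsum F fun i _ => mul_nonneg (hμ.rpow_pos i _).le (sq_nonneg _)
  have h4 : 0 ≤ ∑ i ∈ F, μ i ^ (2 * b) * y i ^ 2 :=
    Finset.sum_nonneg fun i _ => mul_nonneg (hμ.rpow_pos i _).le (sq_nonneg _)
  apply abs_le_of_sq_le_sq _ (mul_nonneg (nrm_nonneg _ _) (nrm_nonneg _ _))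
  rw [mul_pow]
  exact h1.trans (mul_le_mul h2 h3 h4 (sq_nonneg _))

end Pool.Agent.H39.Lions
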