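import Pool.Agent.H39.Lions.Lat

/-!
# The tame estimate for the convection term
-/

open MeasureTheory Set Filter Topology
open scoped ContDiff ENNReal

namespace Pool.Agent.H39.Lions

open H459R3.NS (V K3 Per cube SP pd lap ee fr S N)
open Pool.Agent.H39.PDE (fq)

/-- the convection term `(v · ∇) w` -/
noncomputable def cv (v w : V → V) (x : V) : V := fun i => ∑ l, v x l * pd l (fun y => w y i) x

theorem sp_cv {v w : V → V} (hv : ∀ i, SP fun x => v x i) (hw : ∀ i, SP fun x => w x i) (i : Fin 3) :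
    SP fun x => cv v w x i := SP.sum fun l _ => (hv l).mul ((hw i).pd l)

/-- triangle inequality for the weights -/
theorem mk_tri (p q : K3) : mk (p + q) ≤ mk p + mk q := by
  have hp := mk_pos p
  have hq := mk_pos q
  by_cases h : p + q = 0
  · rw [h, mk_zero]
    have := one_le_mk p
    linarith
  · apply abs_le_of_sq_le_sq' _ (by positivity) |>.2
    rw [mk_sq h]
    have f1 : ∀ k, fq k ≤ mk k ^ 2 := by
      intro k
      by_cases hk : k = 0
      · subst hk
        simp [Pool.Agent.H39.PDE.fq]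
        positivity
      · rw [mk_sq hk]
    have hcs := Finset.sum_mul_sq_le_sq_mul_sq Finset.univ (fun i => (p i : ℝ)) fun i => (q i : ℝ)
    set D := ∑ i, (p i : ℝ) * (q i : ℝ) with hD
    have e1 : fq (p + q) = fq p + fq q + 2 * (4 * Real.pi ^ 2 * D) := by
      unfold Pool.Agent.H39.PDE.fq
      rw [hD]
      simp only [Fin.sum_univ_three, Pi.add_apply, Int.cast_add]
      ring
    have h1 : (4 * Real.pi ^ 2 * D) ^ 2 ≤ fq p * fq q := by
      unfold Pool.Agent.H39.PDE.fq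
      have := mul_le_mul_of_nonneg_left hcs (by positivity : 0 ≤ (4 * Real.pi ^ 2) ^ 2)
      nlinarith
    have h2 : (4 * Real.pi ^ 2 * D) ^ 2 ≤ (mk p * mk q) ^ 2 := by
      refine h1.trans ?_
      rw [mul_pow]
      exact mul_le_mul (f1 p) (f1 q) (fq_nonneg q) (by positivity)
    have h3 : 4 * Real.pi ^ 2 * D ≤ mk p * mk q := abs_le_of_sq_le_sq' h2 (by positivity) |>.2
    have := f1 p
    have := f1 q
    rw [e1]
    nlinarith

theorem W_tri (j : ℕ) (p r : K3) : W j r ≤ 2 ^ j * (W j p + W j (r - p)) := by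
  unfold W
  have h1 := mk_tri p (r - p)
  rw [add_sub_cancel] at h1
  have hp := mk_pos p
  have hq := mk_pos (r - p)
  have hr := mk_pos r
  rw [← ENNReal.ofReal_add (by positivity) (by positivity)]
  have e : (2 : ℝ≥0∞) ^ j = ENNReal.ofReal (2 ^ j) := by
    rw [ENNReal.ofReal_pow (by norm_num)]; norm_num
  rw [e, ← ENNReal.ofReal_mul (by positivity)]
  apply ENNReal.ofReal_le_ofReal
  rw [Real.rpow_natCast, Real.rpow_natCast, Real.rpow_natCast]
  rcases le_total (mk p) (mk (r - p)) with h | h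
  · calc mk r ^ j ≤ (2 * mk (r - p)) ^ j := pow_le_pow_left₀ hr.le (by linarith) j
      _ = 2 ^ j * mk (r - p) ^ j := mul_pow _ _ _
      _ ≤ _ := by
          apply mul_le_mul_of_nonneg_left _ (by positivity)
          have : 0 ≤ mk p ^ j := by positivity
          linarith
  · calc mk r ^ j ≤ (2 * mk p) ^ j := pow_le_pow_left₀ hr.le (by linarith) j
      _ = 2 ^ j * mk p ^ j := mul_pow _ _ _
      _ ≤ _ := by
          apply mul_le_mul_of_nonneg_left _ (by positivity)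
          have : 0 ≤ mk (r - p) ^ j := by positivity
          linarith

/-- the size of a Fourier coefficient -/
noncomputable def am (v : V → V) (k : K3) : ℝ := ∑ i, ‖fr (fun x => v x i) k‖

theorem am_nonneg (v : V → V) (k : K3) : 0 ≤ am v k := Finset.sum_nonneg fun _ _ => norm_nonneg _

theorem fr_mul {f g : V → ℝ} (hf : SP f) (hg : SP g) (r : K3) :
    ENNReal.ofReal ‖fr (fun x => f x * g x) r‖ ≤
      ∑' p, ENNReal.ofReal ‖fr f p‖ * ENNReal.ofReal ‖fr g (r - p)‖ := by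
  have h := H459R3.NS.integral_ee_S_S (-r) (H459R3.NS.rap_fr hf).summable (H459R3.NS.rap_fr hg).summable
  rw [neg_neg] at h
  have e : (∫ x in cube, ee (-r) x * (S (fr f) x * S (fr g) x)) = fr (fun x => f x * g x) r := by
    unfold H459R3.NS.fr H459R3.NS.fc
    congr 1; funext x
    have h1 := H459R3.NS.S_fr hf x
    have h2 := H459R3.NS.S_fr hg x
    unfold H459R3.NS.fr H459R3.NS.fc at h1 h2
    rw [h1, h2]
    push_cast; rfl
  rw [e] at h
  obtain ⟨C, hC⟩ := H459R3.NS.norm_fr_le hg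
  have hs : Summable fun p => ‖fr f p * fr g (r - p)‖ := by
    refine Summable.of_nonneg_of_le (fun _ => norm_nonneg _) (fun p => ?_)
      ((H459R3.NS.rap_fr hf).summable.norm.mul_right C)
    rw [norm_mul]
    exact mul_le_mul_of_nonneg_left (hC _) (norm_nonneg _)
  rw [← h.tsum_eq]
  refine (ENNReal.ofReal_le_ofReal (norm_tsum_le_tsum_norm hs)).trans ?_
  rw [ENNReal.ofReal_tsum_of_nonneg (fun _ => norm_nonneg _) hs]
  refine (tsum_congr fun p => ?_).le
  rw [norm_mul, ENNReal.ofReal_mul (norm_nonneg _)]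

theorem fr_sum' {κ : Type*} (s : Finset κ) {f : κ → V → ℝ} (hf : ∀ a ∈ s, SP (f a)) (k : K3) :
    fr (fun x => ∑ a ∈ s, f a x) k = ∑ a ∈ s, fr (f a) k := by
  unfold H459R3.NS.fr H459R3.NS.fc
  rw [← integral_finsetSum]
  · congr 1; funext x
    push_cast
    rw [Finset.mul_sum]
  · intro a ha'
    exact H459R3.NS.integrableOn_cube ((H459R3.NS.ee_continuous _).mul
      (Complex.continuous_ofReal.comp (hf a ha').cont))

theorem norm_fr_pd {f : V → ℝ} (hf : SP f) (l : Fin 3) (k : K3) : ‖fr (pd l f) k‖ ≤ mk k * ‖fr f k‖ := by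
  rw [H459R3.NS.fr_pd hf]
  unfold H459R3.NS.D
  rw [norm_mul]
  refine mul_le_mul_of_nonneg_right ?_ (norm_nonneg _)
  rw [norm_mul, norm_mul, norm_mul, Complex.norm_I, mul_one, Complex.norm_real,
      Real.norm_eq_abs, abs_of_pos Real.pi_pos, Complex.norm_ofNat, Complex.norm_intCast]
  exact abs_le_mk k l

/-- the majorant of the Fourier coefficients of `(v · ∇) w` -/
theorem fr_cv {v w : V → V} (hv : ∀ i, SP fun x => v x i) (hw : ∀ i, SP fun x => w x i) (i : Fin 3) (r : K3) :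
    ENNReal.ofReal ‖fr (fun x => cv v w x i) r‖ ≤
      ∑' p, ENNReal.ofReal (am v p) * (W 1 (r - p) * ENNReal.ofReal (am w (r - p))) := by
  unfold cv
  rw [fr_sum' _ fun l _ => (hv l).mul ((hw i).pd l)]
  calc ENNReal.ofReal ‖∑ l, fr (fun x => v x l * pd l (fun y => w y i) x) r‖ ≤
      ENNReal.ofReal (∑ l, ‖fr (fun x => v x l * pd l (fun y => w y i) x) r‖) :=
        ENNReal.ofReal_le_ofReal (norm_sum_le _ _)
    _ = ∑ l, ENNReal.ofReal ‖fr (fun x => v x l * pd l (fun y => w y i) x) r‖ :=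
        ENNReal.ofReal_sum_of_nonneg fun _ _ => norm_nonneg _
    _ ≤ ∑ l, ∑' p, ENNReal.ofReal ‖fr (fun x => v x l) p‖ * (W 1 (r - p) * ENNReal.ofReal (am w (r - p))) := by
        refine Finset.sum_le_sum fun l _ => (fr_mul (hv l) ((hw i).pd l) r).trans ?_
        refine ENNReal.tsum_le_tsum fun p => mul_le_mul' le_rfl ?_
        unfold W
        rw [Real.rpow_one, ← ENNReal.ofReal_mul (mk_pos _).le]
        apply ENNReal.ofReal_le_ofReal
        refine (norm_fr_pd (hw i) l (r - p)).trans (mul_le_mul_of_nonneg_left ?_ (mk_pos _).le)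
        exact Finset.single_le_sum (f := fun i => ‖fr (fun x => w x i) (r - p)‖) (fun _ _ => norm_nonneg _)
          (Finset.mem_univ i)
    _ = ∑' p, ∑ l, ENNReal.ofReal ‖fr (fun x => v x l) p‖ * (W 1 (r - p) * ENNReal.ofReal (am w (r - p))) :=
        (Summable.tsum_finsetSum fun _ _ => ENNReal.summable).symm
    _ = _ := by
        refine tsum_congr fun p => ?_
        rw [← Finset.sum_mul]
        congr 1
        unfold am
        exact (ENNReal.ofReal_sum_of_nonneg fun _ _ => norm_nonneg _).symm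

/-- norms in terms of Fourier coefficients -/
theorem hasSum_fr {v : V → V} (hv : ∀ i, SP fun x => v x i) (c : ℝ) :
    HasSum (fun k => mk k ^ (2 * c) * ∑ i, ‖fr (fun x => v x i) k‖ ^ 2) (nsq mu c (cf v)) := by
  have h1 : HasSum (fun k => mk k ^ (2 * c) * ∑ i, cf v (k, i) ^ 2) (nsq mu c (cf v)) := by
    rw [nsq_pair (rd_cf hv)]
    exact (summable_pair' (rd_cf hv) c).hasSum
  have h2 : HasSum (fun k => mk (-k) ^ (2 * c) * ∑ i, cf v (-k, i) ^ 2) (nsq mu c (cf v)) :=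
    (Equiv.neg K3).hasSum_iff.2 h1
  have h3 := (h1.add h2).mul_left (1 / 2)
  rw [show (1 / 2 : ℝ) * (nsq mu c (cf v) + nsq mu c (cf v)) = nsq mu c (cf v) by ring] at h3
  have e : (fun k => mk k ^ (2 * c) * ∑ i, ‖fr (fun x => v x i) k‖ ^ 2) = fun k =>
      1 / 2 * (mk k ^ (2 * c) * ∑ i, cf v (k, i) ^ 2 + mk (-k) ^ (2 * c) * ∑ i, cf v (-k, i) ^ 2) := by
    funext k
    rw [mk_neg]
    simp only [cf, ha, fr_neg', Fin.sum_univ_three, Complex.star_def, Complex.conj_re, Complex.conj_im,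
        Complex.sq_norm, Complex.normSq_apply]
    ring
  rw [e]
  exact h3

theorem ofReal_nsq {v : V → V} (hv : ∀ i, SP fun x => v x i) (c : ℝ) :
    ENNReal.ofReal (nsq mu c (cf v)) = ∑' k, W (2 * c) k * ENNReal.ofReal (∑ i, ‖fr (fun x => v x i) k‖ ^ 2) := by
  have h := hasSum_fr hv c
  have h0 : ∀ k, 0 ≤ mk k ^ (2 * c) * ∑ i, ‖fr (fun x => v x i) k‖ ^ 2 := fun k =>
    mul_nonneg (Real.rpow_nonneg (mk_pos k).le _) (Finset.sum_nonneg fun _ _ => sq_nonneg _)
  rw [← h.tsum_eq, ENNReal.ofReal_tsum_of_nonneg h0 h.summable]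
  refine tsum_congr fun k => ?_
  rw [ENNReal.ofReal_mul (Real.rpow_nonneg (mk_pos k).le _)]
  rfl

theorem E_le {v : V → V} (hv : ∀ i, SP fun x => v x i) (c : ℝ) :
    ∑' p, (W c p * ENNReal.ofReal (am v p)) ^ 2 ≤ 3 * ENNReal.ofReal (nsq mu c (cf v)) := by
  rw [ofReal_nsq hv, ← ENNReal.tsum_mul_left]
  refine ENNReal.tsum_le_tsum fun p => ?_
  rw [mul_pow, W_sq, mul_left_comm]
  refine mul_le_mul' le_rfl ?_
  rw [← ENNReal.ofReal_pow (am_nonneg v p)]
  have e : (3 : ℝ≥0∞) = ENNReal.ofReal 3 := by norm_num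
  rw [e, ← ENNReal.ofReal_mul (by norm_num)]
  apply ENNReal.ofReal_le_ofReal
  unfold am
  simp only [Fin.sum_univ_three]
  nlinarith [sq_nonneg (‖fr (fun x => v x 0) p‖ - ‖fr (fun x => v x 1) p‖),
    sq_nonneg (‖fr (fun x => v x 0) p‖ - ‖fr (fun x => v x 2) p‖),
    sq_nonneg (‖fr (fun x => v x 1) p‖ - ‖fr (fun x => v x 2) p‖)]

/-- **The tame estimate for the convection term.** -/
theorem cv_tame (j : ℕ) : ∃ K : ℝ, 0 ≤ K ∧ ∀ v w : V → V, (∀ i, SP fun x => v x i) → (∀ i, SP fun x => w x i) →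
    nrm mu j (cf (cv v w)) ≤ K * (nrm mu (5 / 4) (cf v) * nrm mu (j + 5 / 4) (cf w) +
      nrm mu (j + 5 / 4) (cf v) * nrm mu (5 / 4) (cf w)) := by
  refine ⟨214 * 2 ^ j, by positivity, fun v w hv hw => ?_⟩
  have hcv := sp_cv hv hw
  set T : K3 → ℝ≥0∞ := fun r => ∑' p, ENNReal.ofReal (am v p) * (W 1 (r - p) * ENNReal.ofReal (am w (r - p))) with hT
  set A : ℝ → K3 → ℝ≥0∞ := fun c p => W c p * ENNReal.ofReal (am v p) with hA
  set B : ℝ → K3 → ℝ≥0∞ := fun c p => W c p * ENNReal.ofReal (am w p) with hB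
  set U : (K3 → ℝ≥0∞) → (K3 → ℝ≥0∞) → K3 → ℝ≥0∞ := fun α β r =>
    ∑' p, (W (-(5 / 4)) p * α p) * (W (-(1 / 4)) (r - p) * β (r - p)) with hU
  have h1 : ∀ r, W j r * T r ≤ 2 ^ j * (U (A (j + 5 / 4)) (B (5 / 4)) r + U (A (5 / 4)) (B (j + 5 / 4)) r) := by
    intro r
    simp only [hT, hU]
    rw [← ENNReal.tsum_mul_left, ← ENNReal.tsum_add, ← ENNReal.tsum_mul_left]
    refine ENNReal.tsum_le_tsum fun p => ?_
    have e1 : W (-(5 / 4)) p * A (j + 5 / 4) p = W j p * ENNReal.ofReal (am v p) := by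
      simp only [hA]
      rw [← mul_assoc, W_mul]
      congr 2; ring
    have e2 : W (-(1 / 4)) (r - p) * B (5 / 4) (r - p) = W 1 (r - p) * ENNReal.ofReal (am w (r - p)) := by
      simp only [hB]
      rw [← mul_assoc, W_mul]
      congr 2; norm_num
    have e3 : W (-(5 / 4)) p * A (5 / 4) p = ENNReal.ofReal (am v p) := by
      simp only [hA]
      rw [← mul_assoc, W_mul, show (-(5 / 4) + 5 / 4 : ℝ) = 0 by norm_num, W_zero, one_mul]
    have e4 : W (-(1 / 4)) (r - p) * B (j + 5 / 4) (r - p) = W j (r - p) * (W 1 (r - p) * ENNReal.ofReal (am w (r - p))) := by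
      simp only [hB]
      rw [← mul_assoc, W_mul, ← mul_assoc, W_mul]
      congr 2; ring
    rw [e1, e2, e3, e4]
    calc W j r * (ENNReal.ofReal (am v p) * (W 1 (r - p) * ENNReal.ofReal (am w (r - p)))) ≤
        (2 ^ j * (W j p + W j (r - p))) * (ENNReal.ofReal (am v p) * (W 1 (r - p) * ENNReal.ofReal (am w (r - p)))) :=
          mul_le_mul' (W_tri j p r) le_rfl
      _ = _ := by ring
  have h2 : ENNReal.ofReal (nsq mu j (cf (cv v w))) ≤ 3 * ∑' r, (W j r * T r) ^ 2 := by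
    rw [ofReal_nsq hcv, ← ENNReal.tsum_mul_left]
    refine ENNReal.tsum_le_tsum fun r => ?_
    rw [mul_pow, W_sq, mul_left_comm]
    refine mul_le_mul' le_rfl ?_
    rw [ENNReal.ofReal_sum_of_nonneg fun _ _ => sq_nonneg _]
    have h3 : ∀ i ∈ (Finset.univ : Finset (Fin 3)), ENNReal.ofReal (‖fr (fun x => cv v w x i) r‖ ^ 2) ≤ T r ^ 2 := by
      intro i _
      rw [ENNReal.ofReal_pow (norm_nonneg _)]
      exact pow_le_pow_left' (fr_cv hv hw i r) 2
    refine (Finset.sum_le_sum h3).trans ?_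
    simp
  have h4 : ∑' r, (W j r * T r) ^ 2 ≤ 4 ^ j * (4 * (424 * ((3 * ENNReal.ofReal (nsq mu (j + 5 / 4) (cf v))) *
      (3 * ENNReal.ofReal (nsq mu (5 / 4) (cf w)))) + 424 * ((3 * ENNReal.ofReal (nsq mu (5 / 4) (cf v))) *
      (3 * ENNReal.ofReal (nsq mu (j + 5 / 4) (cf w)))))) := by
    calc ∑' r, (W j r * T r) ^ 2 ≤ ∑' r, 4 ^ j * (4 * (U (A (j + 5 / 4)) (B (5 / 4)) r ^ 2 +
          U (A (5 / 4)) (B (j + 5 / 4)) r ^ 2)) := by
          refine ENNReal.tsum_le_tsum fun r => (pow_le_pow_left' (h1 r) 2).trans ?_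
          rw [mul_pow, ← pow_mul, mul_comm j 2, pow_mul, show ((2 : ℝ≥0∞) ^ 2) = 4 by norm_num]
          exact mul_le_mul' le_rfl (add_sq_le' _ _)
      _ = 4 ^ j * (4 * (∑' r, U (A (j + 5 / 4)) (B (5 / 4)) r ^ 2 + ∑' r, U (A (5 / 4)) (B (j + 5 / 4)) r ^ 2)) := by
          rw [ENNReal.tsum_mul_left, ENNReal.tsum_mul_left, ENNReal.tsum_add]
      _ ≤ _ := by
          refine mul_le_mul' le_rfl (mul_le_mul' le_rfl (add_le_add ?_ ?_))
          · exact (conv_ineq _ _).trans (mul_le_mul' le_rfl (mul_le_mul' (E_le hv _) (E_le hw _)))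
          · exact (conv_ineq _ _).trans (mul_le_mul' le_rfl (mul_le_mul' (E_le hv _) (E_le hw _)))
  set a := nrm mu (5 / 4) (cf v) with ha'
  set b := nrm mu (j + 5 / 4) (cf w) with hb'
  set c := nrm mu (j + 5 / 4) (cf v) with hc'
  set d := nrm mu (5 / 4) (cf w) with hd'
  have a0 : 0 ≤ a := nrm_nonneg _ _
  have b0 : 0 ≤ b := nrm_nonneg _ _
  have c0 : 0 ≤ c := nrm_nonneg _ _
  have d0 : 0 ≤ d := nrm_nonneg _ _
  have h5 : ENNReal.ofReal (nsq mu j (cf (cv v w))) ≤ ENNReal.ofReal (45792 * 4 ^ j * (c ^ 2 * d ^ 2 + a ^ 2 * b ^ 2)) := by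
    refine (h2.trans (mul_le_mul' le_rfl h4)).trans (le_of_eq ?_)
    rw [← nrm_sq wt_mu, ← nrm_sq wt_mu, ← nrm_sq wt_mu, ← nrm_sq wt_mu, ← ha', ← hb', ← hc', ← hd',
      ENNReal.ofReal_mul (by positivity), ENNReal.ofReal_mul (by positivity), ENNReal.ofReal_add (by positivity)
      (by positivity), ENNReal.ofReal_mul (by positivity), ENNReal.ofReal_mul (by positivity),
      ENNReal.ofReal_pow (by norm_num : (0 : ℝ) ≤ 4)]
    simp only [ENNReal.ofReal_ofNat]
    ring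
  have h6 := (ENNReal.ofReal_le_ofReal_iff (by positivity)).1 h5
  rw [← nrm_sq wt_mu] at h6
  apply abs_le_of_sq_le_sq' _ (by positivity) |>.2
  refine h6.trans ?_
  have e5 : ((2 : ℝ) ^ j) ^ 2 = 4 ^ j := by
    rw [← pow_mul, mul_comm, pow_mul]; norm_num
  have h7 : 0 ≤ a * b * (c * d) := by positivity
  have h8 : (0 : ℝ) < 4 ^ j := by positivity
  have e6 : (214 * 2 ^ j * (a * b + c * d)) ^ 2 = 45796 * 4 ^ j * ((a * b + c * d) ^ 2) := by
    rw [mul_pow, mul_pow, e5]; norm_num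
  rw [e6]
  have h9 : c ^ 2 * d ^ 2 + a ^ 2 * b ^ 2 ≤ (a * b + c * d) ^ 2 := by nlinarith
  have h10 : 45792 * 4 ^ j * (c ^ 2 * d ^ 2 + a ^ 2 * b ^ 2) ≤ 45796 * 4 ^ j * (c ^ 2 * d ^ 2 + a ^ 2 * b ^ 2) := by
    apply mul_le_mul_of_nonneg_right _ (by positivity)
    linarith
  exact h10.trans (mul_le_mul_of_nonneg_left h9 (by positivity))

end Pool.Agent.H39.Lions
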