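import Pool.Agent.H39.Lions.Ladder

/-!
# Uniqueness
-/

open Set Filter Topology Metric
open scoped ContDiff NNReal

namespace Pool.Agent.H39.Lions

variable {ι : Type*} {μ : ι → ℝ} {C : (ι → ℝ) → (ι → ℝ) → ι → ℝ}

/-- **Uniqueness of solutions with uniform bounds.** -/
theorem uniq (hμ : Wt μ) (hC : Bil μ C) {ν s b : ℝ} (hν : 0 < ν) (hs : 5 / 4 ≤ s) {x y : ℝ → ι → ℝ}
    (hxB : ∀ m : ℕ, ∃ B : ℝ, ∀ t ∈ Icc 0 b, ∀ i, μ i ^ m * |x t i| ≤ B)
    (hyB : ∀ m : ℕ, ∃ B : ℝ, ∀ t ∈ Icc 0 b, ∀ i, μ i ^ m * |y t i| ≤ B)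
    (hx : ∀ t ∈ Icc 0 b, ∀ i, HasDerivWithinAt (fun s => x s i)
      (-(ν * μ i ^ (2 * s)) * x t i + C (x t) (x t) i) (Icc 0 b) t)
    (hy : ∀ t ∈ Icc 0 b, ∀ i, HasDerivWithinAt (fun s => y s i)
      (-(ν * μ i ^ (2 * s)) * y t i + C (y t) (y t) i) (Icc 0 b) t)
    (h0 : x 0 = y 0) {t : ℝ} (ht : t ∈ Icc 0 b) : x t = y t := by
  classical
  have hxr : ∀ t ∈ Icc 0 b, RD μ (x t) := fun t ht m => by
    obtain ⟨B, h⟩ := hxB m
    exact ⟨B, h t ht⟩
  have hyr : ∀ t ∈ Icc 0 b, RD μ (y t) := fun t ht m => by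
    obtain ⟨B, h⟩ := hyB m
    exact ⟨B, h t ht⟩
  set w : ℝ → ι → ℝ := fun t i => x t i - y t i with hw
  have hwr : ∀ t ∈ Icc 0 b, RD μ (w t) := fun t ht => RD.sub hμ (hxr t ht) (hyr t ht)
  obtain ⟨K, hK0, hK⟩ := hC.tame' 0
  obtain ⟨m1, A1, hA1, h1⟩ := hμ.nrm_le (5 / 4)
  obtain ⟨Bx, hBx⟩ := hxB m1
  obtain ⟨By, hBy⟩ := hyB m1
  set A : ℝ := (|Bx| + |By|) * A1 with hA
  have hA0 : 0 ≤ A := by positivity
  have nx : ∀ t ∈ Icc 0 b, nrm μ (5 / 4) (x t) ≤ A := fun t ht => (h1 _ Bx (hBx t ht)).trans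
    (mul_le_mul_of_nonneg_right (le_add_of_nonneg_right (abs_nonneg _)) hA1)
  have ny : ∀ t ∈ Icc 0 b, nrm μ (5 / 4) (y t) ≤ A := fun t ht => (h1 _ By (hBy t ht)).trans
    (mul_le_mul_of_nonneg_right (le_add_of_nonneg_left (abs_nonneg _)) hA1)
  set M : ℝ := 32 * (K * A) ^ 2 / ν with hM
  have hM0 : 0 ≤ M := by positivity
  set D : ℝ → ι → ℝ := fun t i => C (w t) (x t) i + C (y t) (w t) i with hD
  have hwd : ∀ t ∈ Icc 0 b, ∀ i, HasDerivWithinAt (fun s => w s i)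
      (-(ν * μ i ^ (2 * s)) * w t i + D t i) (Icc 0 b) t := by
    intro t ht i
    refine ((hx t ht i).sub (hy t ht i)).congr_deriv ?_
    simp only [hD, hw]
    rw [hC.sub_left (hxr t ht) (hyr t ht) (hxr t ht), hC.sub_right (hyr t ht) (hxr t ht) (hyr t ht)]
    ring
  have hDr : ∀ t ∈ Icc 0 b, RD μ (D t) := fun t ht =>
    RD.add hμ (hC.rd _ _ (hwr t ht) (hxr t ht)) (hC.rd _ _ (hyr t ht) (hwr t ht))
  have hDn : ∀ t ∈ Icc 0 b, nrm μ 0 (D t) ≤ 8 * (K * A) * nrm μ (5 / 4) (w t) := by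
    intro t ht
    have a1 := nrm_add hμ (hC.rd _ _ (hwr t ht) (hxr t ht)) (hC.rd _ _ (hyr t ht) (hwr t ht)) 0
    have a2 := hK _ _ (hwr t ht) (hxr t ht)
    have a3 := hK _ _ (hyr t ht) (hwr t ht)
    simp only [Nat.cast_zero, zero_add] at a2 a3
    have pw := nrm_nonneg (μ := μ) (5 / 4) (w t)
    have a4 : nrm μ (5 / 4) (w t) * nrm μ (5 / 4) (x t) ≤ nrm μ (5 / 4) (w t) * A :=
      mul_le_mul_of_nonneg_left (nx t ht) pw
    have a5 : nrm μ (5 / 4) (y t) * nrm μ (5 / 4) (w t) ≤ A * nrm μ (5 / 4) (w t) :=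
      mul_le_mul_of_nonneg_right (ny t ht) pw
    have a6 : K * (nrm μ (5 / 4) (w t) * nrm μ (5 / 4) (x t) + nrm μ (5 / 4) (w t) * nrm μ (5 / 4) (x t)) ≤
        K * (2 * (nrm μ (5 / 4) (w t) * A)) := mul_le_mul_of_nonneg_left (by linarith) hK0
    have a7 : K * (nrm μ (5 / 4) (y t) * nrm μ (5 / 4) (w t) + nrm μ (5 / 4) (y t) * nrm μ (5 / 4) (w t)) ≤
        K * (2 * (A * nrm μ (5 / 4) (w t))) := mul_le_mul_of_nonneg_left (by linarith) hK0
    calc nrm μ 0 (D t) ≤ 2 * (nrm μ 0 (C (w t) (x t)) + nrm μ 0 (C (y t) (w t))) := a1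
      _ ≤ 2 * (K * (2 * (nrm μ (5 / 4) (w t) * A)) + K * (2 * (A * nrm μ (5 / 4) (w t)))) := by linarith
      _ = _ := by ring
  -- truncated energies
  have hstep : ∀ (F : Finset ι), ∀ t ∈ Icc 0 b, ∃ e', HasDerivWithinAt
      (fun t => ∑ i ∈ F, μ i ^ (2 * (5 / 4) : ℝ) * w t i ^ 2) e' (Icc 0 b) t ∧ e' ≤ M * nsq μ (5 / 4) (w t) := by
    intro F t ht
    have hd : HasDerivWithinAt (fun t => ∑ i ∈ F, μ i ^ (2 * (5 / 4) : ℝ) * w t i ^ 2)
        (∑ i ∈ F, μ i ^ (2 * (5 / 4) : ℝ) * (((2 : ℕ) : ℝ) * w t i ^ (2 - 1) *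
          (-(ν * μ i ^ (2 * s)) * w t i + D t i))) (Icc 0 b) t :=
      HasDerivWithinAt.fun_sum fun i _ => ((hwd t ht i).pow 2).const_mul _
    refine ⟨_, hd, ?_⟩
    set wF : ι → ℝ := fun i => if i ∈ F then w t i else 0 with hwF
    have hwFs : ∀ i, i ∉ F → wF i = 0 := fun i hi => if_neg hi
    have hwFr : RD μ wF := RD.fin F hwFs
    set q := nrm μ (5 / 2) wF with hq
    set n := nrm μ (5 / 4) (w t) with hn
    have pq : 0 ≤ q := nrm_nonneg _ _
    have pn : 0 ≤ n := nrm_nonneg _ _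
    have c1 := cs_fin hμ F (hDr t ht) hwFr 0 (5 / 2) (5 / 4) (by norm_num)
    have c2 : ∑ i ∈ F, μ i ^ (2 * (5 / 4) : ℝ) * (D t i * wF i) = ∑ i ∈ F, μ i ^ (2 * (5 / 4) : ℝ) * (D t i * w t i) :=
      Finset.sum_congr rfl fun i hi => by simp only [hwF, if_pos hi]
    rw [c2] at c1
    have c3 : q ^ 2 = ∑ i ∈ F, μ i ^ (2 * (5 / 2) : ℝ) * w t i ^ 2 := by
      rw [hq, nrm_sq hμ, nsq_fin F hwFs]
      exact Finset.sum_congr rfl fun i hi => by simp only [hwF, if_pos hi]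
    have c4 : q ^ 2 ≤ ∑ i ∈ F, μ i ^ (2 * (5 / 4) : ℝ) * (μ i ^ (2 * s) * w t i ^ 2) := by
      rw [c3]
      refine Finset.sum_le_sum fun i _ => ?_
      rw [← mul_assoc, ← Real.rpow_add (hμ.pos i)]
      apply mul_le_mul_of_nonneg_right _ (sq_nonneg _)
      exact Real.rpow_le_rpow_of_exponent_le (hμ.one i) (by linarith)
    have c5 : ∑ i ∈ F, μ i ^ (2 * (5 / 4) : ℝ) * (((2 : ℕ) : ℝ) * w t i ^ (2 - 1) *
        (-(ν * μ i ^ (2 * s)) * w t i + D t i)) =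
        -(2 * ν) * ∑ i ∈ F, μ i ^ (2 * (5 / 4) : ℝ) * (μ i ^ (2 * s) * w t i ^ 2) +
        2 * ∑ i ∈ F, μ i ^ (2 * (5 / 4) : ℝ) * (D t i * w t i) := by
      rw [Finset.mul_sum, Finset.mul_sum, ← Finset.sum_add_distrib]
      refine Finset.sum_congr rfl fun i _ => ?_
      simp only [Nat.cast_ofNat, Nat.add_one_sub_one, pow_one]
      ring
    rw [c5]
    have c6 : ∑ i ∈ F, μ i ^ (2 * (5 / 4) : ℝ) * (D t i * w t i) ≤ 8 * (K * A) * n * q :=
      (le_abs_self _).trans (c1.trans (mul_le_mul_of_nonneg_right (hDn t ht) pq))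
    have c7 : nsq μ (5 / 4) (w t) = n ^ 2 := (nrm_sq hμ _ _).symm
    rw [c7, hM]
    have c8 : 2 * ν * q ^ 2 + 32 * (K * A) ^ 2 / ν * n ^ 2 - 2 * (8 * (K * A) * n * q) =
        2 / ν * (ν * q - 4 * (K * A) * n) ^ 2 := by
      field_simp
      ring
    have c9 : 0 ≤ 2 / ν * (ν * q - 4 * (K * A) * n) ^ 2 := by positivity
    nlinarith
  have hit : ∀ j : ℕ, ∀ t ∈ Icc 0 b, nsq μ (5 / 4) (w t) ≤ (4 * A) ^ 2 * (M * t) ^ j / j.factorial := by
    intro j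
    induction j with
    | zero =>
      intro t ht
      simp only [pow_zero, Nat.factorial_zero, Nat.cast_one, div_one, mul_one]
      rw [← nrm_sq hμ]
      refine pow_le_pow_left₀ (nrm_nonneg _ _) ?_ 2
      have h2 := nrm_add hμ (hxr t ht) ((hyr t ht).smul (-1)) (5 / 4)
      rw [nrm_smul, abs_neg, abs_one, one_mul] at h2
      have e : (fun i => x t i + -1 * y t i) = w t := by funext i; simp only [hw]; ring
      rw [e] at h2
      have := nx t ht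
      have := ny t ht
      linarith
    | succ j ih =>
      intro t ht
      refine Real.tsum_le_of_sum_le (fun i => mul_nonneg (hμ.rpow_pos i _).le (sq_nonneg _)) fun F => ?_
      choose! e' he' hle using hstep F
      have hpow : ∀ τ, HasDerivAt (fun τ : ℝ => (4 * A) ^ 2 * (M * τ) ^ (j + 1) / (j + 1).factorial)
          (M * ((4 * A) ^ 2 * (M * τ) ^ j / j.factorial)) τ := by
        intro τ
        have h3 := ((((hasDerivAt_id τ).const_mul M).pow (j + 1)).const_mul ((4 * A) ^ 2)).div_const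
          ((j + 1).factorial : ℝ)
        refine h3.congr_deriv ?_
        simp only [id, Nat.add_one_sub_one, Nat.factorial_succ, Nat.cast_mul, Nat.cast_succ, mul_one]
        have : (j.factorial : ℝ) ≠ 0 := by positivity
        have : ((j : ℝ) + 1) ≠ 0 := by positivity
        field_simp
      have hanti := antitone_of_deriv (T := b)
        (f := fun τ => (∑ i ∈ F, μ i ^ (2 * (5 / 4) : ℝ) * w τ i ^ 2) -
          (4 * A) ^ 2 * (M * τ) ^ (j + 1) / (j + 1).factorial)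
        (f' := fun τ => e' τ - M * ((4 * A) ^ 2 * (M * τ) ^ j / j.factorial))
        (fun τ hτ => (he' τ hτ).sub (hpow τ).hasDerivWithinAt)
        (fun τ hτ => by
          have h4 := hle τ hτ
          have h5 := mul_le_mul_of_nonneg_left (ih τ hτ) hM0
          linarith)
      have h6 := hanti (⟨le_rfl, ht.1.trans ht.2⟩ : (0 : ℝ) ∈ Icc 0 b) ht ht.1
      have h7 : ∑ i ∈ F, μ i ^ (2 * (5 / 4) : ℝ) * w 0 i ^ 2 = 0 := by
        refine Finset.sum_eq_zero fun i _ => ?_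
        simp only [hw, h0]
        simp
      simp only [h7, mul_zero, zero_pow (Nat.succ_ne_zero j), zero_div, sub_zero] at h6
      linarith
  have hlim : Tendsto (fun j : ℕ => (4 * A) ^ 2 * (M * t) ^ j / j.factorial) atTop (𝓝 0) := by
    have h2 := (FloorSemiring.tendsto_pow_div_factorial_atTop (M * t)).const_mul ((4 * A) ^ 2)
    rw [mul_zero] at h2
    refine h2.congr fun j => ?_
    ring
  have hz : nsq μ (5 / 4) (w t) ≤ 0 := ge_of_tendsto hlim (Eventually.of_forall fun j => hit j t ht)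
  have hz' : nrm μ (5 / 4) (w t) ≤ 0 := by
    have := nrm_sq hμ (5 / 4) (w t)
    have := nrm_nonneg (μ := μ) (5 / 4) (w t)
    nlinarith
  funext i
  have h3 := (abs_le_nrm hμ (hwr t ht) (5 / 4) i).trans hz'
  have h4 := hμ.rpow_pos i (5 / 4)
  have h5 : |w t i| ≤ 0 := by
    by_contra hcon
    push Not at hcon
    have := mul_pos h4 hcon
    linarith
  have h6 := abs_nonpos_iff.1 h5
  simp only [hw] at h6
  linarith

end Pool.Agent.H39.Lions
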