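import Pool.Agent.H39.Lions.Ex
import Pool.Agent.H39.Lions.UniqA

/-!
# Uniqueness of smooth solutions for `s ≥ 5 / 4`
-/

open MeasureTheory Set Filter Topology
open scoped ContDiff ENNReal

namespace Pool.Agent.H39.Lions

open H459R3.NS (V K3 Per cube SP pd lap ee fr S N)
open Pool.Agent.H39.PDE (fq sob ip)
open Pool.Agent.K1H11.NS (Ev.SF)

variable {θ s ν T : ℝ} {C : (V → V) → (V → V) → V → V} {u : ℝ → V → V} {p : ℝ → V → ℝ}

theorem Sol.SF (h : Sol θ s ν C T u p) (i : Fin 3) : Ev.SF T fun τ y => u τ y i :=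
  ⟨(contDiffOn_pi.1 h.smooth_u) i, fun τ hτ j x => ((h.field τ hτ).sp i).per j x⟩

/-- Hartley coefficients as integrals -/
theorem ha_int {f : V → ℝ} (hf : Continuous f) (k : K3) : ha f k = ∫ x in cube, f x * cas k x := by
  have hint : IntegrableOn (fun x => ee (-k) x * ((f x : ℝ) : ℂ)) cube :=
    H459R3.NS.integrableOn_cube ((H459R3.NS.ee_continuous _).mul (Complex.continuous_ofReal.comp hf))
  unfold ha H459R3.NS.fr H459R3.NS.fc
  have h1 : (∫ x in cube, ee (-k) x * ((f x : ℝ) : ℂ)).re = ∫ x in cube, f x * (ee k x).re := by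
    rw [← RCLike.re_eq_complex_re, ← integral_re hint]
    congr 1; funext x
    rw [RCLike.re_eq_complex_re, H459R3.NS.ee_neg]
    simp only [Complex.mul_re, Complex.conj_re, Complex.conj_im, Complex.ofReal_re, Complex.ofReal_im]
    ring
  have h2 : (∫ x in cube, ee (-k) x * ((f x : ℝ) : ℂ)).im = -∫ x in cube, f x * (ee k x).im := by
    rw [← RCLike.im_eq_complex_im, ← integral_im hint, ← integral_neg]
    congr 1; funext x
    rw [RCLike.im_eq_complex_im, H459R3.NS.ee_neg]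
    simp only [Complex.mul_im, Complex.conj_re, Complex.conj_im, Complex.ofReal_re, Complex.ofReal_im]
    ring
  rw [h1, h2, sub_neg_eq_add, ← integral_add]
  · congr 1; funext x; unfold cas; ring
  · exact H459R3.NS.integrableOn_cube (hf.mul (Complex.continuous_re.comp (H459R3.NS.ee_continuous k)))
  · exact H459R3.NS.integrableOn_cube (hf.mul (Complex.continuous_im.comp (H459R3.NS.ee_continuous k)))

theorem cas_contDiff (k : K3) : ContDiff ℝ ∞ (cas k) :=
  (Complex.reCLM.contDiff.comp (H459R3.NS.ee_contDiff k)).add (Complex.imCLM.contDiff.comp (H459R3.NS.ee_contDiff k))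

/-- the coefficients as functions of time -/
theorem ha_hasDerivAt {f : ℝ → V → ℝ} (hf : Ev.SF T f) {t : ℝ} (ht : t ∈ Ioo 0 T) (k : K3) :
    HasDerivAt (fun τ => ha (f τ) k) (∫ x in cube, deriv (fun τ => f τ x) t * cas k x) t := by
  have hF : ContDiffOn ℝ 1 (fun z : ℝ × V => f z.1 z.2 * cas k z.2) (Ioo 0 T ×ˢ univ) := by
    refine (H459R3.NS.mono_Ioo (f := f) hf.smooth (by norm_cast)).mul ?_
    exact (((cas_contDiff k).of_le (by norm_cast)).comp contDiff_snd).contDiffOn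
  have key := H459R3.NS.hasDerivAt_int (F := fun τ x => f τ x * cas k x) hF ht
  have h1 : (∫ x in cube, deriv (fun τ => f τ x * cas k x) t) = ∫ x in cube, deriv (fun τ => f τ x) t * cas k x := by
    congr 1
    funext x
    have h2 : HasDerivAt (fun τ => f τ x) (deriv (fun τ => f τ x) t) t :=
      (H459R3.NS.hasDerivAt_slice (F := f) (H459R3.NS.mono_Ioo (f := f) hf.smooth (n := 1) (by norm_cast)) ht
        x).differentiableAt.hasDerivAt
    exact (h2.mul_const _).deriv
  rw [← h1]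
  refine key.congr_of_eventuallyEq ?_
  filter_upwards [Ioo_mem_nhds ht.1 ht.2] with τ hτ
  exact ha_int (hf.sp ⟨hτ.1.le, hτ.2⟩).cont k

theorem ha_continuousOn {f : ℝ → V → ℝ} (hf : Ev.SF T f) (k : K3) : ContinuousOn (fun τ => ha (f τ) k) (Ico 0 T) := by
  have h1 : ContinuousOn (fun τ => ∫ x in cube, f τ x * cas k x) (Ico 0 T) := by
    refine H459R3.NS.continuousOn_int (F := fun τ x => f τ x * cas k x) ?_
    exact hf.smooth.continuousOn.mul ((cas_contDiff k).continuous.comp continuous_snd).continuousOn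
  exact h1.congr fun τ hτ => ha_int (hf.sp hτ).cont k

/-- the time derivative is smooth in space -/
theorem sp_dt {f : ℝ → V → ℝ} (hf : Ev.SF T f) {t : ℝ} (ht : t ∈ Ioo 0 T) : SP fun x => deriv (fun τ => f τ x) t := by
  refine ⟨H459R3.NS.contDiff_dt (f := f) hf.smooth ht, fun j x => ?_⟩
  show deriv (fun τ => f τ (x + Pi.single j 1)) t = deriv (fun τ => f τ x) t
  refine Filter.EventuallyEq.deriv_eq ?_
  filter_upwards [Ioo_mem_nhds ht.1 ht.2] with τ hτ
  exact hf.per τ ⟨hτ.1.le, hτ.2⟩ j x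

/-- **The equation in coefficients.** -/
theorem Sol.coord (hC : EulerType C) (h : Sol θ s ν C T u p) {t : ℝ} (ht : t ∈ Ioo 0 T) (q : K3 × Fin 3) :
    HasDerivAt (fun τ => cf (u τ) q) (-(ν * mu q ^ (2 * s)) * cf (u t) q + opA θ C (cf (u t)) (cf (u t)) q) t := by
  have hI : t ∈ Ico 0 T := ⟨ht.1.le, ht.2⟩
  have hF := h.field t hI
  set D : V → V := fun x i => deriv (fun τ => u τ x i) t with hD
  have hDsp : ∀ i, SP fun x => D x i := fun i => sp_dt (h.SF i) ht
  have hd : ∀ q, HasDerivAt (fun τ => cf (u τ) q) (cf D q) t := by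
    intro q
    have h1 := ha_hasDerivAt (h.SF q.2) ht q.1
    have h2 : cf D q = ∫ x in cube, deriv (fun τ => u τ x q.2) t * cas q.1 x := ha_int (hDsp q.2).cont q.1
    rw [h2]
    exact h1
  have hpD : pr (cf D) = cf D := by
    funext q
    have h1 := pr_deriv hd q
    have h2 : (fun τ => pr (cf (u τ)) q) =ᶠ[𝓝 t] fun τ => cf (u τ) q := by
      filter_upwards [Ioo_mem_nhds ht.1 ht.2] with τ hτ
      rw [(h.field τ ⟨hτ.1.le, hτ.2⟩).pr_cf]
    exact h1.unique ((hd q).congr_of_eventuallyEq h2)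
  have hpsp : SP (p t) := by
    refine ⟨H459R3.NS.contDiff_slice (f := p) h.smooth_p hI, h.per_p t hI⟩
  have hcv := sp_cv hF.sp hF.sp
  have hCu := hC.field _ _ hF hF
  -- coefficients of the equation
  have e1 : ∀ q, cf D q = ((-(ν * fq q.1 ^ s) * cf (u t) q + cf (C (u t) (u t)) q) + (-θ) * cf (cv (u t) (u t)) q) +
      q.1 q.2 * (2 * Real.pi * ha (p t) (-q.1)) := by
    rintro ⟨k, i⟩
    have m1 : (fun x => D x i) = fun x => ((-ν * flap s (fun y => u t y i) x + C (u t) (u t) x i) +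
        (-θ) * cv (u t) (u t) x i) + (-1) * pd i (p t) x := by
      funext x
      have := h.momentum t ht x i
      simp only [hD, cv]
      linarith
    have q1 := SP.smul (sp_flap (hF.sp i) s) (-ν)
    have q2 := hCu.sp i
    have q3 := SP.smul (hcv i) (-θ)
    have q4 := SP.smul (hpsp.pd i) (-1)
    show ha (fun x => D x i) k = _
    rw [m1, ha_add ((q1.add q2).add q3) q4, ha_add (q1.add q2) q3, ha_add q1 q2, ha_smul, ha_smul, ha_smul,
      ha_flap (hF.sp i), ha_pd hpsp]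
    simp only [cf]
    ring
  have e2 : cf D = fun q => ((-(ν * fq q.1 ^ s) * cf (u t) q + cf (C (u t) (u t)) q) + (-θ) * cf (cv (u t) (u t)) q) +
      q.1 q.2 * (2 * Real.pi * ha (p t) (-q.1)) := funext e1
  have e3 : cf D = fun q => (-(ν * fq q.1 ^ s) * cf (u t) q + cf (C (u t) (u t)) q) + (-θ) * pr (cf (cv (u t) (u t))) q := by
    have a1 := pr_add (fun q => ((-(ν * fq q.1 ^ s) * cf (u t) q + cf (C (u t) (u t)) q) + (-θ) * cf (cv (u t) (u t)) q))
      (fun q => q.1 q.2 * (2 * Real.pi * ha (p t) (-q.1)))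
    have a2 := pr_add (fun q => -(ν * fq q.1 ^ s) * cf (u t) q + cf (C (u t) (u t)) q)
      (fun q => (-θ) * cf (cv (u t) (u t)) q)
    have a3 := pr_add (fun q => -(ν * fq q.1 ^ s) * cf (u t) q) (cf (C (u t) (u t)))
    have a4 := pr_mult (fun k => -(ν * fq k ^ s)) (cf (u t))
    have a5 := pr_smul (-θ) (cf (cv (u t) (u t)))
    have a6 := pr_gr (fun k => 2 * Real.pi * ha (p t) (-k))
    rw [← hpD, e2, a1, a2, a3, a4, a5, a6, hF.pr_cf, hCu.pr_cf]
    funext q
    ring
  have hq := hd q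
  rw [e3] at hq
  refine hq.congr_deriv ?_
  have e4 : opC C (cf (u t)) (cf (u t)) q = cf (C (u t) (u t)) q := by
    unfold opC
    rw [hF.pr_cf, hF.fd]
  have e5 : opG (cf (u t)) (cf (u t)) = cf (cv (u t) (u t)) := by
    unfold opG
    rw [hF.pr_cf, hF.fd]
  have e6 : mu q ^ (2 * s) * cf (u t) q = fq q.1 ^ s * cf (u t) q := by
    by_cases hk : q.1 = 0
    · have : cf (u t) q = 0 := by
        rw [← hF.pr_cf, show q = (q.1, q.2) from rfl, hk, pr_zero]
      rw [this, mul_zero, mul_zero]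
    · show Lions.mk q.1 ^ (2 * s) * _ = _
      rw [mk_rpow hk]
  simp only [opA]
  rw [e4, e5]
  linear_combination ν * e6

theorem Sol.unif (h : Sol θ s ν C T u p) {b : ℝ} (hb : b < T) (m : ℕ) :
    ∃ B : ℝ, ∀ t ∈ Icc 0 b, ∀ q, mu q ^ m * |cf (u t) q| ≤ B := by
  choose B hB using fun i => ha_unif (h.SF i) hb m
  refine ⟨∑ i, |B i|, fun t ht q => (hB q.2 t ht q.1).trans ((le_abs_self _).trans ?_)⟩
  exact Finset.single_le_sum (f := fun i => |B i|) (fun i _ => abs_nonneg _) (Finset.mem_univ q.2)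

theorem Sol.coord' (hC : EulerType C) (h : Sol θ s ν C T u p) {b : ℝ} (hb : b < T) {t : ℝ} (ht : t ∈ Icc 0 b)
    (q : K3 × Fin 3) :
    HasDerivWithinAt (fun τ => cf (u τ) q) (-(ν * mu q ^ (2 * s)) * cf (u t) q + opA θ C (cf (u t)) (cf (u t)) q)
      (Icc 0 b) t := by
  have hT : t < T := ht.2.trans_lt hb
  rcases ht.1.eq_or_lt with h0 | h0
  · subst h0
    have hI : Ioo 0 T ∈ 𝓝[>] (0 : ℝ) := Ioo_mem_nhdsGT hT
    set f : ℝ → ℝ := fun t => -(ν * mu q ^ (2 * s)) * cf (u t) q + opA θ C (cf (u t)) (cf (u t)) q with hf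
    have hcont : ∀ q, ContinuousOn (fun τ => cf (u τ) q) (Ico 0 T) := fun q => ha_continuousOn (h.SF q.2) q.1
    have hr0 : RD mu (cf (u 0)) := rd_cf (h.field 0 ⟨le_rfl, hT⟩).sp
    have h1 : HasDerivWithinAt (fun τ => cf (u τ) q) (f 0) (Ici 0) 0 := by
      refine hasDerivWithinAt_Ici_of_tendsto_deriv (s := Ioo 0 T)
        (fun s hs => (h.coord hC hs q).differentiableAt.differentiableWithinAt)
        (((hcont q) 0 ⟨le_rfl, hT⟩).mono Ioo_subset_Ico_self) hI ?_
      have h2 : Tendsto f (𝓝[>] 0) (𝓝 (f 0)) := by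
        have h4 : 𝓝[Ioo 0 T] (0 : ℝ) = 𝓝[>] 0 := nhdsWithin_Ioo_eq_nhdsGT hT
        have h5 : ∀ q, Tendsto (fun τ => cf (u τ) q) (𝓝[>] 0) (𝓝 (cf (u 0) q)) := fun q => by
          have h3 : ContinuousWithinAt (fun τ => cf (u τ) q) (Ioo 0 T) 0 :=
            ((hcont q) 0 ⟨le_rfl, hT⟩).mono Ioo_subset_Ico_self
          unfold ContinuousWithinAt at h3
          rwa [h4] at h3
        -- replace the family by one which is rapidly decreasing for all parameters
        classical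
        set y : ℝ → K3 × Fin 3 → ℝ := fun τ => if τ ∈ Ico 0 T then cf (u τ) else 0 with hy
        have hyr : ∀ τ, RD mu (y τ) := fun τ => by
          simp only [hy]
          split_ifs with hτ
          · exact rd_cf (h.field τ hτ).sp
          · exact RD.zero
        obtain ⟨b', hb1, hb2⟩ := exists_between hT
        have hyub : UB mu (𝓝[>] (0 : ℝ)) y := fun m => by
          obtain ⟨B, hB⟩ := h.unif hb2 m
          refine ⟨B, ?_⟩
          filter_upwards [Ioo_mem_nhdsGT hb1] with τ hτ q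
          simp only [hy, if_pos (show τ ∈ Ico 0 T from ⟨hτ.1.le, hτ.2.trans hb2⟩)]
          exact hB τ ⟨hτ.1.le, hτ.2.le⟩ q
        have hye : ∀ᶠ τ in 𝓝[>] (0 : ℝ), y τ = cf (u τ) := by
          filter_upwards [hI] with τ hτ
          simp only [hy, if_pos (show τ ∈ Ico 0 T from ⟨hτ.1.le, hτ.2⟩)]
        have hyt : ∀ q, Tendsto (fun τ => y τ q) (𝓝[>] 0) (𝓝 (cf (u 0) q)) := fun q =>
          (h5 q).congr' (hye.mono fun τ hτ => by simp only [hτ])
        have h6 := tend_C wt_mu (opA_bil θ hC) hyr hyr hyub hyub hr0 hr0 hyt hyt q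
        have h7 := ((hyt q).const_mul (-(ν * mu q ^ (2 * s)))).add h6
        refine h7.congr' ?_
        filter_upwards [hye] with τ hτ
        simp only [hf, hτ]
      refine h2.congr' ?_
      filter_upwards [hI] with τ hτ
      exact (h.coord hC hτ q).deriv.symm
    exact h1.mono fun τ hτ => hτ.1
  · exact (h.coord hC ⟨h0, hT⟩ q).hasDerivWithinAt

/-- **Uniqueness.** -/
theorem Sol.unique (hC : EulerType C) (hν : 0 < ν) (hs : 5 / 4 ≤ s) (h : Sol θ s ν C T u p) {T' : ℝ} {v : ℝ → V → V}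
    {q : ℝ → V → ℝ} (h' : Sol θ s ν C T' v q) (h0 : u 0 = v 0) {t : ℝ} (ht : 0 ≤ t) (hT : t < T) (hT' : t < T') :
    u t = v t := by
  have h1 := uniq wt_mu (opA_bil θ hC) (b := t) hν hs (fun m => h.unif hT m) (fun m => h'.unif hT' m)
    (fun τ hτ q => h.coord' hC hT hτ q) (fun τ hτ q => h'.coord' hC hT' hτ q) (by rw [h0]) ⟨ht, le_rfl⟩
  rw [← (h.field t ⟨ht, hT⟩).fd, ← (h'.field t ⟨ht, hT'⟩).fd]
  exact congrArg fd h1

end Pool.Agent.H39.Lions
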